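import Pool.Agent.Helper76K9.RF.Loc3
import Mathlib.Analysis.Calculus.BumpFunction.Convolution
import Mathlib.Analysis.Calculus.LineDeriv.IntegrationByParts

/-!
Rough closed two-forms: forms which are closed in the sense of distributions.
-/

set_option autoImplicit false

open Set Filter Topology MeasureTheory Metric
open scoped Manifold ContDiff Convolution

noncomputable section

namespace Pool.Agent.Helper76K9.RF

open Pool.Agent.Y501.SY
open Pool.Agent.Y515.SY (Al)

variable {d : ℕ}

/-- closed in the sense of distributions on `U` -/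
def WCl (s : E d → Al d 2) (U : Set (E d)) : Prop :=
  ∀ g : E d → ℝ, ContDiff ℝ ∞ g → HasCompactSupport g → tsupport g ⊆ U → ∀ u v w : E d,
    ∫ p, (fderiv ℝ g p u * s p ![v, w] - fderiv ℝ g p v * s p ![u, w] +
      fderiv ℝ g p w * s p ![u, v]) = 0

theorem fderiv_off {g : E d → ℝ} {p : E d} (h : p ∉ tsupport g) : fderiv ℝ g p = 0 := by
  have h1 : g =ᶠ[𝓝 p] fun _ => 0 := by
    filter_upwards [(isClosed_tsupport g).isOpen_compl.mem_nhds h] with q hq
    exact image_eq_zero_of_notMem_tsupport hq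
  rw [h1.fderiv_eq]
  simp

theorem WCl.congr {s s' : E d → Al d 2} {U : Set (E d)} (h : WCl s U)
    (hs : ∀ᵐ p, p ∈ U → s' p = s p) : WCl s' U := by
  intro g hg hgc hgU u v w
  rw [← h g hg hgc hgU u v w]
  refine integral_congr_ae ?_
  filter_upwards [hs] with p hp
  by_cases hpU : p ∈ U
  · rw [hp hpU]
  · rw [fderiv_off fun h => hpU (hgU h)]
    simp

/-- the exterior derivative as a functional of the derivative -/
def dEv (u v w : E d) : (E d →L[ℝ] Al d 2) →L[ℝ] ℝ :=
  (ContinuousAlternatingMap.apply ℝ (E d) ℝ ![v, w]).comp (ContinuousLinearMap.apply ℝ (Al d 2) u) -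
  (ContinuousAlternatingMap.apply ℝ (E d) ℝ ![u, w]).comp (ContinuousLinearMap.apply ℝ (Al d 2) v) +
  (ContinuousAlternatingMap.apply ℝ (E d) ℝ ![u, v]).comp (ContinuousLinearMap.apply ℝ (Al d 2) w)

theorem dEv_apply (u v w : E d) (T : E d →L[ℝ] Al d 2) :
    dEv u v w T = T u ![v, w] - T v ![u, w] + T w ![u, v] := rfl

theorem extDeriv_dEv (t : E d → Al d 2) (q u v w : E d) :
    extDeriv t q ![u, v, w] = dEv u v w (fderiv ℝ t q) := by
  rw [dEv_apply]
  unfold extDeriv
  rw [ContinuousAlternatingMap.alternatizeUncurryFin_apply, Fin.sum_univ_three]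
  have e0 : (0 : Fin 3).removeNth ![u, v, w] = ![v, w] := by
    funext i; fin_cases i <;> rfl
  have e1 : (1 : Fin 3).removeNth ![u, v, w] = ![u, w] := by
    funext i; fin_cases i <;> rfl
  have e2 : (2 : Fin 3).removeNth ![u, v, w] = ![u, v] := by
    funext i; fin_cases i <;> rfl
  rw [e0, e1, e2]
  simp
  ring

theorem extDeriv_zero_of {t : E d → Al d 2} {q : E d}
    (h : ∀ u v w : E d, dEv u v w (fderiv ℝ t q) = 0) : extDeriv t q = 0 := by
  ext m
  have h1 : m = ![m 0, m 1, m 2] := by
    funext i; fin_cases i <;> rfl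
  rw [h1, extDeriv_dEv, h]
  rfl

theorem conv_ev {F : Type} [NormedAddCommGroup F] [NormedSpace ℝ F] [CompleteSpace F]
    {ψ : E d → ℝ} (hcs : HasCompactSupport ψ) (hcd : ContDiff ℝ ∞ ψ) {Φ : E d → F}
    (hΦ : LocallyIntegrable Φ volume) (q : E d) (T : (E d →L[ℝ] F) →L[ℝ] ℝ) :
    T (fderiv ℝ (ψ ⋆[ContinuousLinearMap.lsmul ℝ ℝ, volume] Φ) q) =
      ∫ y, T ((fderiv ℝ ψ (q - y)).smulRight (Φ y)) := by
  have h1 := (hcs.hasFDerivAt_convolution_left (ContinuousLinearMap.lsmul ℝ ℝ)
    (hcd.of_le (by simp : (1 : ℕ∞ω) ≤ ∞)) hΦ q).fderiv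
  have h2 := (hcs.fderiv ℝ).convolutionExists_left
    ((ContinuousLinearMap.lsmul ℝ ℝ : ℝ →L[ℝ] F →L[ℝ] F).precompL (E d))
    (hcd.continuous_fderiv (by simp)) hΦ q
  have h3 : ∀ (a : E d →L[ℝ] ℝ) (b : F),
      ((ContinuousLinearMap.lsmul ℝ ℝ : ℝ →L[ℝ] F →L[ℝ] F).precompL (E d)) a b = a.smulRight b := by
    intro a b
    ext c
    simp [ContinuousLinearMap.precompL_apply]
  rw [h1, convolution_eq_swap]
  have h4 := h2.integrable_swap
  rw [← ContinuousLinearMap.integral_comp_comm _ h4]
  simp only [h3]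

theorem int_of_bdd {F : Type} [NormedAddCommGroup F] {Φ : E d → F} {p₀ : E d} {R b : ℝ}
    (hm : StronglyMeasurable Φ) (hb : ∀ q, ‖Φ q‖ ≤ b) (h0 : ∀ q, q ∉ ball p₀ R → Φ q = 0) :
    Integrable Φ volume := by
  have h1 : IntegrableOn Φ (ball p₀ R) volume :=
    Measure.integrableOn_of_bounded (M := b) measure_ball_lt_top.ne
      hm.aestronglyMeasurable (Eventually.of_forall hb)
  have h2 : (ball p₀ R).indicator Φ = Φ := by
    funext q
    by_cases hq : q ∈ ball p₀ R
    · rw [indicator_of_mem hq]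
    · rw [indicator_of_notMem hq, h0 q hq]
  rw [← h2]
  exact h1.integrable_indicator measurableSet_ball

theorem LCE_of_dist {s : E d → Al d 2} {p₀ : E d} {R b : ℝ} (hR : 0 < R)
    (hm : AEStronglyMeasurable s (volume.restrict (ball p₀ R)))
    (hb : ∀ᵐ p, p ∈ ball p₀ R → ‖s p‖ ≤ b) (hcl : WCl s (ball p₀ R)) : LCE s p₀ := by
  classical
  obtain ⟨b', hb'0, hbb'⟩ : ∃ b', 0 ≤ b' ∧ b ≤ b' := ⟨max b 0, le_max_right _ _, le_max_left _ _⟩
  obtain ⟨g₀, hg₀, hsg⟩ := hm
  have hset : MeasurableSet (ball p₀ R ∩ {q | ‖g₀ q‖ ≤ b'}) :=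
    measurableSet_ball.inter (hg₀.norm.measurable measurableSet_Iic)
  obtain ⟨Φ, hΦ⟩ : ∃ Φ, Φ = (ball p₀ R ∩ {q | ‖g₀ q‖ ≤ b'}).indicator g₀ := ⟨_, rfl⟩
  have hΦm : StronglyMeasurable Φ := by rw [hΦ]; exact hg₀.indicator hset
  have hΦb : ∀ q, ‖Φ q‖ ≤ b' := by
    intro q
    rw [hΦ]
    by_cases hq : q ∈ ball p₀ R ∩ {q | ‖g₀ q‖ ≤ b'}
    · rw [indicator_of_mem hq]
      exact hq.2
    · rw [indicator_of_notMem hq, norm_zero]
      exact hb'0
  have hΦ0 : ∀ q, q ∉ ball p₀ R → Φ q = 0 := by
    intro q hq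
    rw [hΦ, indicator_of_notMem fun h => hq h.1]
  have hΦs : ∀ᵐ q, q ∈ ball p₀ R → Φ q = s q := by
    have h1 : ∀ᵐ q, q ∈ ball p₀ R → s q = g₀ q :=
      (ae_restrict_iff' measurableSet_ball).1 hsg
    filter_upwards [h1, hb] with q h2 h3 hqK
    have hq : q ∈ ball p₀ R ∩ {q | ‖g₀ q‖ ≤ b'} := by
      refine ⟨hqK, ?_⟩
      change ‖g₀ q‖ ≤ b'
      rw [← h2 hqK]
      exact (h3 hqK).trans hbb'
    rw [hΦ, indicator_of_mem hq, h2 hqK]
  have hΦi : Integrable Φ volume := int_of_bdd hΦm hΦb hΦ0
  have hΦl : LocallyIntegrable Φ volume := hΦi.locallyIntegrable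
  have hΦw : WCl Φ (ball p₀ R) := hcl.congr hΦs
  -- the mollifiers
  obtain ⟨φ, hφ1, hφ2⟩ : ∃ φ : ℕ → ContDiffBump (0 : E d), (∀ n, (φ n).rOut = R / 2 / (n + 1)) ∧
      ∀ n, (φ n).rIn = R / 4 / (n + 1) :=
    ⟨fun n => ⟨R / 4 / (n + 1), R / 2 / (n + 1), by positivity, by
      have : (0 : ℝ) < n + 1 := by positivity
      gcongr; linarith⟩, fun n => rfl, fun n => rfl⟩
  have hφR : ∀ n, (φ n).rOut ≤ R / 2 := by
    intro n
    rw [hφ1]
    have : (0 : ℝ) ≤ n := Nat.cast_nonneg n
    exact div_le_self (by positivity) (by linarith)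
  have hlim0 : Tendsto (fun n => (φ n).rOut) atTop (𝓝 0) := by
    simp only [hφ1]
    have := tendsto_one_div_add_atTop_nhds_zero_nat (𝕜 := ℝ)
    have h2 := this.const_mul (R / 2)
    rw [mul_zero] at h2
    refine h2.congr fun n => ?_
    ring
  obtain ⟨t, ht⟩ : ∃ t : ℕ → E d → Al d 2, t = fun n => (φ n).normed volume ⋆[ContinuousLinearMap.lsmul ℝ ℝ, volume] Φ :=
    ⟨_, rfl⟩
  refine ⟨R / 2, b', t, by positivity, ⟨fun n => ?_, fun n q hq => ?_, fun n q hq => ?_, ?_⟩⟩
  · rw [ht]
    exact (((φ n).hasCompactSupport_normed (μ := volume)).contDiff_convolution_left (n := ⊤) _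
      ((φ n).contDiff_normed (μ := volume) (n := ⊤)) hΦl).contDiffOn
  · refine extDeriv_zero_of fun u v w => ?_
    have hcs := (φ n).hasCompactSupport_normed (μ := (volume : Measure (E d)))
    have hcd : ContDiff ℝ ∞ ((φ n).normed (volume : Measure (E d))) := (φ n).contDiff_normed
    rw [ht]
    dsimp only
    rw [conv_ev hcs hcd hΦl q (dEv u v w)]
    obtain ⟨g, hg⟩ : ∃ g : E d → ℝ, g = fun y => (φ n).normed (volume : Measure (E d)) (q - y) :=
      ⟨_, rfl⟩
    have hgd : ContDiff ℝ ∞ g := by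
      rw [hg]
      exact hcd.comp (contDiff_const.sub contDiff_id)
    have hgsub : Function.support g ⊆ closedBall q (φ n).rOut := by
      intro y hy
      rw [hg, Function.mem_support] at hy
      have h4 : q - y ∈ ball (0 : E d) (φ n).rOut := by
        rw [← (φ n).support_normed_eq (μ := (volume : Measure (E d)))]
        exact hy
      rw [mem_ball_zero_iff] at h4
      rw [mem_closedBall, dist_comm, dist_eq_norm]
      exact h4.le
    have hgts : tsupport g ⊆ closedBall q (φ n).rOut :=
      closure_minimal hgsub isClosed_closedBall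
    have hgc : HasCompactSupport g :=
      (isCompact_closedBall q (φ n).rOut).of_isClosed_subset (isClosed_tsupport g) hgts
    have hgB : tsupport g ⊆ ball p₀ R := by
      refine hgts.trans fun y hy => ?_
      have h5 : dist y q ≤ R / 2 := (mem_closedBall.1 hy).trans (hφR n)
      have h6 : dist q p₀ < R / 2 := mem_ball.1 hq
      rw [mem_ball]
      exact lt_of_le_of_lt (dist_triangle y q p₀) (by linarith)
    have h7 := hΦw g hgd hgc hgB u v w
    have h8 : ∀ y a : E d, fderiv ℝ g y a =
        - fderiv ℝ ((φ n).normed (volume : Measure (E d))) (q - y) a := by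
      intro y a
      have h9 : HasFDerivAt (fun y : E d => q - y) (-(ContinuousLinearMap.id ℝ (E d))) y :=
        (hasFDerivAt_id y).const_sub q
      have h10 : HasFDerivAt ((φ n).normed (volume : Measure (E d)))
          (fderiv ℝ ((φ n).normed (volume : Measure (E d))) (q - y)) (q - y) :=
        (hcd.differentiable (by simp) _).hasFDerivAt
      have h11 := (h10.comp y h9).fderiv
      rw [hg]
      rw [show (fun y => (φ n).normed (volume : Measure (E d)) (q - y)) =
        (φ n).normed (volume : Measure (E d)) ∘ fun y => q - y from rfl, h11]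
      simp
    have h12 : ∀ y, dEv u v w ((fderiv ℝ ((φ n).normed
        (volume : Measure (E d))) (q - y)).smulRight (Φ y)) =
        - (fderiv ℝ g y u * Φ y ![v, w] - fderiv ℝ g y v * Φ y ![u, w] +
      fderiv ℝ g y w * Φ y ![u, v]) := by
      intro y
      rw [dEv_apply, h8, h8, h8]
      simp only [ContinuousLinearMap.smulRight_apply,
        ContinuousAlternatingMap.smul_apply, smul_eq_mul]
      ring
    simp only [h12]
    rw [integral_neg, h7, neg_zero]
  · rw [ht]
    have h1 := dist_convolution_le (μ := (volume : Measure (E d))) (f := (φ n).normed volume)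
      (g := Φ) (x₀ := q) (R := (φ n).rOut) (ε := b') (z₀ := 0) hb'0
      (by rw [(φ n).support_normed_eq]) (fun x => (φ n).nonneg_normed x)
      ((φ n).integral_normed) hΦm.aestronglyMeasurable (fun x _ => by
        rw [dist_zero_right]; exact hΦb x)
    rwa [dist_zero_right] at h1
  · have h1 := ContDiffBump.ae_convolution_tendsto_right_of_locallyIntegrable
      (μ := (volume : Measure (E d))) (φ := φ) (K := 2) hlim0
      (Eventually.of_forall fun n => by
        rw [hφ1, hφ2]
        apply le_of_eq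
        ring) hΦl
    filter_upwards [h1, hΦs] with q h2 h3 hq
    have h4 : Φ q = s q := h3 (ball_subset_ball (by linarith) hq)
    rw [← h4, ht]
    exact h2

/-- Smooth closed forms are closed in the sense of distributions. -/
theorem WCl_of_smooth {s : E d → Al d 2} {U : Set (E d)} (hU : IsOpen U)
    (hs : ContDiffOn ℝ ∞ s U) (hcl : ∀ p ∈ U, extDeriv s p = 0) : WCl s U := by
  intro g hg hgc hgU u v w
  have hgcont : Continuous g := hg.continuous
  have key : ∀ h : E d → ℝ, ContinuousOn h U → Continuous fun p => h p * g p := by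
    intro h hh
    rw [continuous_iff_continuousAt]
    intro p
    by_cases hp : p ∈ tsupport g
    · exact (hh.continuousAt (hU.mem_nhds (hgU hp))).mul hgcont.continuousAt
    · have h1 : (fun p => h p * g p) =ᶠ[𝓝 p] fun _ => 0 := by
        filter_upwards [(isClosed_tsupport g).isOpen_compl.mem_nhds hp] with q hq
        rw [image_eq_zero_of_notMem_tsupport hq, mul_zero]
      exact continuousAt_const.congr h1.symm
  have key2 : ∀ h : E d → ℝ, ContinuousOn h U → Integrable (fun p => h p * g p) volume := by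
    intro h hh
    exact (key h hh).integrable_of_hasCompactSupport hgc.mul_left
  have key3 : ∀ (h : E d → ℝ) (a : E d), ContinuousOn h U →
      Integrable (fun p => h p * fderiv ℝ g p a) volume := by
    intro h a hh
    have hc : Continuous fun p => fderiv ℝ g p a :=
      (hg.continuous_fderiv (by simp)).clm_apply continuous_const
    have hcont : Continuous fun p => h p * fderiv ℝ g p a := by
      rw [continuous_iff_continuousAt]
      intro p
      by_cases hp : p ∈ tsupport g
      · exact (hh.continuousAt (hU.mem_nhds (hgU hp))).mul hc.continuousAt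
      · have h1 : (fun p => h p * fderiv ℝ g p a) =ᶠ[𝓝 p] fun _ => 0 := by
          filter_upwards [(isClosed_tsupport g).isOpen_compl.mem_nhds hp] with q hq
          rw [fderiv_off hq]
          simp
        exact continuousAt_const.congr h1.symm
    refine hcont.integrable_of_hasCompactSupport ?_
    refine HasCompactSupport.mul_left ?_
    refine hgc.mono' ?_
    intro p hp
    by_contra h
    rw [Function.mem_support, fderiv_off h] at hp
    simp at hp
  have hcoef : ∀ a b : E d, ContDiffOn ℝ ∞ (fun p => s p ![a, b]) U := fun a b =>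
    (ContinuousAlternatingMap.apply ℝ (E d) ℝ ![a, b]).contDiff.comp_contDiffOn hs
  have hdiff : ∀ p ∈ U, DifferentiableAt ℝ s p := fun p hp =>
    (hs.contDiffAt (hU.mem_nhds hp)).differentiableAt (by simp)
  have hcd : ∀ (a b c : E d), ContinuousOn (fun p => fderiv ℝ (fun p => s p ![a, b]) p c) U := by
    intro a b c
    have h1 := (hcoef a b).continuousOn_fderiv_of_isOpen hU (by simp)
    exact h1.clm_apply continuousOn_const
  have hfd : ∀ p ∈ U, ∀ a b c : E d,
      fderiv ℝ (fun p => s p ![a, b]) p c = fderiv ℝ s p c ![a, b] := by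
    intro p hp a b c
    have h1 := ((ContinuousAlternatingMap.apply ℝ (E d) ℝ ![a, b]).hasFDerivAt.comp p
      (hdiff p hp).hasFDerivAt).fderiv
    have h2 : (fun p => s p ![a, b]) = (ContinuousAlternatingMap.apply ℝ (E d) ℝ ![a, b]) ∘ s := rfl
    rw [h2, h1]
    rfl
  have hibp : ∀ (a b c : E d), ∫ p, s p ![a, b] * fderiv ℝ g p c =
      - ∫ p, fderiv ℝ (fun p => s p ![a, b]) p c * g p := by
    intro a b c
    refine integral_mul_fderiv_eq_neg_fderiv_mul_of_integrable (μ := volume)
      (key2 _ (hcd a b c)) (key3 _ c (hcoef a b).continuousOn) (key2 _ (hcoef a b).continuousOn)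
      ?_ ?_
    · intro p hp
      exact ((hcoef a b).contDiffAt (hU.mem_nhds (hgU hp))).differentiableAt (by simp)
    · exact fun p _ => hg.differentiable (by simp) p
  have hsplit : ∫ p, (fderiv ℝ g p u * s p ![v, w] - fderiv ℝ g p v * s p ![u, w] +
      fderiv ℝ g p w * s p ![u, v]) = (∫ p, s p ![v, w] * fderiv ℝ g p u) -
      (∫ p, s p ![u, w] * fderiv ℝ g p v) + ∫ p, s p ![u, v] * fderiv ℝ g p w := by
    have i1 := key3 _ u (hcoef v w).continuousOn
    have i2 := key3 _ v (hcoef u w).continuousOn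
    have i3 := key3 _ w (hcoef u v).continuousOn
    have e1 := integral_sub i1 i2
    have e2 := integral_add (i1.sub i2) i3
    simp only [Pi.sub_apply] at e2
    rw [← e1, ← e2]
    refine integral_congr_ae (Eventually.of_forall fun p => ?_)
    dsimp only
    ring
  rw [hsplit, hibp, hibp, hibp]
  have j1 := key2 _ (hcd v w u)
  have j2 := key2 _ (hcd u w v)
  have j3 := key2 _ (hcd u v w)
  have h4 : (∫ p, fderiv ℝ (fun p => s p ![v, w]) p u * g p) -
      (∫ p, fderiv ℝ (fun p => s p ![u, w]) p v * g p) +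
      ∫ p, fderiv ℝ (fun p => s p ![u, v]) p w * g p = 0 := by
    have e1 := integral_sub j1 j2
    have e2 := integral_add (j1.sub j2) j3
    simp only [Pi.sub_apply] at e2
    rw [← e1, ← e2]
    rw [← integral_zero (E d) ℝ (μ := volume)]
    refine integral_congr_ae (Eventually.of_forall fun p => ?_)
    dsimp only
    by_cases hp : p ∈ tsupport g
    · rw [hfd p (hgU hp), hfd p (hgU hp), hfd p (hgU hp)]
      have h5 := extDeriv_dEv s p u v w
      rw [hcl p (hgU hp), dEv_apply] at h5
      have h6 : (0 : (E d) [⋀^Fin (2 + 1)]→L[ℝ] ℝ) ![u, v, w] = 0 := rfl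
      rw [h6] at h5
      rw [← sub_mul, ← add_mul, ← h5, zero_mul]
    · rw [image_eq_zero_of_notMem_tsupport hp]
      ring
  linarith

end Pool.Agent.Helper76K9.RF
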