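import Pool.Agent.Y501.SY.PubT

/-!
Two-forms with bounded measurable coefficients which are closed in the sense of distributions:
the definitions used in the statement of the result.
-/

set_option autoImplicit false

open Set Filter Topology MeasureTheory
open scoped Manifold ContDiff

noncomputable section

namespace Pool.Agent.Helper76K9.RFP

open Pool.Agent.Y501.SYP

/-- Lebesgue measure of the Euclidean space -/
def leb (d : ℕ) : Measure (ES d) := (volume : Measure (EuclideanSpace ℝ (Fin d)))

/-- The two-form `s` is closed on `O` in the sense of distributions: the integral of `dg ∧ s`,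
evaluated on any three constant vectors, vanishes for all smooth functions `g` with compact
support in `O`. -/
def DistClosed {d : ℕ} (s : ES d → (ES d) [⋀^Fin 2]→L[ℝ] ℝ) (O : Set (ES d)) : Prop :=
  ∀ g : ES d → ℝ, ContDiff ℝ ∞ g → HasCompactSupport g → tsupport g ⊆ O → ∀ u v w : ES d,
    ∫ p, (fderiv ℝ g p u * s p ![v, w] - fderiv ℝ g p v * s p ![u, w] +
      fderiv ℝ g p w * s p ![u, v]) ∂(leb d) = 0

variable {d : ℕ} {X : Type} [TopologicalSpace X] [ChartedSpace (ES d) X]

/-- `P` holds at almost all points of some ball around `x`, in the chart at `x`. -/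
def AENear (x : X) (P : ES d → Prop) : Prop :=
  ∃ r : ℝ, 0 < r ∧ ∀ᵐ p ∂(leb d), p ∈ Metric.ball (chartAt (ES d) x x) r → P p

/-- `σ` is a rough closed form near `x`: in some ball around `x`, in the chart at `x`, its
coefficients are measurable and essentially bounded, and it is closed in the sense of
distributions. -/
def RoughClosedAt (σ : Form (ES d) X 2) (x : X) : Prop :=
  ∃ r b : ℝ, 0 < r ∧ Metric.ball (chartAt (ES d) x x) r ⊆ (chartAt (ES d) x).target ∧
    AEStronglyMeasurable (pb (chartAt (ES d) x).symm σ)
      ((leb d).restrict (Metric.ball (chartAt (ES d) x x) r)) ∧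
    (∀ᵐ p ∂(leb d), p ∈ Metric.ball (chartAt (ES d) x x) r →
      ‖pb (chartAt (ES d) x).symm σ p‖ ≤ b) ∧
    DistClosed (pb (chartAt (ES d) x).symm σ) (Metric.ball (chartAt (ES d) x x) r)

/-- `σ` is uniformly nondegenerate near `x`: for some linear endomorphism `T` of the model space
and some `c > 0`, one has `σ(v, T v) ≥ c |v|²` almost everywhere near `x`, in the chart at `x`. -/
def UnifNondegAt (σ : Form (ES d) X 2) (x : X) : Prop :=
  ∃ (T : ES d →L[ℝ] ES d) (c : ℝ), 0 < c ∧ AENear x fun p => ∀ v : ES d,
    c * ‖v‖ ^ 2 ≤ pb (chartAt (ES d) x).symm σ p ![v, T v]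

/-- `σ` tames `J` uniformly almost everywhere near `x`. -/
def UnifTamesAE (σ : Form (ES d) X 2) (J : End (ES d) X) (x : X) : Prop :=
  ∃ c : ℝ, 0 < c ∧ AENear x fun p => ∀ v : ES d,
    c * ‖v‖ ^ 2 ≤ pb (chartAt (ES d) x).symm σ p ![v, inChart J x p v]

/-- `σ` is nonnegative on the `J`-complex lines almost everywhere near `x`. -/
def NonnegAE (σ : Form (ES d) X 2) (J : End (ES d) X) (x : X) : Prop :=
  AENear x fun p => ∀ v : ES d, 0 ≤ pb (chartAt (ES d) x).symm σ p ![v, inChart J x p v]

variable (d X) in
/-- A rough closed two-form with values in a flat real line bundle: open sets `U i` which cover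
`X`, locally constant positive transition functions `c i j` on `U i ∩ U j` with the cocycle
condition, and two-forms `σ i`, rough and closed near all points of `U i`, with
`σ i = c i j • σ j` almost everywhere near all points of `U i ∩ U j`. -/
structure RoughTwisted (ι : Type) where
  U : ι → Set X
  c : ι → ι → X → ℝ
  σ : ι → Form (ES d) X 2
  isOpen : ∀ i, IsOpen (U i)
  cover : ∀ x, ∃ i, x ∈ U i
  pos : ∀ i j, ∀ x ∈ U i ∩ U j, 0 < c i j x
  const : ∀ i j, ∀ x ∈ U i ∩ U j, ∀ᶠ y in 𝓝 x, c i j y = c i j x
  cocycle : ∀ i j k, ∀ x ∈ U i ∩ U j ∩ U k, c i j x * c j k x = c i k x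
  trans : ∀ i j, ∀ x ∈ U i ∩ U j, AENear x fun p =>
    pb (chartAt (ES d) x).symm (σ i) p = c i j x • pb (chartAt (ES d) x).symm (σ j) p
  closed : ∀ i, ∀ x ∈ U i, RoughClosedAt (σ i) x

/-- The twisted form is uniformly nondegenerate near every point. -/
def RoughTwisted.Nondeg {ι : Type} (S : RoughTwisted d X ι) : Prop :=
  ∀ i, ∀ x ∈ S.U i, UnifNondegAt (S.σ i) x

/-- the set of the points near which the twisted form does not tame `J` uniformly -/
def RoughTwisted.crit {ι : Type} (S : RoughTwisted d X ι) (J : End (ES d) X) : Set X :=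
  {x | ∃ i, x ∈ S.U i ∧ ¬ UnifTamesAE (S.σ i) J x}

/-- The rough twisted form weakly tames `J`: it is nonnegative on the `J`-complex lines almost
everywhere, and the components of the set of the points near which it does not tame `J` uniformly
are small at all their points. -/
structure RoughTwisted.WeaklyTames {ι : Type} (S : RoughTwisted d X ι) (J : End (ES d) X) :
    Prop where
  nonneg : ∀ i, ∀ x ∈ S.U i, NonnegAE (S.σ i) J x
  small : ∀ z ∈ S.crit J, SmallAll J (connectedComponentIn (S.crit J) z) z

/-- symplectic forms: smooth, closed and nondegenerate -/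
structure IsSymplectic (w : Form (ES d) X 2) : Prop where
  smooth : IsSmooth w
  closed : IsClosedForm w
  nondeg : ∀ (x : X) (v : TangentSpace 𝓘(ℝ, ES d) x), (∀ u, w x ![v, u] = 0) → v = 0

end Pool.Agent.Helper76K9.RFP
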