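import Pool.Agent.Helper76K9.RF.Tw2
import Pool.Agent.Helper76K9.RF.Pub
import Pool.Agent.Y501.SY.BridgeT
import Pool.Agent.Q186.FL.Final

/-!
Rough closed forms: comparison of the definitions and the final theorem.
-/

set_option autoImplicit false

open Set Filter Topology MeasureTheory Metric
open scoped Manifold ContDiff

noncomputable section

namespace Pool.Agent.Helper76K9.RFP

open Pool.Agent.Y501.SYP
open Pool.Agent.Helper76K9

section

variable {d : ℕ} {X : Type} [TopologicalSpace X] [ChartedSpace (ES d) X]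

attribute [local instance] cs mf

theorem lcm_of [IsManifold 𝓘(ℝ, ES d) ∞ X] {m : ℕ} {F : X → Y501.SY.E m}
    (hF : ContMDiff (𝓡 d) (𝓡 m) ∞ F)
    (hFi : ∀ x, Function.Injective (mfderiv (𝓡 d) (𝓡 m) F x)) {σ : Form (ES d) X 2} {x : X}
    (h : RoughClosedAt σ x) : RF.LCM (d := d) F σ x := by
  obtain ⟨r, b, hr, -, h1, h2, h3⟩ := h
  exact RF.LCE.toM hF hFi x (mem_chart_source _ x) (RF.LCE_of_dist (b := b) hr h1 h2 h3)

theorem up_iff [IsManifold 𝓘(ℝ, ES d) ∞ X] {σ : Form (ES d) X 2} {J : End (ES d) X} {x : X} :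
    RF.UP (d := d) (X := X) σ J x ↔ UnifTamesAE σ J x :=
  RF.UP_iff_AEC (d := d) (X := X)

theorem twD_of {ι : Type} (S : RoughTwisted d X ι) : RF.TwD (d := d) S.U S.c S.σ :=
  ⟨S.isOpen, S.cover, S.pos, S.const, S.cocycle, S.trans⟩

theorem und_iff {σ : Form (ES d) X 2} {x : X} :
    RF.UND (d := d) (X := X) σ x ↔ UnifNondegAt σ x := Iff.rfl

theorem rough_of [IsManifold 𝓘(ℝ, ES d) ∞ X] {w : Form (ES d) X 2} (h1 : IsSmooth w)
    (h2 : IsClosedForm w) (x : X) : RoughClosedAt w x :=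
  RF.rough_of_smooth (d := d) ((smooth_iff w).1 h1) ((closed_iff w).1 h2) x

/-- the twisted form given by a closed form -/
def ofForm [IsManifold 𝓘(ℝ, ES d) ∞ X] (w : Form (ES d) X 2) (h1 : IsSmooth w)
    (h2 : IsClosedForm w) : RoughTwisted d X Unit where
  U := fun _ => univ
  c := fun _ _ _ => 1
  σ := fun _ => w
  isOpen := fun _ => isOpen_univ
  cover := fun x => ⟨(), mem_univ x⟩
  pos := fun _ _ _ _ => one_pos
  const := fun _ _ _ _ => Eventually.of_forall fun _ => rfl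
  cocycle := fun _ _ _ _ _ => one_mul _
  trans := fun _ _ _ _ => ⟨1, one_pos, Eventually.of_forall fun _ _ => (one_smul _ _).symm⟩
  closed := fun _ x _ => rough_of h1 h2 x

theorem nondeg_iff [IsManifold 𝓘(ℝ, ES d) ∞ X] [CompactSpace X] [T2Space X]
    [SimplyConnectedSpace X] :
    (∃ w : Form (ES d) X 2, IsSymplectic w) ↔
      ∃ (ι : Type) (S : RoughTwisted d X ι), S.Nondeg := by
  constructor
  · rintro ⟨w, hw⟩
    refine ⟨Unit, ofForm w hw.smooth hw.closed, fun i x _ => ?_⟩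
    exact RF.und_of_smooth (d := d) ((smooth_iff w).1 hw.smooth) ((closed_iff w).1 hw.closed)
      hw.nondeg x
  · rintro ⟨ι, S, hS⟩
    obtain ⟨m, F, hF, -, hFi⟩ := exists_embedding_euclidean_of_compact (I := 𝓡 d) (M := X)
    obtain ⟨w, h1, h2, h3⟩ := RF.tw_nondeg (d := d) (twD_of S) hF hFi
      (fun i x hx => lcm_of hF hFi (S.closed i x hx)) (fun i x hx => hS i x hx)
    exact ⟨w, (smooth_iff w).2 h1, (closed_iff w).2 h2, h3⟩

theorem tames_zero {X : Type} [TopologicalSpace X] [ChartedSpace (ES 0) X]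
    [IsManifold 𝓘(ℝ, ES 0) ∞ X] (J : End (ES 0) X) :
    ∃ w : Form (ES 0) X 2, IsTamingSymplectic w J := by
  have hs : ∀ v : Y501.SY.E 0, v = 0 := fun v => Subsingleton.elim _ _
  refine ⟨fun x => 0, symp_of ?_ ?_ ?_⟩
  · exact (smooth_iff (d := 0) (X := X) (fun x => 0)).2 (Y501.SY.IsSmooth.zero (d := 0) (X := X))
  · exact (closed_iff (d := 0) (X := X) (fun x => 0)).2 (Y501.SY.IsD.zero (d := 0) (X := X))
  · intro x v hv
    exact absurd (hs v) hv

theorem weak_iff [IsManifold 𝓘(ℝ, ES d) ∞ X] [CompactSpace X] [T2Space X]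
    [SimplyConnectedSpace X] (J : End (ES d) X) (hJ : IsAlmostComplex J) :
    (∃ w : Form (ES d) X 2, IsTamingSymplectic w J) ↔
      ∃ (ι : Type) (S : RoughTwisted d X ι), S.WeaklyTames J := by
  constructor
  · rintro ⟨w, hw⟩
    have hut : ∀ x, UnifTamesAE w J x := by
      intro x
      obtain ⟨c, hc, h⟩ := Pool.Agent.Q186.FLP.unifTames hJ hw x
      obtain ⟨r, hr, h2⟩ := Metric.eventually_nhds_iff_ball.1 h
      exact ⟨c, hc, r, hr, Eventually.of_forall fun p hp v => h2 p hp (notMem_empty _) v⟩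
    refine ⟨Unit, ofForm w hw.smooth hw.closed, ?_, ?_⟩
    · intro i x _
      obtain ⟨c, hc, r, hr, h⟩ := hut x
      refine ⟨r, hr, ?_⟩
      filter_upwards [h] with p hp hpb v
      exact le_trans (by positivity) (hp hpb v)
    · rintro z ⟨i, -, hz⟩
      exact absurd (hut z) hz
  · rintro ⟨ι, S, hS⟩
    rcases Nat.eq_zero_or_pos d with rfl | hd
    · exact tames_zero J
    obtain ⟨m, F, hF, -, hFi⟩ := exists_embedding_euclidean_of_compact (I := 𝓡 d) (M := X)
    have hcrit : RF.twCrit (d := d) S.U S.σ J = S.crit J := by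
      ext x
      constructor
      · rintro ⟨i, hi, h⟩
        exact ⟨i, hi, fun h' => h (up_iff.2 h')⟩
      · rintro ⟨i, hi, h⟩
        exact ⟨i, hi, fun h' => h (up_iff.1 h')⟩
    obtain ⟨w, h1, h2, h3⟩ := RF.tw_weak (d := d) hd (twD_of S) hF hFi (J := J) (ac_of J hJ)
      (fun i x hx => lcm_of hF hFi (S.closed i x hx)) (fun i x hx => hS.nonneg i x hx)
      (by
        rw [hcrit]
        exact fun z hz => smallAll_of hJ (hS.small z hz))
    exact ⟨w, symp_of ((smooth_iff w).2 h1) ((closed_iff w).2 h2) h3⟩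

end

end Pool.Agent.Helper76K9.RFP
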