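import Pool.Agent.Helper76K9.RF.Main
import Pool.Agent.Y501.SY.MainT

/-!
Rough closed forms: local conditions, and the weakly taming case.
-/

set_option autoImplicit false

open Set Filter Topology MeasureTheory Metric
open scoped Manifold ContDiff

noncomputable section

namespace Pool.Agent.Helper76K9.RF

open Pool.Agent.Y501.SY
open Pool.Agent.Y515.SY (Al finAl evL evL_inj bs two_bound)
open Pool.Agent.Y455.SY (A B AB BA A_surj Q Q_eq tames_iff)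
open Pool.Agent.Y929.SY (ev_of_chart ev_to_chart near pb_apply2 pos_near)

section

variable {d : ℕ} {X : Type} [TopologicalSpace X] [ChartedSpace (E d) X]

theorem cnull_biUnion {ι : Type*} (t : Finset ι) (N : ι → Set X)
    (h : ∀ i ∈ t, CNull (d := d) (N i)) : CNull (d := d) (⋃ i ∈ t, N i) := by
  classical
  induction t using Finset.induction_on with
  | empty => simpa using cnull_empty (d := d) (X := X)
  | insert a t ha ih =>
    rw [Finset.set_biUnion_insert]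
    exact (h a (Finset.mem_insert_self a t)).union (ih fun i hi => h i (Finset.mem_insert_of_mem hi))

theorem exists_low {ι : Type*} (t : Finset ι) (f : ι → ℝ) (h : ∀ i, 0 < f i) :
    ∃ ε : ℝ, 0 < ε ∧ ∀ i ∈ t, ε ≤ f i := by
  classical
  induction t using Finset.induction_on with
  | empty => exact ⟨1, one_pos, by simp⟩
  | insert a t ha ih =>
    obtain ⟨ε, hε, h1⟩ := ih
    refine ⟨min ε (f a), lt_min hε (h a), fun i hi => ?_⟩
    rcases Finset.mem_insert.1 hi with rfl | hi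
    · exact min_le_right _ _
    · exact (min_le_left _ _).trans (h1 i hi)

/-- compactness, almost everywhere -/
theorem glob_ae [CompactSpace X] (P : ℝ → X → Prop)
    (hmono : ∀ (ε ε' : ℝ) (y : X), 0 < ε' → ε' ≤ ε → P ε y → P ε' y)
    (h : ∀ x : X, ∃ (ε : ℝ) (N : Set X), 0 < ε ∧ CNull (d := d) N ∧
      ∀ᶠ y in 𝓝 x, y ∉ N → P ε y) :
    ∃ (ε : ℝ) (N : Set X), 0 < ε ∧ CNull (d := d) N ∧ ∀ y, y ∉ N → P ε y := by
  classical
  choose f N hf hN h using h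
  obtain ⟨t, -, ht⟩ := (isCompact_univ (X := X)).elim_nhds_subcover
    (fun x => {y | y ∉ N x → P (f x) y}) (fun x _ => h x)
  obtain ⟨ε, hε, hεt⟩ := exists_low t f hf
  refine ⟨ε, ⋃ x ∈ t, N x, hε, cnull_biUnion t N fun i _ => hN i, fun y hy => ?_⟩
  obtain ⟨x, hx, hxy⟩ := mem_iUnion₂.1 (ht (mem_univ y))
  refine hmono _ _ _ hε (hεt x hx) (hxy fun hyN => hy ?_)
  exact mem_iUnion₂.2 ⟨x, hx, hyN⟩

/-- a countable version without constants -/
theorem glob_ae' [CompactSpace X] (P : X → Prop)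
    (h : ∀ x : X, ∃ N : Set X, CNull (d := d) N ∧ ∀ᶠ y in 𝓝 x, y ∉ N → P y) :
    ∃ N : Set X, CNull (d := d) N ∧ ∀ y, y ∉ N → P y := by
  obtain ⟨-, N, -, h1, h2⟩ := glob_ae (d := d) (fun _ y => P y) (fun _ _ _ _ _ h => h)
    (fun x => by
      obtain ⟨N, h1, h2⟩ := h x
      exact ⟨1, N, one_pos, h1, h2⟩)
  exact ⟨N, h1, h2⟩

/-- `σ` is uniformly positive for `J` almost everywhere near `x`. -/
def UP (σ : Form d X 2) (J : End d X) (x : X) : Prop :=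
  ∃ N : Set X, CNull (d := d) N ∧ UTAt σ J N x

end

section

variable {d : ℕ} {X : Type} [TopologicalSpace X] [ChartedSpace (E d) X]
  [IsManifold (𝓡 d) ∞ X]

theorem UP_iff {m : ℕ} {F : X → E m} (hF : ContMDiff (𝓡 d) (𝓡 m) ∞ F)
    (hFi : ∀ x, Function.Injective (mfderiv (𝓡 d) (𝓡 m) F x)) (σ : Form d X 2) (J : End d X)
    (x : X) :
    UP σ J x ↔ ∃ (c : ℝ) (N : Set X), 0 < c ∧ CNull (d := d) N ∧ ∀ᶠ y in 𝓝 x, y ∉ N →
      ∀ v : TangentSpace (𝓡 d) y, c * nm F y v ^ 2 ≤ σ y ![v, J y v] := by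
  constructor
  · rintro ⟨N, hN, h⟩
    obtain ⟨c, hc, h'⟩ := (UTAt_iff Pool.Agent.Y44.SY.t_IMM hF hFi σ J N x).1 h
    exact ⟨c, N, hc, hN, h'⟩
  · rintro ⟨c, N, hc, hN, h⟩
    exact ⟨N, hN, (UTAt_iff Pool.Agent.Y44.SY.t_IMM hF hFi σ J N x).2 ⟨c, hc, h⟩⟩

theorem isOpen_UP {m : ℕ} {F : X → E m} (hF : ContMDiff (𝓡 d) (𝓡 m) ∞ F)
    (hFi : ∀ x, Function.Injective (mfderiv (𝓡 d) (𝓡 m) F x)) (σ : Form d X 2) (J : End d X) :
    IsOpen {x | UP σ J x} := by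
  rw [isOpen_iff_eventually]
  intro x hx
  obtain ⟨c, N, hc, hN, h⟩ := (UP_iff hF hFi σ J x).1 hx
  filter_upwards [eventually_eventually_nhds.2 h] with y hy
  exact (UP_iff hF hFi σ J y).2 ⟨c, N, hc, hN, hy⟩

omit [IsManifold (𝓡 d) ∞ X] in
theorem lc_bdd [CompactSpace X] {m : ℕ} {F : X → E m} {σ : Form d X 2}
    (h : ∀ x, LCM F σ x) :
    ∃ (b : ℝ) (N : Set X), 0 < b ∧ CNull (d := d) N ∧ ∀ x, x ∉ N →
      ∀ v w : TangentSpace (𝓡 d) x, |σ x ![v, w]| ≤ b * nm F x v * nm F x w := by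
  obtain ⟨ε, N, hε, hN, hP⟩ := glob_ae (d := d) (X := X)
    (fun ε y => ∀ v w : TangentSpace (𝓡 d) y, ε * |σ y ![v, w]| ≤ nm F y v * nm F y w)
    (fun ε ε' y _ hle hP v w => le_trans
      (mul_le_mul_of_nonneg_right hle (abs_nonneg _)) (hP v w))
    (fun x => by
      obtain ⟨O, N, b, t, hO, hxO, hN, ht1, ht2, ht3, ht4⟩ := h x
      refine ⟨1 / (|b| + 1), N, by positivity, hN, ?_⟩
      filter_upwards [hO.mem_nhds hxO] with y hy hyN v w
      have h1 : |σ y ![v, w]| ≤ b * nm F y v * nm F y w :=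
        le_of_tendsto (ht4 y hy hyN v w).abs (Eventually.of_forall fun n => ht3 n y hy v w)
      have n1 : 0 ≤ nm F y v := norm_nonneg _
      have n2 : 0 ≤ nm F y w := norm_nonneg _
      have h2 : b * nm F y v * nm F y w ≤ (|b| + 1) * (nm F y v * nm F y w) := by
        rw [mul_assoc]
        have : b ≤ |b| + 1 := (le_abs_self b).trans (by linarith)
        exact mul_le_mul_of_nonneg_right this (by positivity)
      rw [one_div, inv_mul_le_iff₀ (by positivity)]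
      exact h1.trans h2)
  refine ⟨1 / ε, N, by positivity, hN, fun x hx v w => ?_⟩
  have h1 := hP x hx v w
  rw [mul_assoc, one_div, ← div_eq_inv_mul, le_div_iff₀ hε]
  linarith

omit [IsManifold (𝓡 d) ∞ X] in
theorem smoothOff_univ (σ : Form d X 2) : SmoothOff σ univ := by
  intro U φ hU hφ h p hp
  exact absurd (mem_univ _) (h p hp)

omit [IsManifold (𝓡 d) ∞ X] in
theorem isDOff_univ (σ : Form d X 2) : IsDOff σ 0 univ := by
  intro U φ hU hφ h p hp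
  exact absurd (mem_univ _) (h p hp)

theorem RT_of [CompactSpace X] {m : ℕ} {F : X → E m} (hF : ContMDiff (𝓡 d) (𝓡 m) ∞ F)
    (hFi : ∀ x, Function.Injective (mfderiv (𝓡 d) (𝓡 m) F x)) {J : End d X} {σ : Form d X 2}
    (hlc : ∀ x, LCM F σ x) (hup : ∀ x, UP σ J x) : RT F J σ univ := by
  refine ⟨smoothOff_univ σ, isDOff_univ σ, hlc, lc_bdd hlc, ?_⟩
  obtain ⟨c, N, hc, hN, h⟩ := glob_ae (d := d) (X := X)
    (fun c y => ∀ v : TangentSpace (𝓡 d) y, c * nm F y v ^ 2 ≤ σ y ![v, J y v])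
    (fun c c' y _ hle hP v => le_trans (mul_le_mul_of_nonneg_right hle (sq_nonneg _)) (hP v))
    (fun x => (UP_iff hF hFi σ J x).1 (hup x))
  exact ⟨c, N, hc, hN, h⟩

/-- boundedness of smooth forms -/
theorem smooth_bd {m : ℕ} {F : X → E m} (hF : ContMDiff (𝓡 d) (𝓡 m) ∞ F)
    (hFi : ∀ x, Function.Injective (mfderiv (𝓡 d) (𝓡 m) F x)) {η : Form d X 2}
    (hη : IsSmooth η) (x : X) :
    ∃ b : ℝ, 0 < b ∧ ∀ᶠ y in 𝓝 x, ∀ v w : TangentSpace (𝓡 d) y,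
      |η y ![v, w]| ≤ b * nm F y v * nm F y w := by
  have h1 : ContinuousAt (pb (chartAt (E d) x).symm η) (chartAt (E d) x x) :=
    ((hη _ _ (chartAt (E d) x).open_target (contMDiffOn_chart_symm)).continuousOn).continuousAt
      ((chartAt (E d) x).open_target.mem_nhds (mem_chart_target (E d) x))
  obtain ⟨M, hM⟩ : ∃ M, M = ‖pb (chartAt (E d) x).symm η (chartAt (E d) x x)‖ + 1 := ⟨_, rfl⟩
  have hM0 : 0 < M := by rw [hM]; positivity
  have h2 : ∀ᶠ p in 𝓝 (chartAt (E d) x x), ‖pb (chartAt (E d) x).symm η p‖ < M :=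
    h1.norm.eventually_lt_const (by rw [hM]; exact lt_add_one _)
  obtain ⟨N, hN, hN1, hN2⟩ := near (Filter.inter_mem ((chartAt (E d) x).open_target.mem_nhds
    (mem_chart_target (E d) x)) h2)
  obtain ⟨c₁, C₁, hc₁, hC₁, hnm⟩ := Pool.Agent.Y44.SY.t_IMM d m X F hF hFi x N hN
    fun p hp => (hN2 hp).1
  refine ⟨M * c₁⁻¹ * c₁⁻¹, by positivity, ev_of_chart (d := d) ?_⟩
  filter_upwards [hN1] with p hp v w
  obtain ⟨v', rfl⟩ := A_surj x (hN2 hp).1 v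
  obtain ⟨w', rfl⟩ := A_surj x (hN2 hp).1 w
  rw [← pb_apply2]
  have h3 := le_norm2 (pb (chartAt (E d) x).symm η p) v' w'
  have h4 : ‖pb (chartAt (E d) x).symm η p‖ < M := (hN2 hp).2
  have h5 : c₁ * ‖v'‖ ≤ nm F ((chartAt (E d) x).symm p) (A x p v') := (hnm p hp v').1
  have h6 : c₁ * ‖w'‖ ≤ nm F ((chartAt (E d) x).symm p) (A x p w') := (hnm p hp w').1
  have h7 : ‖v'‖ ≤ c₁⁻¹ * nm F ((chartAt (E d) x).symm p) (A x p v') := by
    rw [inv_mul_eq_div, le_div_iff₀ hc₁, mul_comm]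
    exact h5
  have h8 : ‖w'‖ ≤ c₁⁻¹ * nm F ((chartAt (E d) x).symm p) (A x p w') := by
    rw [inv_mul_eq_div, le_div_iff₀ hc₁, mul_comm]
    exact h6
  have n1 : 0 ≤ nm F ((chartAt (E d) x).symm p) (A x p v') := norm_nonneg _
  have n2 : 0 ≤ nm F ((chartAt (E d) x).symm p) (A x p w') := norm_nonneg _
  calc _ ≤ ‖pb (chartAt (E d) x).symm η p‖ * ‖v'‖ * ‖w'‖ := h3
    _ ≤ M * (c₁⁻¹ * nm F ((chartAt (E d) x).symm p) (A x p v')) *
        (c₁⁻¹ * nm F ((chartAt (E d) x).symm p) (A x p w')) := by gcongr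
    _ = _ := by ring

/-- almost everywhere equal forms -/
theorem LCM.congr_ae {m : ℕ} {F : X → E m} {σ σ' : Form d X 2} {x : X} (h : LCM F σ x)
    {N' : Set X} (hN' : CNull (d := d) N') (hs : ∀ᶠ y in 𝓝 x, y ∉ N' → σ' y = σ y) :
    LCM F σ' x := by
  obtain ⟨O, N, b, t, hO, hxO, hN, ht1, ht2, ht3, ht4⟩ := h
  obtain ⟨O', hO', hO'o, hxO'⟩ := _root_.eventually_nhds_iff.1 hs
  have hsub : ∀ (U : Set (E d)) (φ : E d → X), (∀ p ∈ U, φ p ∉ (O ∩ O')ᶜ) →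
      ∀ p ∈ U, φ p ∉ Oᶜ := fun U φ h p hp hpO => h p hp fun h' => hpO h'.1
  refine ⟨O ∩ O', N ∪ N', b, t, hO.inter hO'o, ⟨hxO, hxO'⟩, hN.union hN',
    fun n U φ hU hφ hφO => ht1 n U φ hU hφ (hsub U φ hφO),
    fun n U φ hU hφ hφO => ht2 n U φ hU hφ (hsub U φ hφO),
    fun n y hy v w => ht3 n y hy.1 v w, fun y hy hyN v w => ?_⟩
  rw [hO' y hy.2 fun h => hyN (Or.inr h)]
  exact ht4 y hy.1 (fun h => hyN (Or.inl h)) v w

theorem smoothOff_add {τ η : Form d X 2} {K : Set X} (hτ : SmoothOff τ K) (hη : SmoothOff η K) :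
    SmoothOff (τ + η) K := by
  intro U φ hU hφ hφO
  rw [pb_add]
  exact (hτ U φ hU hφ hφO).add (hη U φ hU hφ hφO)

theorem isDOff_add {τ η : Form d X 2} {K : Set X} (hτ : SmoothOff τ K) (hη : SmoothOff η K)
    (hτ' : IsDOff τ 0 K) (hη' : IsDOff η 0 K) :
    IsDOff (τ + η) 0 K := by
  intro U φ hU hφ hφO p hp
  have h1 : DifferentiableAt ℝ (pb φ τ) p :=
    ((hτ U φ hU hφ hφO).contDiffAt (hU.mem_nhds hp)).differentiableAt (by simp)
  have h2 : DifferentiableAt ℝ (pb φ η) p :=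
    ((hη U φ hU hφ hφO).contDiffAt (hU.mem_nhds hp)).differentiableAt (by simp)
  rw [pb_add, extDeriv_add h1 h2, hτ' U φ hU hφ hφO p hp, hη' U φ hU hφ hφO p hp, pb_zero]
  simp

theorem smoothOff_smul {τ : Form d X 2} {K : Set X} (hτ : SmoothOff τ K) (c : ℝ) :
    SmoothOff (c • τ) K := by
  intro U φ hU hφ hφO
  rw [pb_smul]
  exact contDiffOn_const.smul (hτ U φ hU hφ hφO)

theorem isDOff_smul {τ : Form d X 2} {K : Set X} (hτ' : IsDOff τ 0 K) (c : ℝ) :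
    IsDOff (c • τ) 0 K := by
  intro U φ hU hφ hφO p hp
  rw [pb_smul, extDeriv_smul, hτ' U φ hU hφ hφO p hp, pb_zero]
  simp

/-- adding a smooth closed form -/
theorem LCM.add {m : ℕ} {F : X → E m} (hF : ContMDiff (𝓡 d) (𝓡 m) ∞ F)
    (hFi : ∀ x, Function.Injective (mfderiv (𝓡 d) (𝓡 m) F x)) {σ η : Form d X 2} {x : X}
    (h : LCM F σ x) (hη : IsSmooth η) (hηc : IsClosedForm η) : LCM F (σ + η) x := by
  obtain ⟨O, N, b, t, hO, hxO, hN, ht1, ht2, ht3, ht4⟩ := h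
  obtain ⟨b', hb', hs⟩ := smooth_bd hF hFi hη x
  obtain ⟨O', hO', hO'o, hxO'⟩ := _root_.eventually_nhds_iff.1 hs
  have hsub : ∀ (U : Set (E d)) (φ : E d → X), (∀ p ∈ U, φ p ∉ (O ∩ O')ᶜ) →
      ∀ p ∈ U, φ p ∉ Oᶜ := fun U φ h p hp hpO => h p hp fun h' => hpO h'.1
  have hs1 : ∀ n, SmoothOff (t n) (O ∩ O')ᶜ := fun n U φ hU hφ hφO =>
    ht1 n U φ hU hφ (hsub U φ hφO)
  have hs2 : ∀ n, IsDOff (t n) 0 (O ∩ O')ᶜ := fun n U φ hU hφ hφO =>
    ht2 n U φ hU hφ (hsub U φ hφO)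
  have hη1 : SmoothOff η (O ∩ O')ᶜ := fun U φ hU hφ _ => hη U φ hU hφ
  have hη2 : IsDOff η 0 (O ∩ O')ᶜ := fun U φ hU hφ _ => hηc U φ hU hφ
  refine ⟨O ∩ O', N, b + b', fun n => t n + η, hO.inter hO'o, ⟨hxO, hxO'⟩, hN,
    fun n => smoothOff_add (hs1 n) hη1, fun n => isDOff_add (hs1 n) hη1 (hs2 n) hη2,
    fun n y hy v w => ?_, fun y hy hyN v w => (ht4 y hy.1 hyN v w).add tendsto_const_nhds⟩
  have h1 := ht3 n y hy.1 v w
  have h2 := hO' y hy.2 v w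
  have h3 : (t n + η) y ![v, w] = t n y ![v, w] + η y ![v, w] := rfl
  rw [h3, add_mul, add_mul]
  exact (abs_add_le _ _).trans (add_le_add h1 h2)

theorem LCM.smul {m : ℕ} {F : X → E m} {σ : Form d X 2} {x : X}
    (h : LCM F σ x) (c : ℝ) : LCM F (c • σ) x := by
  obtain ⟨O, N, b, t, hO, hxO, hN, ht1, ht2, ht3, ht4⟩ := h
  refine ⟨O, N, |c| * b, fun n => c • t n, hO, hxO, hN, fun n => smoothOff_smul (ht1 n) c,
    fun n => isDOff_smul (ht2 n) c, fun n y hy v w => ?_,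
    fun y hy hyN v w => (ht4 y hy hyN v w).const_mul c⟩
  have h3 : (c • t n) y ![v, w] = c * t n y ![v, w] := rfl
  rw [h3, abs_mul, mul_assoc, mul_assoc, ← mul_assoc b]
  exact mul_le_mul_of_nonneg_left (ht3 n y hy v w) (abs_nonneg c)

theorem weak [CompactSpace X] [T2Space X] (hd : 1 ≤ d) {m : ℕ} {F : X → E m}
    (hF : ContMDiff (𝓡 d) (𝓡 m) ∞ F)
    (hFi : ∀ x, Function.Injective (mfderiv (𝓡 d) (𝓡 m) F x)) {J : End d X}
    (hJ : IsAlmostComplex J)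
    (hJc : ∀ x₀ : X, ContinuousOn (inChart J x₀) (chartAt (E d) x₀).target) {σ : Form d X 2}
    (hlc : ∀ x, LCM F σ x) {N : Set X} (hN : CNull (d := d) N)
    (hpos : ∀ x, x ∉ N → ∀ v : TangentSpace (𝓡 d) x, 0 ≤ σ x ![v, J x v])
    (hthin : ∀ z, ¬ UP σ J z → ThinAt2 0 0 J (connectedComponentIn {x | ¬ UP σ J x} z) z) :
    ∃ w : Form d X 2, IsSmooth w ∧ IsClosedForm w ∧ ∀ x, TamesAt w J x := by
  classical
  have hFc : IsClosed {x | ¬ UP σ J x} := (isOpen_UP hF hFi σ J).isClosed_compl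
  have hne : ∃ v : E d, v ≠ 0 := by
    have : Nontrivial (E d) := by
      haveI : Nonempty (Fin d) := ⟨⟨0, hd⟩⟩
      infer_instance
    exact exists_ne 0
  have hD2 : D2 (0 : Form d X 2) 0 J {x | ¬ UP σ J x} = {x | ¬ UP σ J x} := by
    apply Subset.antisymm
    · exact fun x hx => hx.1
    · intro x hx
      obtain ⟨v, hv⟩ := hne
      exact ⟨hx, v, hv, rfl, rfl⟩
  obtain ⟨α, η, hpair, hη⟩ := level2 Pool.Agent.Y484.SY.t_GEN Pool.Agent.Y108.SY.t_PERT2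
    Pool.Agent.Y925.SY.t_PLANAR hJ (σ := 0) (θ := 0) IsSmooth.zero IsSmooth.zero hFc (by
      rw [hD2]
      exact hthin)
  obtain ⟨hα, hηs, hαη, hηc⟩ := hpair.props Pool.Agent.Y484.SY.t_GEN
  have hloc : ∀ x : X, ∃ (ε : ℝ) (N' : Set X), 0 < ε ∧ CNull (d := d) N' ∧ ∀ᶠ y in 𝓝 x, y ∉ N' →
      ∀ s : ℝ, 0 < s → s ≤ ε → ∀ v : TangentSpace (𝓡 d) y,
        ε * s * nm F y v ^ 2 ≤ (σ + s • η) y ![v, J y v] := by
    intro x
    by_cases hx : UP σ J x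
    · obtain ⟨N₁, hN₁, h1⟩ := hx
      have hN' : CNull (d := d) (N ∪ N₁) := hN.union hN₁
      have h2 : UTAt σ J (N ∪ N₁) x := by
        obtain ⟨c, hc, h3⟩ := h1
        refine ⟨c, hc, ?_⟩
        filter_upwards [h3] with p hp hpN
        exact hp fun h => hpN (Or.inr h)
      obtain ⟨ε, hε, h3⟩ := pos_near Pool.Agent.Y44.SY.t_IMM Pool.Agent.Y44.SY.t_QB F hF hFi J hJ
        σ η (N ∪ N₁) hηs (fun y hy => hpos y fun h => hy (Or.inl h)) x (Or.inl h2)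
      refine ⟨ε, N ∪ N₁, hε, hN', ?_⟩
      filter_upwards [h3] with y hy hyN s hs hsε v
      exact hy s hs hsε hyN v
    · obtain ⟨ε, hε, h3⟩ := pos_near Pool.Agent.Y44.SY.t_IMM Pool.Agent.Y44.SY.t_QB F hF hFi J hJ
        σ η N hηs hpos x (Or.inr fun v hv => hη x hx v hv rfl rfl)
      refine ⟨ε, N, hε, hN, ?_⟩
      filter_upwards [h3] with y hy hyN s hs hsε v
      exact hy s hs hsε hyN v
  obtain ⟨ε, N', hε, hN', hP⟩ := glob_ae (d := d) (X := X)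
    (fun ε y => ∀ s : ℝ, 0 < s → s ≤ ε → ∀ v : TangentSpace (𝓡 d) y,
        ε * s * nm F y v ^ 2 ≤ (σ + s • η) y ![v, J y v])
    (fun ε ε' y _ hle hp s hs hsε v => by
      refine le_trans ?_ (hp s hs (hsε.trans hle) v)
      exact mul_le_mul_of_nonneg_right (mul_le_mul_of_nonneg_right hle hs.le) (sq_nonneg _))
    hloc
  have hηε : IsSmooth (ε • η) := hηs.smul ε
  have hηεc : IsClosedForm (ε • η) := (closed_smul ⟨hηs, hηc⟩ ε).2
  have hlc' : ∀ x, LCM F (σ + ε • η) x := fun x => (hlc x).add hF hFi hηε hηεc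
  refine core hF hFi hJc (σ := σ + ε • η) ⟨smoothOff_univ _, isDOff_univ _, hlc', lc_bdd hlc',
    ε * ε, N', by positivity, hN', fun x hx v => hP x hx ε hε le_rfl v⟩

end

end Pool.Agent.Helper76K9.RF
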