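import Pool.Agent.Y515.SY.RG
import Pool.Agent.Y932.SY.Ker
import Pool.Agent.Y394.SY.Sm

/-!
Rough closed two-forms in Euclidean space: local approximation by smooth closed forms.
-/

set_option autoImplicit false

open Set Filter Topology MeasureTheory Metric
open scoped Manifold ContDiff

noncomputable section

namespace Pool.Agent.Helper76K9.RF

open Pool.Agent.Y501.SY
open Pool.Agent.Y515.SY

variable {d : ℕ}

/-- smooth closed forms on a ball, uniformly bounded, which converge to `s` almost everywhere -/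
structure Apx (s : E d → Al d 2) (p : E d) (r B : ℝ) (t : ℕ → E d → Al d 2) : Prop where
  smooth : ∀ n, ContDiffOn ℝ ∞ (t n) (ball p r)
  closed : ∀ n, ∀ q ∈ ball p r, extDeriv (t n) q = 0
  bdd : ∀ n, ∀ q ∈ ball p r, ‖t n q‖ ≤ B
  lim : ∀ᵐ q, q ∈ ball p r → Tendsto (fun n => t n q) atTop (𝓝 (s q))

/-- rough closed forms near `p` -/
def LCE (s : E d → Al d 2) (p : E d) : Prop :=
  ∃ (r B : ℝ) (t : ℕ → E d → Al d 2), 0 < r ∧ Apx s p r B t

theorem Apx.sub {s : E d → Al d 2} {p : E d} {r B : ℝ} {t : ℕ → E d → Al d 2}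
    (h : Apx s p r B t) {q : E d} {r' : ℝ} (hq : ball q r' ⊆ ball p r) : Apx s q r' B t where
  smooth := fun n => (h.smooth n).mono hq
  closed := fun n x hx => h.closed n x (hq hx)
  bdd := fun n x hx => h.bdd n x (hq hx)
  lim := by
    filter_upwards [h.lim] with x hx hxq using hx (hq hxq)

theorem Apx.congr {s s' : E d → Al d 2} {p : E d} {r B : ℝ} {t : ℕ → E d → Al d 2}
    (h : Apx s p r B t) (hs : ∀ᵐ q, q ∈ ball p r → s' q = s q) : Apx s' p r B t where
  smooth := h.smooth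
  closed := h.closed
  bdd := h.bdd
  lim := by
    filter_upwards [h.lim, hs] with x hx hx' hxq
    rw [hx' hxq]
    exact hx hxq

theorem Apx.B_nonneg {s : E d → Al d 2} {p : E d} {r B : ℝ} {t : ℕ → E d → Al d 2}
    (h : Apx s p r B t) (hr : 0 < r) : 0 ≤ B :=
  (norm_nonneg _).trans (h.bdd 0 p (mem_ball_self hr))

theorem Apx.lim_bd {s : E d → Al d 2} {p : E d} {r B : ℝ} {t : ℕ → E d → Al d 2}
    (h : Apx s p r B t) : ∀ᵐ q, q ∈ ball p r → ‖s q‖ ≤ B := by
  filter_upwards [h.lim] with x hx hxq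
  exact le_of_tendsto (hx hxq).norm (Eventually.of_forall fun n => h.bdd n x hxq)

theorem Apx.meas {s : E d → Al d 2} {p : E d} {r B : ℝ} {t : ℕ → E d → Al d 2}
    (h : Apx s p r B t) : AEStronglyMeasurable s (volume.restrict (ball p r)) := by
  refine aestronglyMeasurable_of_tendsto_ae atTop
    (fun n => (h.smooth n).continuousOn.aestronglyMeasurable measurableSet_ball) ?_
  exact (ae_restrict_iff' measurableSet_ball).2 h.lim

/-- a uniform radius -/
theorem LCE_unif {s : E d → Al d 2} {K : Set (E d)} (hK : IsCompact K)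
    (h : ∀ p ∈ K, LCE s p) :
    ∃ r : ℝ, 0 < r ∧ ∀ p ∈ K, ∃ (B : ℝ) (t : ℕ → E d → Al d 2), Apx s p r B t := by
  choose! r B t hr ht using h
  obtain ⟨δ, hδ, h1⟩ := lebesgue_number_lemma_of_metric (ι := K) (c := fun p => ball (p : E d) (r p))
    hK (fun p => isOpen_ball)
    (fun p hp => mem_iUnion.2 ⟨⟨p, hp⟩, mem_ball_self (hr p hp)⟩)
  refine ⟨δ, hδ, fun p hp => ?_⟩
  obtain ⟨i, hi⟩ := h1 p hp
  exact ⟨B i, t i, (ht i i.2).sub hi⟩

theorem LCE_meas {s : E d → Al d 2} {K : Set (E d)} (hK : IsCompact K)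
    (h : ∀ p ∈ K, LCE s p) : AEStronglyMeasurable s (volume.restrict K) := by
  choose! r B t hr ht using h
  obtain ⟨T, hTK, hT⟩ := hK.elim_nhds_subcover (fun p => ball p (r p)) fun p hp =>
    ball_mem_nhds p (hr p hp)
  have h1 : AEStronglyMeasurable s (volume.restrict (⋃ i : T, ball (i : E d) (r i))) := by
    rw [aestronglyMeasurable_iUnion_iff]
    exact fun i => (ht i (hTK i i.2)).meas
  refine h1.mono_measure (Measure.restrict_mono ?_ le_rfl)
  intro x hx
  obtain ⟨i, hi, hxi⟩ := mem_iUnion₂.1 (hT hx)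
  exact mem_iUnion.2 ⟨⟨i, hi⟩, hxi⟩

/-- a bounded strongly measurable representative -/
theorem rep {s : E d → Al d 2} {K : Set (E d)} (hK : IsCompact K)
    (h : ∀ p ∈ K, LCE s p) {b : ℝ} (hb0 : 0 ≤ b) (hb : ∀ᵐ q, q ∈ K → ‖s q‖ ≤ b) :
    ∃ Φ : E d → Al d 2, StronglyMeasurable Φ ∧ (∀ q, ‖Φ q‖ ≤ b) ∧ ∀ᵐ q, q ∈ K → Φ q = s q := by
  classical
  obtain ⟨g, hg, hsg⟩ := LCE_meas hK h
  have hset : MeasurableSet {q | ‖g q‖ ≤ b} := hg.norm.measurable measurableSet_Iic
  refine ⟨{q | ‖g q‖ ≤ b}.indicator g, hg.indicator hset, ?_, ?_⟩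
  · intro q
    by_cases hq : q ∈ {q | ‖g q‖ ≤ b}
    · rw [indicator_of_mem hq]
      exact hq
    · rw [indicator_of_notMem hq, norm_zero]
      exact hb0
  · have h1 : ∀ᵐ q, q ∈ K → s q = g q :=
      (ae_restrict_iff' hK.isClosed.measurableSet).1 hsg
    filter_upwards [h1, hb] with q h2 h3 hqK
    have hq : q ∈ {q | ‖g q‖ ≤ b} := by
      change ‖g q‖ ≤ b
      rw [← h2 hqK]
      exact h3 hqK
    rw [indicator_of_mem hq, h2 hqK]

theorem cap_empty (Q : Set (E d)) : Cap ((∅ : Set (E d)) ∩ Q) := by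
  rw [empty_inter]
  intro O _ _ δ hδ
  refine ⟨fun _ => 0, contDiff_const, fun _ => le_rfl, fun _ => zero_le_one, ?_, fun _ _ => rfl,
    HasCompactSupport.zero, ?_, ?_⟩
  · rw [nhdsSet_empty]
    exact eventually_bot
  · have : Function.support (fun _ : E d => (0 : ℝ)) = ∅ := by
      ext x
      simp
    rw [this, measure_empty]
    exact ENNReal.ofReal_pos.2 hδ
  · simp only [fderiv_fun_const, Pi.zero_apply, norm_zero, integral_zero]
    exact hδ

/-- The averages only depend on the form up to a null set. -/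
theorem JJ_congr {ρ χ : E d → ℝ} {ε : ℝ} (hρ : Moll ε ρ) {Φ Ψ : E d → Al d 2} {Q : Set (E d)}
    (h : ∀ᵐ q, q ∈ Q → Φ q = Ψ q) {p : E d} (hp : χ p ≠ 0)
    (hball : ∀ y, ‖y‖ ≤ ε → p + χ p • y ∈ Q) : JJ ρ χ Φ p = JJ ρ χ Ψ p := by
  unfold JJ
  refine integral_congr_ae ?_
  filter_upwards [aff_null (measure_eq_zero_iff_ae_notMem.2 (by
    filter_upwards [h] with q hq (hn : q ∈ {q | ¬ (q ∈ Q → Φ q = Ψ q)})
    exact hn hq)) p hp] with y hy
  by_cases hyε : ε ≤ ‖y‖
  · rw [hρ.supp y hyε, zero_smul, zero_smul]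
  · rw [not_le] at hyε
    have h1 : Φ (p + χ p • y) = Ψ (p + χ p • y) := by
      by_contra hne
      exact hy fun h2 => hne (h2 (hball y hyε.le))
    rw [h1]

/-- equality of the averages of two forms which are equal at all the points of the ball -/
theorem JJ_congr' {ρ χ : E d → ℝ} {ε : ℝ} (hρ : Moll ε ρ) {Φ Ψ : E d → Al d 2} {Q : Set (E d)}
    (h : ∀ q ∈ Q, Φ q = Ψ q) {p : E d}
    (hball : ∀ y, ‖y‖ ≤ ε → p + χ p • y ∈ Q) : JJ ρ χ Φ p = JJ ρ χ Ψ p := by
  unfold JJ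
  refine integral_congr_ae (Eventually.of_forall fun y => ?_)
  dsimp only
  by_cases hyε : ε ≤ ‖y‖
  · rw [hρ.supp y hyε, zero_smul, zero_smul]
  · rw [not_le] at hyε
    rw [h _ (hball y hyε.le)]

end Pool.Agent.Helper76K9.RF
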