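import Pool.Agent.Helper76K9.RF.Loc

/-!
Averages of rough closed forms in Euclidean space.
-/

set_option autoImplicit false

open Set Filter Topology MeasureTheory Metric
open scoped Manifold ContDiff

noncomputable section

namespace Pool.Agent.Helper76K9.RF

open Pool.Agent.Y501.SY
open Pool.Agent.Y515.SY

variable {d : ℕ}

/-- the averages of a smooth closed form are smooth and closed -/
theorem JJ_sc (hK : S_KER) (hSM : S_SM) {ρ χ : E d → ℝ} {ε : ℝ} (hε : 0 ≤ ε)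
    (hρ : Moll ε ρ) (hχ : ContDiff ℝ ∞ χ) (hχ0 : ∀ p, 0 ≤ χ p) {O : Set (E d)} (hO : IsOpen O)
    {t : E d → Al d 2} (ht : ContDiffOn ℝ ∞ t O) (hcl : ∀ p ∈ O, extDeriv t p = 0)
    {b : ℝ} (hb0 : 0 ≤ b) (hb : ∀ p ∈ O, ‖t p‖ ≤ b) {q : E d}
    (hq : ∀ y, ‖y‖ ≤ ε → q + χ q • y ∈ O) :
    ContDiffAt ℝ ∞ (JJ ρ χ (O.indicator t)) q ∧ extDeriv (JJ ρ χ (O.indicator t)) q = 0 := by
  have h0 : O \ ∅ = O := sdiff_empty
  have hO' : IsOpen (O \ ∅) := by rw [h0]; exact hO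
  have ht' : ContDiffOn ℝ ∞ t (O \ ∅) := by rw [h0]; exact ht
  have hcl' : ∀ p ∈ O \ ∅, extDeriv t p = 0 := by rw [h0]; exact hcl
  have hb' : ∀ p ∈ O \ ∅, ‖t p‖ ≤ b := by rw [h0]; exact hb
  rcases (hχ0 q).eq_or_lt with h | h
  · have hqO : q ∈ O \ ∅ := by
      rw [h0]
      have := hq 0 (by rw [norm_zero]; exact hε)
      rwa [smul_zero, add_zero] at this
    have h1 := JJ_off hSM hρ hχ hO' ht' hcl' hqO h.symm
    rwa [h0] at h1
  · have h1 := JJ_closed hK hSM hε hρ hχ hO' ht' hcl' hb0 hb' (Q := O) Subset.rfl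
      (cap_empty O) h hq
    rw [h0] at h1
    refine ⟨?_, h1⟩
    have h2 := JJ_smooth hK hχ h hρ.smooth (moll_cs hρ) (ind_sm hO' ht') (ind_bd hb0 hb')
    rwa [h0] at h2

theorem ind_sm' {O : Set (E d)} (hO : IsOpen O) {t : E d → Al d 2} (ht : ContDiffOn ℝ ∞ t O) :
    StronglyMeasurable (O.indicator t) := by
  have h0 : O \ ∅ = O := sdiff_empty
  have h2 := ind_sm (s := t) (V := O) (k := ∅) (by rw [h0]; exact hO) (by rw [h0]; exact ht)
  rwa [h0] at h2

theorem ind_bd' {O : Set (E d)} {t : E d → Al d 2} {b : ℝ} (hb0 : 0 ≤ b)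
    (hb : ∀ p ∈ O, ‖t p‖ ≤ b) (q : E d) : ‖O.indicator t q‖ ≤ b := by
  by_cases hq : q ∈ O
  · rw [indicator_of_mem hq]; exact hb q hq
  · rw [indicator_of_notMem hq, norm_zero]; exact hb0

/-- the averages of a rough closed form are closed -/
theorem JJ_cl (hK : S_KER) (hSM : S_SM) {ρ χ : E d → ℝ} {ε : ℝ} (hε : 0 ≤ ε)
    (hρ : Moll ε ρ) (hχ : ContDiff ℝ ∞ χ) (hχ0 : ∀ p, 0 ≤ χ p) {s : E d → Al d 2} {p : E d}
    {r B : ℝ} {t : ℕ → E d → Al d 2} (hr : 0 < r) (h : Apx s p r B t)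
    (hmove : ∀ q y : E d, ‖y‖ ≤ ε → ‖χ q • y‖ ≤ r / 2) {Φ : E d → Al d 2}
    (hΦ : StronglyMeasurable Φ) {b : ℝ} (hb : ∀ q, ‖Φ q‖ ≤ b)
    (hs : ∀ᵐ q, q ∈ ball p r → Φ q = s q) (hp : 0 < χ p) : extDeriv (JJ ρ χ Φ) p = 0 := by
  have hB := h.B_nonneg hr
  have hb0 : 0 ≤ b := (norm_nonneg _).trans (hb p)
  have hρc := moll_cs hρ
  have hin : ∀ q ∈ ball p (r / 2), ∀ y : E d, ‖y‖ ≤ ε → q + χ q • y ∈ ball p r := by
    intro q hq y hy
    rw [mem_ball, dist_eq_norm] at hq ⊢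
    have h1 := norm_add_le (q - p) (χ q • y)
    have h2 := hmove q y hy
    have h3 : q + χ q • y - p = (q - p) + χ q • y := by abel
    rw [h3]
    linarith
  have hpb : p ∈ ball p (r / 2) := mem_ball_self (by linarith)
  obtain ⟨T, hT⟩ : ∃ T : ℕ → E d → Al d 2, T = fun n => (ball p r).indicator (t n) := ⟨_, rfl⟩
  have hTm : ∀ n, StronglyMeasurable (T n) := fun n => by
    rw [hT]; exact ind_sm' isOpen_ball (h.smooth n)
  have hTb : ∀ n q, ‖T n q‖ ≤ B := fun n q => by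
    rw [hT]; exact ind_bd' hB (h.bdd n) q
  obtain ⟨Ψ, hΨ⟩ : ∃ Ψ : ℕ → E d → Al d 2,
      Ψ = fun n q => (ball p r).indicator Φ q - T n q := ⟨_, rfl⟩
  have hIm : StronglyMeasurable ((ball p r).indicator Φ) := hΦ.indicator measurableSet_ball
  have hΨm : ∀ n, StronglyMeasurable (Ψ n) := fun n => by
    rw [hΨ]; exact hIm.sub (hTm n)
  have hΨ0 : ∀ n q, q ∉ ball p r → Ψ n q = 0 := by
    intro n q hq
    rw [hΨ]
    simp only [hT, indicator_of_notMem hq, sub_zero]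
  have hΨb : ∀ n q, ‖Ψ n q‖ ≤ (ball p r).indicator (fun _ => b + B) q := by
    intro n q
    by_cases hq : q ∈ ball p r
    · rw [indicator_of_mem hq, hΨ]
      refine (norm_sub_le _ _).trans (add_le_add ?_ (hTb n q))
      rw [indicator_of_mem hq]
      exact hb q
    · rw [hΨ0 n q hq, norm_zero, indicator_of_notMem hq]
  have hΨb' : ∀ n q, ‖Ψ n q‖ ≤ b + B := by
    intro n q
    refine (hΨb n q).trans ?_
    by_cases hq : q ∈ ball p r
    · rw [indicator_of_mem hq]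
    · rw [indicator_of_notMem hq]; positivity
  have hbi : Integrable ((ball p r).indicator (fun _ => b + B) : E d → ℝ) := by
    rw [integrable_indicator_iff measurableSet_ball]
    exact integrableOn_const measure_ball_lt_top.ne
  have hΨi : ∀ n, Integrable (Ψ n) := fun n =>
    hbi.mono' (hΨm n).aestronglyMeasurable (Eventually.of_forall (hΨb n))
  have hlim : Tendsto (fun n => ∫ q, ‖Ψ n q‖) atTop (𝓝 0) := by
    have h1 := tendsto_integral_of_dominated_convergence (F := fun n q => ‖Ψ n q‖)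
      (f := fun _ : E d => (0 : ℝ)) (μ := volume) ((ball p r).indicator (fun _ => b + B))
      (fun n => (hΨm n).norm.aestronglyMeasurable) hbi
      (fun n => Eventually.of_forall fun q => by rw [norm_norm]; exact hΨb n q) (by
        filter_upwards [h.lim, hs] with q h1 h2
        by_cases hq : q ∈ ball p r
        · have h3 : (fun n => ‖Ψ n q‖) = fun n => ‖s q - t n q‖ := by
            funext n
            rw [hΨ]
            simp only [hT, indicator_of_mem hq, h2 hq]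
          rw [h3]
          have h4 := ((tendsto_const_nhds (x := s q)).sub (h1 hq)).norm
          rwa [sub_self, norm_zero] at h4
        · have h3 : (fun n => ‖Ψ n q‖) = fun _ => 0 := by
            funext n
            rw [hΨ0 n q hq, norm_zero]
          rw [h3]
          exact tendsto_const_nhds)
    rwa [integral_zero] at h1
  apply ContinuousAlternatingMap.ext
  intro u
  change extDeriv (JJ ρ χ Φ) p u = 0
  choose Ci hCi0 hCi using fun i : Fin 3 =>
    JJ_fd hK hχ hp hρ.smooth hρc (i.removeNth u 0) (i.removeNth u 1)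
  have key : ∀ n, |extDeriv (JJ ρ χ Φ) p u| ≤ (∑ i, Ci i * ‖u i‖) * ∫ q, ‖Ψ n q‖ := by
    intro n
    have hd1 : DifferentiableAt ℝ (JJ ρ χ (T n)) p :=
      (JJ_smooth hK hχ hp hρ.smooth hρc (hTm n) (hTb n)).differentiableAt (by simp)
    have hd2 : DifferentiableAt ℝ (JJ ρ χ (Ψ n)) p :=
      (JJ_smooth hK hχ hp hρ.smooth hρc (hΨm n) (hΨb' n)).differentiableAt (by simp)
    have hev : JJ ρ χ Φ =ᶠ[𝓝 p] JJ ρ χ (T n) + JJ ρ χ (Ψ n) := by
      filter_upwards [ball_mem_nhds p (half_pos hr)] with q hq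
      rw [Pi.add_apply, ← JJ_add hρ.smooth.continuous hρc (hTm n) (hTb n) (hΨm n) (hΨb' n)]
      refine JJ_congr' hρ (Q := ball p r) (fun z hz => ?_) (hin q hq)
      simp only [hΨ, indicator_of_mem hz, add_sub_cancel]
    rw [hev.extDeriv_eq, extDeriv_add hd1 hd2]
    have h0 : extDeriv (JJ ρ χ (T n)) p = 0 := by
      rw [hT]
      exact (JJ_sc hK hSM hε hρ hχ hχ0 isOpen_ball (h.smooth n) (h.closed n) hB (h.bdd n)
        (hin p hpb)).2
    rw [h0, zero_add, extDeriv_apply hd2, Finset.sum_mul]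
    refine (Finset.abs_sum_le_sum_abs _ _).trans (Finset.sum_le_sum fun i _ => ?_)
    have h1 : |(-1 : ℤ) ^ i.val • fderiv ℝ (fun x => JJ ρ χ (Ψ n) x (i.removeNth u)) p (u i)| =
        |fderiv ℝ (fun x => JJ ρ χ (Ψ n) x (i.removeNth u)) p (u i)| := by
      rcases neg_one_pow_eq_or ℤ i.val with h | h <;> rw [h] <;> simp
    have h2 : |fderiv ℝ (fun x => JJ ρ χ (Ψ n) x (i.removeNth u)) p (u i)| ≤
        Ci i * ‖u i‖ * ∫ q, ‖Ψ n q‖ := by
      have h3 := (fderiv ℝ (fun x => JJ ρ χ (Ψ n) x (i.removeNth u)) p).le_opNorm (u i)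
      have h4 := hCi i (Ψ n) (b + B) (hΨm n) (hΨb' n) (hΨi n)
      rw [← pair_eta (i.removeNth u)] at h4
      rw [Real.norm_eq_abs] at h3
      refine h3.trans ?_
      calc _ ≤ Ci i * (∫ q, ‖Ψ n q‖) * ‖u i‖ :=
            mul_le_mul_of_nonneg_right h4 (norm_nonneg _)
        _ = _ := by ring
    refine le_trans (le_of_eq ?_) h2
    convert h1 using 2
  have h5 : Tendsto (fun n => (∑ i, Ci i * ‖u i‖) * ∫ q, ‖Ψ n q‖) atTop (𝓝 0) := by
    have := hlim.const_mul (∑ i, Ci i * ‖u i‖)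
    rwa [mul_zero] at this
  have h6 := ge_of_tendsto h5 (Eventually.of_forall key)
  exact abs_eq_zero.1 (le_antisymm h6 (abs_nonneg _))

/-- convergence of the averages -/
theorem JJ_lim {ρ χ : E d → ℝ} {ε : ℝ} (hρ : Moll ε ρ) {s : E d → Al d 2} {p : E d}
    {r B : ℝ} {t : ℕ → E d → Al d 2} (hr : 0 < r) (h : Apx s p r B t) {q : E d} (hq : χ q ≠ 0)
    (hball : ∀ y, ‖y‖ ≤ ε → q + χ q • y ∈ ball p r) :
    Tendsto (fun n => JJ ρ χ ((ball p r).indicator (t n)) q) atTop (𝓝 (JJ ρ χ s q)) := by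
  have hB := h.B_nonneg hr
  have hρc := moll_cs hρ
  have hc : Continuous (fun y : E d => ρ y * (B * (1 + ‖fderiv ℝ χ q‖ * ‖y‖) ^ 2)) :=
    hρ.smooth.continuous.mul (by fun_prop)
  have hbi : Integrable (fun y : E d => ρ y * (B * (1 + ‖fderiv ℝ χ q‖ * ‖y‖) ^ 2)) :=
    hc.integrable_of_hasCompactSupport hρc.mul_right
  unfold JJ
  refine tendsto_integral_of_dominated_convergence
    (fun y : E d => ρ y * (B * (1 + ‖fderiv ℝ χ q‖ * ‖y‖) ^ 2)) (fun n => ?_) hbi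
    (fun n => Eventually.of_forall fun y => ?_) ?_
  · exact (JJ_int hρ.smooth.continuous hρc (ind_sm' isOpen_ball (h.smooth n))
      (ind_bd' hB (h.bdd n)) q).aestronglyMeasurable
  · rw [norm_smul, Real.norm_of_nonneg (hρ.nonneg y)]
    refine mul_le_mul_of_nonneg_left ?_ (hρ.nonneg y)
    refine (comp_norm _ _).trans ?_
    exact mul_le_mul (ind_bd' hB (h.bdd n) _) (pow_le_pow_left₀ (norm_nonneg _) (LL_norm _ _) 2)
      (by positivity) hB
  · filter_upwards [aff_null (measure_eq_zero_iff_ae_notMem.2 (by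
      filter_upwards [h.lim] with z hz
        (hn : z ∈ {z | ¬ (z ∈ ball p r → Tendsto (fun n => t n z) atTop (𝓝 (s z)))})
      exact hn hz)) q hq] with y hy
    by_cases hyε : ε ≤ ‖y‖
    · simp only [hρ.supp y hyε, zero_smul]
      exact tendsto_const_nhds
    · rw [not_le] at hyε
      have hm := hball y hyε.le
      have h1 : Tendsto (fun n => t n (q + χ q • y)) atTop (𝓝 (s (q + χ q • y))) := by
        by_contra hne
        exact hy fun h2 => hne (h2 hm)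
      have h2 : Tendsto (fun n => (ball p r).indicator (t n) (q + χ q • y)) atTop
          (𝓝 (s (q + χ q • y))) := by
        simp only [indicator_of_mem hm]
        exact h1
      have h3 : Continuous (fun η : Al d 2 =>
          η.compContinuousLinearMap (LL (fderiv ℝ χ q) y)) :=
        comp_cont.comp (continuous_id.prodMk continuous_const)
      exact ((h3.tendsto _).comp h2).const_smul (ρ y)

/-- the lower bound of the averages -/
theorem JJ_pos {ρ χ : E d → ℝ} {ε : ℝ} (hρ : Moll ε ρ) {Q : Set (E d)} {Φ : E d → Al d 2}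
    {Js : E d → (E d →L[ℝ] E d)} (hf : StronglyMeasurable Φ)
    {b c δ₁ D S : ℝ} (hb : ∀ q, ‖Φ q‖ ≤ b)
    (hpos : ∀ᵐ q, q ∈ Q → ∀ v : E d, c * ‖v‖ ^ 2 ≤ Φ q ![v, Js q v]) {p : E d}
    (hp : χ p ≠ 0) (hball : ∀ y, ‖y‖ ≤ ε → p + χ p • y ∈ Q)
    (hJ : ∀ y, ‖y‖ ≤ ε → ‖Js p - Js (p + χ p • y)‖ ≤ δ₁) (hS : ‖Js p‖ ≤ S)
    (hD : ‖fderiv ℝ χ p‖ ≤ D) (v : E d) :
    (c - (b * δ₁ + 2 * b * D * ε * S)) * ‖v‖ ^ 2 ≤ JJ ρ χ Φ p ![v, Js p v] := by
  have hb0 : 0 ≤ b := (norm_nonneg _).trans (hb p)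
  have hD0 : 0 ≤ D := (norm_nonneg _).trans hD
  have hS0 : 0 ≤ S := (norm_nonneg _).trans hS
  have hρc := moll_cs hρ
  rw [JJ_apply hρ.smooth.continuous hρc hf hb]
  have h1 : ∫ y, ρ y * ((c - (b * δ₁ + 2 * b * D * ε * S)) * ‖v‖ ^ 2) =
      (c - (b * δ₁ + 2 * b * D * ε * S)) * ‖v‖ ^ 2 := by
    rw [integral_mul_const, hρ.int, one_mul]
  rw [← h1]
  refine integral_mono_ae ((moll_int hρ).mul_const _)
    (JJ_apply_int hρ.smooth.continuous hρc hf hb p v (Js p v)) ?_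
  filter_upwards [aff_null (measure_eq_zero_iff_ae_notMem.2 (by
    filter_upwards [hpos] with z hz
      (hn : z ∈ {z | ¬ (z ∈ Q → ∀ v : E d, c * ‖v‖ ^ 2 ≤ Φ z ![v, Js z v])})
    exact hn hz)) p hp] with y hy
  by_cases hyε : ε ≤ ‖y‖
  · rw [hρ.supp y hyε, zero_mul, zero_mul]
  rw [not_le] at hyε
  refine mul_le_mul_of_nonneg_left ?_ (hρ.nonneg y)
  set q : E d := p + χ p • y with hq
  have hqQ : q ∈ Q := hball y hyε.le
  have hposq : ∀ v : E d, c * ‖v‖ ^ 2 ≤ Φ q ![v, Js q v] := by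
    by_contra hne
    exact hy fun h2 => hne (h2 hqQ)
  rw [expand2]
  set w : E d := Js p v with hw
  have hwn : ‖w‖ ≤ S * ‖v‖ :=
    ((Js p).le_opNorm v).trans (mul_le_mul_of_nonneg_right hS (norm_nonneg _))
  have hsq : ‖Φ q‖ ≤ b := hb q
  have hv0 : 0 ≤ ‖v‖ := norm_nonneg v
  -- the first term
  have t1 : Φ q ![v, w] = Φ q ![v, Js q v] + Φ q ![v, w - Js q v] := by
    rw [← lR_apply, ← lR_apply, ← lR_apply, ← map_add]
    congr 1
    abel
  have t2 := hposq v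
  have t3 : |Φ q ![v, w - Js q v]| ≤ b * δ₁ * ‖v‖ ^ 2 := by
    have h2 : ‖w - Js q v‖ ≤ δ₁ * ‖v‖ := by
      have h3 := (Js p - Js q).le_opNorm v
      rw [_root_.sub_apply] at h3
      exact h3.trans (mul_le_mul_of_nonneg_right (hJ y hyε.le) hv0)
    refine (two_bound _ _ _).trans ?_
    calc ‖Φ q‖ * (‖v‖ * ‖w - Js q v‖) ≤ b * (‖v‖ * (δ₁ * ‖v‖)) :=
          mul_le_mul hsq (mul_le_mul_of_nonneg_left h2 hv0) (by positivity) hb0
      _ = _ := by ring
  -- the error terms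
  have hdv : |fderiv ℝ χ p v| ≤ D * ‖v‖ := by
    have h3 := (fderiv ℝ χ p).le_opNorm v
    rw [Real.norm_eq_abs] at h3
    exact h3.trans (mul_le_mul_of_nonneg_right hD hv0)
  have hdw : |fderiv ℝ χ p w| ≤ D * (S * ‖v‖) := by
    have h3 := (fderiv ℝ χ p).le_opNorm w
    rw [Real.norm_eq_abs] at h3
    exact h3.trans (mul_le_mul hD hwn (norm_nonneg _) hD0)
  have t4 : |fderiv ℝ χ p w * Φ q ![v, y]| ≤ b * D * ε * S * ‖v‖ ^ 2 := by
    rw [abs_mul]
    have h4 : |Φ q ![v, y]| ≤ b * (‖v‖ * ε) :=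
      (two_bound _ _ _).trans (mul_le_mul hsq (mul_le_mul_of_nonneg_left hyε.le hv0)
        (by positivity) hb0)
    calc _ ≤ D * (S * ‖v‖) * (b * (‖v‖ * ε)) :=
          mul_le_mul hdw h4 (abs_nonneg _) (by positivity)
      _ = _ := by ring
  have t5 : |fderiv ℝ χ p v * Φ q ![y, w]| ≤ b * D * ε * S * ‖v‖ ^ 2 := by
    rw [abs_mul]
    have hε0 : 0 ≤ ε := (norm_nonneg y).trans hyε.le
    have h4 : |Φ q ![y, w]| ≤ b * (ε * (S * ‖v‖)) :=
      (two_bound _ _ _).trans (mul_le_mul hsq (mul_le_mul hyε.le hwn (norm_nonneg _) hε0)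
        (by positivity) hb0)
    calc _ ≤ D * ‖v‖ * (b * (ε * (S * ‖v‖))) :=
          mul_le_mul hdv h4 (abs_nonneg _) (by positivity)
      _ = _ := by ring
  have a3 := (abs_le.1 t3).1
  have a4 := (abs_le.1 t4).1
  have a5 := (abs_le.1 t5).1
  rw [t1]
  nlinarith

end Pool.Agent.Helper76K9.RF
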