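import Pool.Agent.Helper76K9.RF.Loc2

/-!
Regularization of rough closed forms in Euclidean space near the support of a function.
-/

set_option autoImplicit false

open Set Filter Topology MeasureTheory Metric
open scoped Manifold ContDiff

noncomputable section

namespace Pool.Agent.Helper76K9.RF

open Pool.Agent.Y501.SY
open Pool.Agent.Y515.SY

variable {d : ℕ}

theorem LCE.congr {s s' : E d → Al d 2} {p : E d} (h : LCE s p) (hs : s' =ᶠ[𝓝 p] s) :
    LCE s' p := by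
  obtain ⟨r, B, t, hr, ht⟩ := h
  obtain ⟨r', hr', h1⟩ := Metric.eventually_nhds_iff_ball.1 hs
  have hsub : ball p (min r r') ⊆ ball p r := ball_subset_ball (min_le_left _ _)
  refine ⟨min r r', B, t, lt_min hr hr', (ht.sub hsub).congr (Eventually.of_forall ?_)⟩
  intro q hq
  exact h1 q (ball_subset_ball (min_le_right _ _) hq)

theorem LCE_of_smooth {s : E d → Al d 2} {O : Set (E d)} (hO : IsOpen O) {p : E d} (hp : p ∈ O)
    (hs : ContDiffOn ℝ ∞ s O) (hcl : ∀ q ∈ O, extDeriv s q = 0) : LCE s p := by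
  obtain ⟨r, hr, hr'⟩ := Metric.nhds_basis_closedBall.mem_iff.1 (hO.mem_nhds hp)
  obtain ⟨B, hB⟩ := (isCompact_closedBall p r).exists_bound_of_continuousOn
    (hs.continuousOn.mono hr')
  have hsub : ball p r ⊆ O := ball_subset_closedBall.trans hr'
  exact ⟨r, B, fun _ => s, hr, ⟨fun _ => hs.mono hsub, fun _ q hq => hcl q (hsub hq),
    fun _ q hq => hB q (ball_subset_closedBall hq),
    Eventually.of_forall fun q _ => tendsto_const_nhds⟩⟩

theorem regE (hK : S_KER) (hSM : S_SM) {V k : Set (E d)} {χ : E d → ℝ} {s : E d → Al d 2}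
    {Js : E d → (E d →L[ℝ] E d)} {b c : ℝ} (hc : 0 < c) (hb0 : 0 ≤ b)
    (hV : IsOpen V) (hVk : IsOpen (V \ k))
    (hχ : ContDiff ℝ ∞ χ) (hχ0 : ∀ p, 0 ≤ χ p) (hχc : HasCompactSupport χ) (hχV : tsupport χ ⊆ V)
    (hs : ContDiffOn ℝ ∞ s (V \ k)) (hcl : ∀ p ∈ V \ k, extDeriv s p = 0)
    (hlc : ∀ p ∈ V, LCE s p) (hb : ∀ᵐ q, q ∈ V → ‖s q‖ ≤ b) (hJ : ContinuousOn Js V)
    (hpos : ∀ᵐ q, q ∈ V → ∀ v : E d, c * ‖v‖ ^ 2 ≤ s q ![v, Js q v]) :
    ∃ (s' : E d → Al d 2) (b' : ℝ), 0 ≤ b' ∧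
      ContDiffOn ℝ ∞ s' (V \ (k ∩ {p | χ p = 0})) ∧
      (∀ p ∈ V \ (k ∩ {p | χ p = 0}), extDeriv s' p = 0) ∧
      (∀ p ∈ V, LCE s' p) ∧ (∀ᵐ q, q ∈ V → ‖s' q‖ ≤ b') ∧
      (∀ p, χ p = 0 → s' p = s p) ∧
      ∀ᵐ q, q ∈ V → ∀ v : E d, c / 2 * ‖v‖ ^ 2 ≤ s' q ![v, Js q v] := by
  classical
  -- a compact neighbourhood of the support
  obtain ⟨r, hr, hrV⟩ := IsCompact.exists_cthickening_subset_open hχc hV hχV
  obtain ⟨Q, hQdef⟩ : ∃ Q : Set (E d), Q = Metric.cthickening r (tsupport χ) := ⟨_, rfl⟩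
  rw [← hQdef] at hrV
  have hQ : IsCompact Q := by rw [hQdef]; exact IsCompact.cthickening hχc
  have hNQ : tsupport χ ⊆ Q := by rw [hQdef]; exact Metric.self_subset_cthickening _
  -- a uniform radius for the approximation
  obtain ⟨r₀, hr₀, hap₀⟩ := LCE_unif hχc (fun p hp => hlc p (hχV hp))
  obtain ⟨r₁, hr₁def⟩ : ∃ r₁ : ℝ, r₁ = min r₀ r := ⟨_, rfl⟩
  have hr₁ : 0 < r₁ := by rw [hr₁def]; exact lt_min hr₀ hr
  have hap : ∀ p ∈ tsupport χ, ∃ (B : ℝ) (t : ℕ → E d → Al d 2), Apx s p r₁ B t := by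
    intro p hp
    obtain ⟨B, t, ht⟩ := hap₀ p hp
    exact ⟨B, t, ht.sub (ball_subset_ball (by rw [hr₁def]; exact min_le_left _ _))⟩
  have hbQ : ∀ p ∈ tsupport χ, ball p r₁ ⊆ Q := by
    intro p hp q hq
    rw [hQdef]
    refine Metric.mem_cthickening_of_dist_le q p _ _ hp ?_
    have h1 : dist q p < r₁ := hq
    have h2 : r₁ ≤ r := by rw [hr₁def]; exact min_le_right _ _
    linarith
  -- bounds
  obtain ⟨S₀, hS₀⟩ := hQ.exists_bound_of_continuousOn (hJ.mono hrV)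
  obtain ⟨S, hSdef⟩ : ∃ S : ℝ, S = max S₀ 0 := ⟨_, rfl⟩
  have hS0 : 0 ≤ S := by rw [hSdef]; exact le_max_right _ _
  have hS : ∀ p ∈ Q, ‖Js p‖ ≤ S := fun p hp => by
    rw [hSdef]; exact (hS₀ p hp).trans (le_max_left _ _)
  obtain ⟨D, hD⟩ := (hχ.continuous_fderiv (by simp)).bounded_above_of_compact_support
    (hχc.fderiv ℝ)
  have hD0 : 0 ≤ D := (norm_nonneg _).trans (hD 0)
  obtain ⟨X, hX⟩ := hχ.continuous.bounded_above_of_compact_support hχc
  have hX0 : 0 ≤ X := (norm_nonneg _).trans (hX 0)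
  obtain ⟨δ₁, hδ₁def⟩ : ∃ δ₁ : ℝ, δ₁ = c / (4 * (b + 1)) := ⟨_, rfl⟩
  have hδ₁ : 0 < δ₁ := by rw [hδ₁def]; positivity
  obtain ⟨r₃, hr₃, hr₃'⟩ := Metric.uniformContinuousOn_iff.1
    (hQ.uniformContinuousOn_of_continuous (hJ.mono hrV)) δ₁ hδ₁
  obtain ⟨ε, hεdef⟩ : ∃ ε : ℝ, ε = min (min (r / (X + 1)) (r₃ / (2 * (X + 1))))
    (min (c / (8 * ((b + 1) * (D + 1) * (S + 1)))) (r₁ / (2 * (X + 1)))) := ⟨_, rfl⟩
  have hε : 0 < ε := by
    rw [hεdef]
    refine lt_min (lt_min (by positivity) (by positivity)) (lt_min (by positivity) (by positivity))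
  have hε₁ : ε ≤ r / (X + 1) := by rw [hεdef]; exact (min_le_left _ _).trans (min_le_left _ _)
  have hε₂ : ε ≤ r₃ / (2 * (X + 1)) := by
    rw [hεdef]; exact (min_le_left _ _).trans (min_le_right _ _)
  have hε₃ : ε ≤ c / (8 * ((b + 1) * (D + 1) * (S + 1))) := by
    rw [hεdef]; exact (min_le_right _ _).trans (min_le_left _ _)
  have hε₄ : ε ≤ r₁ / (2 * (X + 1)) := by
    rw [hεdef]; exact (min_le_right _ _).trans (min_le_right _ _)
  rw [le_div_iff₀ (by positivity)] at hε₁ hε₂ hε₃ hε₄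
  obtain ⟨ρ, hρ⟩ := moll_exists (d := d) hε
  have hρc := moll_cs hρ
  have hmove : ∀ p y : E d, ‖y‖ ≤ ε → ‖χ p • y‖ ≤ X * ε := by
    intro p y hy
    rw [norm_smul]
    exact mul_le_mul (hX p) hy (norm_nonneg _) hX0
  have hmove1 : ∀ p y : E d, ‖y‖ ≤ ε → ‖χ p • y‖ ≤ r₁ / 2 := by
    intro p y hy
    refine (hmove p y hy).trans ?_
    nlinarith
  have hball : ∀ p ∈ tsupport χ, ∀ y, ‖y‖ ≤ ε → p + χ p • y ∈ Q := by
    intro p hp y hy
    rw [hQdef]
    refine Metric.mem_cthickening_of_dist_le _ p _ _ hp ?_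
    rw [dist_eq_norm, add_sub_cancel_left]
    refine (hmove p y hy).trans ?_
    nlinarith
  have hin : ∀ p, χ p ≠ 0 → p ∈ tsupport χ := fun p hp => subset_tsupport χ hp
  have hfd : ∀ p, χ p = 0 → fderiv ℝ χ p = 0 := by
    intro p hp
    apply IsLocalMin.fderiv_eq_zero
    refine Eventually.of_forall fun x => ?_
    rw [hp]
    exact hχ0 x
  -- the representative
  obtain ⟨Φ, hΦm, hΦb, hΦs⟩ := rep hQ (fun p hp => hlc p (hrV hp)) hb0 (by
    filter_upwards [hb] with q hq hqQ using hq (hrV hqQ))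
  have hJΦ : ∀ p, χ p ≠ 0 → JJ ρ χ s p = JJ ρ χ Φ p := fun p hp =>
    (JJ_congr hρ hΦs hp (hball p (hin p hp))).symm
  obtain ⟨s', hs'⟩ : ∃ s' : E d → Al d 2, ∀ p, s' p = if χ p = 0 then s p else JJ ρ χ s p :=
    ⟨_, fun _ => rfl⟩
  have hs'0 : ∀ p, χ p = 0 → s' p = s p := fun p hp => by rw [hs' p, if_pos hp]
  have hs'1 : ∀ p, χ p ≠ 0 → s' p = JJ ρ χ s p := fun p hp => by rw [hs' p, if_neg hp]
  -- the points at which `χ` is positive
  have hevp : ∀ p, χ p ≠ 0 → s' =ᶠ[𝓝 p] JJ ρ χ Φ := by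
    intro p hp
    filter_upwards [(isOpen_ne_fun hχ.continuous continuous_const).mem_nhds hp] with q hq
    rw [hs'1 q hq, hJΦ q hq]
  have hgp : ∀ p, χ p ≠ 0 → ContDiffAt ℝ ∞ s' p ∧ extDeriv s' p = 0 := by
    intro p hp
    have hp' : 0 < χ p := lt_of_le_of_ne (hχ0 p) (Ne.symm hp)
    refine ⟨(JJ_smooth hK hχ hp' hρ.smooth hρc hΦm hΦb).congr_of_eventuallyEq (hevp p hp), ?_⟩
    rw [(hevp p hp).extDeriv_eq]
    obtain ⟨B, t, ht⟩ := hap p (hin p hp)
    refine JJ_cl hK hSM hε.le hρ hχ hχ0 hr₁ ht hmove1 hΦm hΦb ?_ hp'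
    filter_upwards [hΦs] with q hq hqb using hq (hbQ p (hin p hp) hqb)
  -- the points at which `χ` vanishes
  have hg0 : ∀ p ∈ V \ k, χ p = 0 → ContDiffAt ℝ ∞ s' p ∧ extDeriv s' p = 0 := by
    intro p hp hp0
    have hev : s' =ᶠ[𝓝 p] JJ ρ χ ((V \ k).indicator s) := by
      obtain ⟨r', hr', hr'V⟩ := Metric.isOpen_iff.1 hVk p hp
      have h1 : ∀ᶠ q in 𝓝 p, ‖χ q‖ * ε < r' / 2 := by
        have h2 : Tendsto (fun q => ‖χ q‖ * ε) (𝓝 p) (𝓝 (‖χ p‖ * ε)) :=
          (hχ.continuous.norm.mul continuous_const).tendsto p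
        rw [hp0, norm_zero, zero_mul] at h2
        exact h2.eventually_lt_const (by linarith)
      filter_upwards [h1, ball_mem_nhds p (half_pos hr')] with q hq1 hq2
      have hball' : ∀ y, ‖y‖ ≤ ε → q + χ q • y ∈ V \ k := by
        intro y hy
        apply hr'V
        rw [mem_ball, dist_eq_norm] at hq2 ⊢
        have h3 : q + χ q • y - p = (q - p) + χ q • y := by abel
        have h4 := norm_add_le (q - p) (χ q • y)
        have h5 : ‖χ q • y‖ ≤ ‖χ q‖ * ε := by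
          rw [norm_smul]
          exact mul_le_mul_of_nonneg_left hy (norm_nonneg _)
        rw [h3]
        linarith
      by_cases h : χ q = 0
      · have h6 : q ∈ V \ k := by
          have := hball' 0 (by rw [norm_zero]; exact hε.le)
          rwa [smul_zero, add_zero] at this
        rw [hs'0 q h, JJ_eq hρ _ h (hfd q h), indicator_of_mem h6]
      · rw [hs'1 q h]
        exact JJ_congr' hρ (fun z hz => (indicator_of_mem hz s).symm) hball'
    obtain ⟨h1, h2⟩ := JJ_off hSM hρ hχ hVk hs hcl hp hp0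
    refine ⟨h1.congr_of_eventuallyEq hev, ?_⟩
    rw [hev.extDeriv_eq]
    exact h2
  have hg : ∀ p ∈ V \ (k ∩ {p | χ p = 0}), ContDiffAt ℝ ∞ s' p ∧ extDeriv s' p = 0 := by
    intro p hp
    by_cases h : χ p = 0
    · exact hg0 p ⟨hp.1, fun hk => hp.2 ⟨hk, h⟩⟩ h
    · exact hgp p h
  refine ⟨s', max b (b * (1 + D * ε) ^ 2), hb0.trans (le_max_left _ _),
    fun p hp => (hg p hp).1.contDiffWithinAt, fun p hp => (hg p hp).2, ?_, ?_, hs'0, ?_⟩
  · intro p hpV
    by_cases hpt : p ∈ tsupport χ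
    · obtain ⟨B, t, ht⟩ := hap p hpt
      have hB := ht.B_nonneg hr₁
      have hball2 : ∀ q ∈ ball p (r₁ / 2), ∀ y : E d, ‖y‖ ≤ ε → q + χ q • y ∈ ball p r₁ := by
        intro q hq y hy
        rw [mem_ball, dist_eq_norm] at hq ⊢
        have h1 := norm_add_le (q - p) (χ q • y)
        have h2 := hmove1 q y hy
        have h3 : q + χ q • y - p = (q - p) + χ q • y := by abel
        rw [h3]
        linarith
      have hsc : ∀ n, ∀ q ∈ ball p (r₁ / 2),
          ContDiffAt ℝ ∞ (JJ ρ χ ((ball p r₁).indicator (t n))) q ∧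
          extDeriv (JJ ρ χ ((ball p r₁).indicator (t n))) q = 0 := fun n q hq =>
        JJ_sc hK hSM hε.le hρ hχ hχ0 isOpen_ball (ht.smooth n) (ht.closed n) hB (ht.bdd n)
          (hball2 q hq)
      refine ⟨r₁ / 2, B * (1 + D * ε) ^ 2, fun n => JJ ρ χ ((ball p r₁).indicator (t n)),
        half_pos hr₁, ⟨fun n q hq => (hsc n q hq).1.contDiffWithinAt,
        fun n q hq => (hsc n q hq).2,
        fun n q _ => JJ_bd hρ (ind_bd' hB (ht.bdd n)) (hD q), ?_⟩⟩
      filter_upwards [ht.lim] with q hq hqb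
      have hqb' : q ∈ ball p r₁ := ball_subset_ball (by linarith) hqb
      by_cases h : χ q = 0
      · simp only [JJ_eq hρ _ h (hfd q h), indicator_of_mem hqb', hs'0 q h]
        exact hq hqb'
      · rw [hs'1 q h]
        exact JJ_lim hρ hr₁ ht h (hball2 q hqb)
    · refine (hlc p hpV).congr ?_
      filter_upwards [(isClosed_tsupport χ).isOpen_compl.mem_nhds hpt] with q hq
      exact hs'0 q (by
        by_contra h
        exact hq (hin q h))
  · filter_upwards [hb] with q hq hqV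
    by_cases h : χ q = 0
    · rw [hs'0 q h]
      exact (hq hqV).trans (le_max_left _ _)
    · rw [hs'1 q h, hJΦ q h]
      exact (JJ_bd hρ hΦb (hD q)).trans (le_max_right _ _)
  · filter_upwards [hpos] with q hq hqV v
    by_cases h : χ q = 0
    · rw [hs'0 q h]
      refine le_trans ?_ (hq hqV v)
      have := sq_nonneg ‖v‖
      nlinarith
    · rw [hs'1 q h, hJΦ q h]
      have hqN : q ∈ tsupport χ := hin q h
      have h1 := JJ_pos (Js := Js) (c := c) (δ₁ := δ₁) (D := D) (S := S) hρ hΦm hΦb (by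
        filter_upwards [hpos, hΦs] with z h1 h2 hz v
        rw [h2 hz]
        exact h1 (hrV hz) v) h (hball q hqN) (fun y hy => by
        have h2 : dist q (q + χ q • y) < r₃ := by
          rw [dist_eq_norm, sub_add_cancel_left, norm_neg]
          refine lt_of_le_of_lt (hmove q y hy) ?_
          nlinarith
        have h3 := hr₃' q (hNQ hqN) _ (hball q hqN y hy) h2
        rw [dist_eq_norm] at h3
        exact h3.le) (hS q (hNQ hqN)) (hD q) v
      refine le_trans ?_ h1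
      have h4 : b * δ₁ ≤ c / 4 := by
        rw [hδ₁def, mul_div_assoc', div_le_div_iff₀ (by positivity) (by norm_num)]
        nlinarith
      have h5 : 2 * b * D * ε * S ≤ c / 4 := by
        have h6 : b * D * S ≤ (b + 1) * (D + 1) * (S + 1) := by
          apply mul_le_mul (mul_le_mul _ _ hD0 _) _ hS0 _
          all_goals first | linarith | positivity
        have h7 : ε * (b * D * S) ≤ ε * ((b + 1) * (D + 1) * (S + 1)) :=
          mul_le_mul_of_nonneg_left h6 hε.le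
        nlinarith
      have := sq_nonneg ‖v‖
      nlinarith

end Pool.Agent.Helper76K9.RF
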