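import Pool.Agent.Helper76K9.RF.Step

/-!
Rough closed forms which are uniformly positive for a continuous field of endomorphisms almost
everywhere give symplectic forms.
-/

set_option autoImplicit false

open Set Filter Topology MeasureTheory Metric
open scoped Manifold ContDiff

noncomputable section

namespace Pool.Agent.Helper76K9.RF

open Pool.Agent.Y501.SY
open Pool.Agent.Y515.SY (Al finAl evL evL_inj bs two_bound)
open Pool.Agent.Y455.SY (A B AB BA A_surj Q Q_eq tames_iff)
open Pool.Agent.Y929.SY (ev_of_chart ev_to_chart near pb_apply2)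

variable {d : ℕ} {X : Type} [TopologicalSpace X] [ChartedSpace (E d) X]
  [IsManifold (𝓡 d) ∞ X]

/-- smooth forms which are uniformly positive almost everywhere are positive -/
theorem RT.tames {m : ℕ} {F : X → E m} (hF : ContMDiff (𝓡 d) (𝓡 m) ∞ F)
    (hFi : ∀ x, Function.Injective (mfderiv (𝓡 d) (𝓡 m) F x)) {J : End d X}
    (hJc : ∀ x₀ : X, ContinuousOn (inChart J x₀) (chartAt (E d) x₀).target) {w : Form d X 2}
    (h : RT F J w ∅) : IsSmooth w ∧ IsClosedForm w ∧ ∀ x, TamesAt w J x := by
  have hs : IsSmooth w := fun U φ hU hφ => h.smooth U φ hU hφ fun p _ => notMem_empty _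
  have hcl : IsClosedForm w := fun U φ hU hφ => h.closed U φ hU hφ fun p _ => notMem_empty _
  refine ⟨hs, hcl, fun x => ?_⟩
  obtain ⟨c, N, hc, hN, hpos⟩ := h.pos
  have hxt := mem_chart_target (E d) x
  obtain ⟨r, hr, hr'⟩ := Metric.nhds_basis_closedBall.mem_iff.1
    ((chartAt (E d) x).open_target.mem_nhds hxt)
  obtain ⟨c₁, C₁, hc₁, hC₁, hnm⟩ := Pool.Agent.Y44.SY.t_IMM d m X F hF hFi x _
    (isCompact_closedBall (chartAt (E d) x x) r) hr'
  have key : ∀ v : E d, c * c₁ ^ 2 * ‖v‖ ^ 2 ≤ Q w J x (chartAt (E d) x x) v := by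
    intro v
    by_contra hlt
    rw [not_le] at hlt
    have hcont : ContinuousAt (fun p => Q w J x p v) (chartAt (E d) x x) := by
      have h1 : ContinuousAt (pb (chartAt (E d) x).symm w) (chartAt (E d) x x) :=
        ((hs _ _ (chartAt (E d) x).open_target (contMDiffOn_chart_symm)).continuousOn).continuousAt
          ((chartAt (E d) x).open_target.mem_nhds hxt)
      have h2 : ContinuousAt (inChart J x) (chartAt (E d) x x) :=
        (hJc x).continuousAt ((chartAt (E d) x).open_target.mem_nhds hxt)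
      have h5 : ContinuousAt (fun p : E d => inChart J x p v) (chartAt (E d) x x) :=
        h2.clm_apply continuousAt_const
      have h6 : ContinuousAt (fun p : E d => (![v, inChart J x p v] : Fin 2 → E d))
          (chartAt (E d) x x) := by
        rw [continuousAt_pi]
        intro i
        fin_cases i
        · exact continuousAt_const
        · exact h5
      have h7 : Continuous (fun q : Al d 2 × (Fin 2 → E d) => q.1 q.2) := by fun_prop
      exact h7.continuousAt.comp (h1.prodMk h6)
    have hev : ∀ᶠ p in 𝓝 (chartAt (E d) x x), Q w J x p v < c * c₁ ^ 2 * ‖v‖ ^ 2 :=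
      hcont.eventually_lt_const hlt
    have hev2 := hev.and (ball_mem_nhds (chartAt (E d) x x) hr)
    obtain ⟨O, hO1, hO2, hO3⟩ := _root_.eventually_nhds_iff.1 hev2
    have hvol : 0 < volume O := hO2.measure_pos volume ⟨_, hO3⟩
    have hzero : volume O = 0 := by
      refine measure_mono_null ?_ (ae_iff.1 (hN.ae x))
      intro p hp
      obtain ⟨h1, h2⟩ := hO1 p hp
      have hpt : p ∈ (chartAt (E d) x).target := hr' (ball_subset_closedBall h2)
      intro h3
      have h4 := hpos _ (h3 hpt) (A x p v)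
      rw [← Q_eq w J x hpt v] at h4
      have h5 : c₁ * ‖v‖ ≤ nm F ((chartAt (E d) x).symm p) (A x p v) :=
        (hnm p (ball_subset_closedBall h2) v).1
      have h6 : (c₁ * ‖v‖) ^ 2 ≤ nm F ((chartAt (E d) x).symm p) (A x p v) ^ 2 :=
        pow_le_pow_left₀ (by positivity) h5 2
      have h7 : c * (c₁ * ‖v‖) ^ 2 ≤ c * nm F ((chartAt (E d) x).symm p) (A x p v) ^ 2 := by
        gcongr
      nlinarith
    rw [hzero] at hvol
    exact lt_irrefl _ hvol
  have h1 := (tames_iff w J x hxt).2 (fun v hv => lt_of_lt_of_le (by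
    have : 0 < ‖v‖ := norm_pos_iff.2 hv
    positivity) (key v))
  rwa [(chartAt (E d) x).left_inv (mem_chart_source (E d) x)] at h1

theorem core [CompactSpace X] [T2Space X] {m : ℕ} {F : X → E m}
    (hF : ContMDiff (𝓡 d) (𝓡 m) ∞ F)
    (hFi : ∀ x, Function.Injective (mfderiv (𝓡 d) (𝓡 m) F x)) {J : End d X}
    (hJc : ∀ x₀ : X, ContinuousOn (inChart J x₀) (chartAt (E d) x₀).target) {σ : Form d X 2}
    (h : RT F J σ univ) :
    ∃ w : Form d X 2, IsSmooth w ∧ IsClosedForm w ∧ ∀ x, TamesAt w J x := by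
  classical
  choose W hWo hWz hW using fun z : X => rstep hF hFi hJc z
  have hfin : ∀ t : Finset X, ∃ w : Form d X 2, RT F J w (univ \ ⋃ z ∈ t, W z) := by
    intro t
    induction t using Finset.induction_on with
    | empty =>
      refine ⟨σ, ?_⟩
      have : (univ : Set X) \ ⋃ z ∈ (∅ : Finset X), W z = univ := by simp
      rw [this]
      exact h
    | insert a t ha ih =>
      obtain ⟨w, hw⟩ := ih
      have hop : IsOpen (⋃ z ∈ t, W z) := isOpen_biUnion fun z _ => hWo z
      have hcl : IsClosed ((univ : Set X) \ ⋃ z ∈ t, W z) := by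
        rw [sdiff_eq]
        exact isClosed_univ.inter hop.isClosed_compl
      obtain ⟨w', hw'⟩ := hW a _ w hcl hw
      refine ⟨w', ?_⟩
      have h1 : (univ : Set X) \ ⋃ z ∈ insert a t, W z = (univ \ ⋃ z ∈ t, W z) \ W a := by
        rw [Finset.set_biUnion_insert, union_comm, sdiff_sdiff_left]
        rfl
      rw [h1]
      exact hw'
  obtain ⟨t, -, htc⟩ := (isCompact_univ (X := X)).elim_nhds_subcover W
    (fun z _ => (hWo z).mem_nhds (hWz z))
  obtain ⟨w, hw⟩ := hfin t
  have hempty : (univ : Set X) \ ⋃ z ∈ t, W z = ∅ := by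
    rw [sdiff_eq_empty]
    exact htc
  rw [hempty] at hw
  exact ⟨w, hw.tames hF hFi hJc⟩

end Pool.Agent.Helper76K9.RF
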