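import Pool.Agent.Helper76K9.RF.Loc3
import Pool.Agent.Y929.SY.Glob
import Pool.Agent.Y949.SY.Patch2
import Pool.Agent.Y44.SY.Imm
import Pool.Agent.Y501.SY.Step

/-!
Rough closed two-forms on manifolds.
-/

set_option autoImplicit false

open Set Filter Topology MeasureTheory Metric
open scoped Manifold ContDiff

noncomputable section

namespace Pool.Agent.Helper76K9.RF

open Pool.Agent.Y501.SY
open Pool.Agent.Y515.SY (Al finAl evL evL_inj bs two_bound)
open Pool.Agent.Y455.SY (A B AB BA A_surj Q Q_eq)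
open Pool.Agent.Y929.SY (ev_of_chart ev_to_chart near pb_apply2)
open Pool.Agent.Y487.SY (patch_of_mem patch_of_notMem comp_chain)

variable {d : ℕ} {X : Type} [TopologicalSpace X] [ChartedSpace (E d) X]

/-- subsets of `X` which have Lebesgue measure zero in the charts -/
def CNull (N : Set X) : Prop :=
  ∀ x₀ : X, volume (chartAt (E d) x₀ '' (N ∩ (chartAt (E d) x₀).source)) = 0

theorem CNull.mono {N N' : Set X} (h : CNull (d := d) N) (hN : N' ⊆ N) : CNull (d := d) N' :=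
  fun x₀ => measure_mono_null (image_mono (inter_subset_inter_left _ hN)) (h x₀)

theorem CNull.union {N N' : Set X} (h : CNull (d := d) N) (h' : CNull (d := d) N') :
    CNull (d := d) (N ∪ N') := by
  intro x₀
  rw [union_inter_distrib_right, image_union]
  exact measure_union_null (h x₀) (h' x₀)

theorem cnull_empty : CNull (d := d) (∅ : Set X) := by
  intro x₀
  simp

/-- almost everywhere in a chart -/
theorem CNull.ae {N : Set X} (h : CNull (d := d) N) (x₀ : X) :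
    ∀ᵐ p : E d, p ∈ (chartAt (E d) x₀).target → (chartAt (E d) x₀).symm p ∉ N := by
  filter_upwards [measure_eq_zero_iff_ae_notMem.1 (h x₀)] with p hp hpt hpN
  exact hp ⟨_, ⟨hpN, (chartAt (E d) x₀).map_target hpt⟩, (chartAt (E d) x₀).right_inv hpt⟩

/-- convergence of forms can be tested on pairs of vectors -/
theorem tendsto_of_eval {ι : Type*} {l : Filter ι} {f : ι → Al d 2} {a : Al d 2}
    (h : ∀ v w : E d, Tendsto (fun n => f n ![v, w]) l (𝓝 (a ![v, w]))) : Tendsto f l (𝓝 a) := by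
  obtain ⟨g, hg⟩ := LinearMap.exists_leftInverse_of_injective (evL (d := d))
    (LinearMap.ker_eq_bot.2 evL_inj)
  have e1 : ∀ η : Al d 2, η = (LinearMap.toContinuousLinearMap g) (evL η) := by
    intro η
    exact (congrArg (fun T : Al d 2 →ₗ[ℝ] Al d 2 => T η) hg).symm
  rw [e1 a, show f = fun n => (LinearMap.toContinuousLinearMap g) (evL (f n)) from
    funext fun n => e1 (f n)]
  refine ((LinearMap.toContinuousLinearMap g).continuous.tendsto _).comp ?_
  rw [tendsto_pi_nhds]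
  intro i
  exact h _ _

section

variable [IsManifold (𝓡 d) ∞ X]

/-- a set which is null in one chart is null -/
theorem cnull_of_chart {N : Set X} {x₀ : X} (hN : N ⊆ (chartAt (E d) x₀).source)
    (h : volume (chartAt (E d) x₀ '' N) = 0) : CNull (d := d) N := by
  intro x₁
  have hsub : chartAt (E d) x₁ '' (N ∩ (chartAt (E d) x₁).source) ⊆
      (chartAt (E d) x₁ ∘ (chartAt (E d) x₀).symm) ''
        (chartAt (E d) x₀ '' (N ∩ (chartAt (E d) x₁).source)) := by
    rintro _ ⟨x, hx, rfl⟩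
    refine ⟨chartAt (E d) x₀ x, ⟨x, hx, rfl⟩, ?_⟩
    rw [Function.comp_apply, (chartAt (E d) x₀).left_inv (hN hx.1)]
  refine measure_mono_null hsub ?_
  refine addHaar_image_eq_zero_of_differentiableOn_of_addHaar_eq_zero _ ?_
    (measure_mono_null (image_mono inter_subset_left) h)
  rintro _ ⟨x, hx, rfl⟩
  refine DifferentiableAt.differentiableWithinAt ?_
  have h1 : ContMDiffAt (𝓡 d) (𝓡 d) ∞ (chartAt (E d) x₀).symm (chartAt (E d) x₀ x) :=
    (contMDiffOn_chart_symm (I := 𝓡 d) _ ((chartAt (E d) x₀).map_source (hN hx.1))).contMDiffAt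
      ((chartAt (E d) x₀).open_target.mem_nhds ((chartAt (E d) x₀).map_source (hN hx.1)))
  have h2 : ContMDiffAt (𝓡 d) (𝓡 d) ∞ (chartAt (E d) x₁)
      ((chartAt (E d) x₀).symm (chartAt (E d) x₀ x)) := by
    rw [(chartAt (E d) x₀).left_inv (hN hx.1)]
    exact (contMDiffOn_chart (I := 𝓡 d) _ hx.2).contMDiffAt
      ((chartAt (E d) x₁).open_source.mem_nhds hx.2)
  have h3 := (h2.comp _ h1).contDiffAt
  exact h3.differentiableAt (by simp)

end

/-- smooth closed forms near `x`, uniformly bounded, which converge to `σ` almost everywhere -/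
def LCM {m : ℕ} (F : X → E m) (σ : Form d X 2) (x : X) : Prop :=
  ∃ (O N : Set X) (b : ℝ) (t : ℕ → Form d X 2), IsOpen O ∧ x ∈ O ∧ CNull (d := d) N ∧
    (∀ n, SmoothOff (t n) Oᶜ) ∧ (∀ n, IsDOff (t n) 0 Oᶜ) ∧
    (∀ n, ∀ y ∈ O, ∀ v w : TangentSpace (𝓡 d) y, |t n y ![v, w]| ≤ b * nm F y v * nm F y w) ∧
    ∀ y ∈ O, y ∉ N → ∀ v w : TangentSpace (𝓡 d) y,
      Tendsto (fun n => t n y ![v, w]) atTop (𝓝 (σ y ![v, w]))

section

variable [IsManifold (𝓡 d) ∞ X]

/-- from the manifold to the chart -/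
theorem LCM.toE {m : ℕ} {F : X → E m} (hF : ContMDiff (𝓡 d) (𝓡 m) ∞ F)
    (hFi : ∀ x, Function.Injective (mfderiv (𝓡 d) (𝓡 m) F x)) {σ : Form d X 2} {x : X}
    (h : LCM F σ x) (z : X) (hz : x ∈ (chartAt (E d) z).source) :
    LCE (pb (chartAt (E d) z).symm σ) (chartAt (E d) z x) := by
  obtain ⟨O, N, b, t, hO, hxO, hN, ht1, ht2, ht3, ht4⟩ := h
  have hzt : chartAt (E d) z x ∈ (chartAt (E d) z).target := (chartAt (E d) z).map_source hz
  have hopen : IsOpen ((chartAt (E d) z).target ∩ (chartAt (E d) z).symm ⁻¹' O) :=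
    (chartAt (E d) z).isOpen_inter_preimage_symm hO
  have hmem : chartAt (E d) z x ∈ (chartAt (E d) z).target ∩ (chartAt (E d) z).symm ⁻¹' O := by
    refine ⟨hzt, ?_⟩
    rw [mem_preimage, (chartAt (E d) z).left_inv hz]
    exact hxO
  obtain ⟨r, hr, hr'⟩ := Metric.nhds_basis_closedBall.mem_iff.1 (hopen.mem_nhds hmem)
  have hbt : closedBall (chartAt (E d) z x) r ⊆ (chartAt (E d) z).target := fun p hp =>
    (hr' hp).1
  obtain ⟨c₁, C₁, hc₁, hC₁, hnm⟩ := Pool.Agent.Y44.SY.t_IMM d m X F hF hFi z _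
    (isCompact_closedBall (chartAt (E d) z x) r) hbt
  have hsub : ball (chartAt (E d) z x) r ⊆ closedBall (chartAt (E d) z x) r :=
    ball_subset_closedBall
  have hsm : ContMDiffOn (𝓡 d) (𝓡 d) ∞ (chartAt (E d) z).symm (ball (chartAt (E d) z x) r) :=
    contMDiffOn_chart_symm.mono (hsub.trans hbt)
  have hO' : ∀ p ∈ ball (chartAt (E d) z x) r, (chartAt (E d) z).symm p ∉ Oᶜ := fun p hp h =>
    h (hr' (hsub hp)).2
  refine ⟨r, |b| * C₁ * C₁, fun n => pb (chartAt (E d) z).symm (t n), hr, ⟨?_, ?_, ?_, ?_⟩⟩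
  · exact fun n => ht1 n _ _ isOpen_ball hsm hO'
  · intro n q hq
    rw [ht2 n _ _ isOpen_ball hsm hO' q hq, pb_zero]
    rfl
  · intro n q hq
    refine norm_le2 _ (by positivity) fun v w => ?_
    rw [pb_apply2]
    refine (ht3 n _ (hr' (hsub hq)).2 _ _).trans ?_
    have h1 : nm F ((chartAt (E d) z).symm q) (A z q v) ≤ C₁ * ‖v‖ := (hnm q (hsub hq) v).2
    have h2 : nm F ((chartAt (E d) z).symm q) (A z q w) ≤ C₁ * ‖w‖ := (hnm q (hsub hq) w).2
    have n1 : 0 ≤ nm F ((chartAt (E d) z).symm q) (A z q v) := norm_nonneg _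
    have n2 : 0 ≤ nm F ((chartAt (E d) z).symm q) (A z q w) := norm_nonneg _
    calc b * nm F ((chartAt (E d) z).symm q) (A z q v) *
          nm F ((chartAt (E d) z).symm q) (A z q w) ≤
        |b| * nm F ((chartAt (E d) z).symm q) (A z q v) *
          nm F ((chartAt (E d) z).symm q) (A z q w) := by
          gcongr
          exact le_abs_self b
      _ ≤ |b| * (C₁ * ‖v‖) * (C₁ * ‖w‖) := by gcongr
      _ = _ := by ring
  · filter_upwards [hN.ae z] with q hq hqb
    refine tendsto_of_eval fun v w => ?_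
    simp only [pb_apply2]
    exact ht4 _ (hr' (hsub hqb)).2 (hq (hbt (hsub hqb))) _ _

/-- a form given in a chart on an open set -/
theorem patch_on (x₀ : X) {O : Set X} (hO : IsOpen O) (hOs : O ⊆ (chartAt (E d) x₀).source)
    {s' : E d → Al d 2} (σ : Form d X 2) (hs : ContDiffOn ℝ ∞ s' (chartAt (E d) x₀ '' O))
    (hcl : ∀ p ∈ chartAt (E d) x₀ '' O, extDeriv s' p = 0) :
    SmoothOff (patch x₀ O s' σ) Oᶜ ∧ IsDOff (patch x₀ O s' σ) 0 Oᶜ := by
  have hcs : ContMDiffOn (𝓡 d) (𝓡 d) ∞ (chartAt (E d) x₀) (chartAt (E d) x₀).source :=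
    contMDiffOn_chart
  have himg : IsOpen (chartAt (E d) x₀ '' O) :=
    (chartAt (E d) x₀).isOpen_image_of_subset_source hO hOs
  have keyA : ∀ (U : Set (E d)) (φ : E d → X), IsOpen U → ContMDiffOn (𝓡 d) (𝓡 d) ∞ φ U →
      ∀ p₀ ∈ U, φ p₀ ∈ O → ContDiffAt ℝ ∞ (chartAt (E d) x₀ ∘ φ) p₀ ∧
        pb φ (patch x₀ O s' σ) =ᶠ[𝓝 p₀] fun p =>
          (s' ((chartAt (E d) x₀ ∘ φ) p)).compContinuousLinearMap
          (fderiv ℝ (chartAt (E d) x₀ ∘ φ) p) := by
    intro U φ hU hφ p₀ hp₀ hpO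
    have hU' : IsOpen (U ∩ φ ⁻¹' O) := hφ.continuousOn.isOpen_inter_preimage hU hO
    have hψm : ContMDiffOn (𝓡 d) (𝓡 d) ∞ (chartAt (E d) x₀ ∘ φ) (U ∩ φ ⁻¹' O) :=
      hcs.comp (hφ.mono inter_subset_left) fun p hp => hOs hp.2
    have hψ : ContDiffOn ℝ ∞ (chartAt (E d) x₀ ∘ φ) (U ∩ φ ⁻¹' O) :=
      contMDiffOn_iff_contDiffOn.1 hψm
    refine ⟨hψ.contDiffAt (hU'.mem_nhds ⟨hp₀, hpO⟩), ?_⟩
    filter_upwards [hU'.mem_nhds ⟨hp₀, hpO⟩] with p hp
    have hφp : MDifferentiableAt (𝓡 d) (𝓡 d) φ p :=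
      ((hφ p hp.1).contMDiffAt (hU.mem_nhds hp.1)).mdifferentiableAt (by simp)
    have hcp : MDifferentiableAt (𝓡 d) (𝓡 d) (chartAt (E d) x₀) (φ p) :=
      ((hcs _ (hOs hp.2)).contMDiffAt
        ((chartAt (E d) x₀).open_source.mem_nhds (hOs hp.2))).mdifferentiableAt (by simp)
    rw [← comp_chain (s' ((chartAt (E d) x₀ ∘ φ) p)) hcp hφp]
    unfold pb
    rw [patch_of_mem x₀ O s' σ hp.2]
    rfl
  constructor
  · intro U φ hU hφ hφO p hp
    have hpO : φ p ∈ O := by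
      by_contra h
      exact hφO p hp h
    obtain ⟨h1, h2⟩ := keyA U φ hU hφ p hp hpO
    have h4 : ContDiffAt ℝ ∞ s' ((chartAt (E d) x₀ ∘ φ) p) :=
      hs.contDiffAt (himg.mem_nhds ⟨φ p, hpO, rfl⟩)
    have h5 : ContDiffAt ℝ ∞ (fun p => (s' ((chartAt (E d) x₀ ∘ φ) p),
        fderiv ℝ (chartAt (E d) x₀ ∘ φ) p)) p :=
      (h4.comp p h1).prodMk (h1.fderiv_right (by simp))
    have h6 : ContDiffAt ℝ ∞ (fun p => (s' ((chartAt (E d) x₀ ∘ φ) p)).compContinuousLinearMap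
        (fderiv ℝ (chartAt (E d) x₀ ∘ φ) p)) p :=
      Pool.Agent.Y604.SY.contDiff_pull.contDiffAt.comp p h5
    exact (h6.congr_of_eventuallyEq h2).contDiffWithinAt
  · intro U φ hU hφ hφO p hp
    have hpO : φ p ∈ O := by
      by_contra h
      exact hφO p hp h
    obtain ⟨h1, h2⟩ := keyA U φ hU hφ p hp hpO
    have h4 : ContDiffAt ℝ ∞ s' ((chartAt (E d) x₀ ∘ φ) p) :=
      hs.contDiffAt (himg.mem_nhds ⟨φ p, hpO, rfl⟩)
    have h6 : extDeriv s' ((chartAt (E d) x₀ ∘ φ) p) = 0 := hcl _ ⟨φ p, hpO, rfl⟩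
    rw [h2.extDeriv_eq, extDeriv_pullback (r := ∞) (h4.differentiableAt (by simp)) h1 (by
        rw [minSmoothness_of_isRCLikeNormedField]
        exact WithTop.coe_le_coe.2 le_top), h6]
    ext v
    rfl

/-- from the chart to the manifold -/
theorem LCE.toM {m : ℕ} {F : X → E m} (hF : ContMDiff (𝓡 d) (𝓡 m) ∞ F)
    (hFi : ∀ x, Function.Injective (mfderiv (𝓡 d) (𝓡 m) F x)) {σ : Form d X 2} {x : X}
    (z : X) (hz : x ∈ (chartAt (E d) z).source)
    (h : LCE (pb (chartAt (E d) z).symm σ) (chartAt (E d) z x)) : LCM F σ x := by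
  obtain ⟨r₀, b, t, hr₀, ht₀⟩ := h
  have hzt : chartAt (E d) z x ∈ (chartAt (E d) z).target := (chartAt (E d) z).map_source hz
  obtain ⟨r₁, hr₁, hr₁'⟩ := Metric.nhds_basis_closedBall.mem_iff.1
    ((chartAt (E d) z).open_target.mem_nhds hzt)
  obtain ⟨r, hrdef⟩ : ∃ r, r = min r₀ r₁ := ⟨_, rfl⟩
  have hr : 0 < r := by rw [hrdef]; exact lt_min hr₀ hr₁
  have hbt : closedBall (chartAt (E d) z x) r ⊆ (chartAt (E d) z).target :=
    (closedBall_subset_closedBall (by rw [hrdef]; exact min_le_right _ _)).trans hr₁'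
  have ht := ht₀.sub (q := chartAt (E d) z x) (r' := r)
    (ball_subset_ball (by rw [hrdef]; exact min_le_left _ _))
  have hb0 : 0 ≤ b := ht.B_nonneg hr
  obtain ⟨c₁, C₁, hc₁, hC₁, hnm⟩ := Pool.Agent.Y44.SY.t_IMM d m X F hF hFi z _
    (isCompact_closedBall (chartAt (E d) z x) r) hbt
  have hsub : ball (chartAt (E d) z x) r ⊆ closedBall (chartAt (E d) z x) r :=
    ball_subset_closedBall
  obtain ⟨O, hOd⟩ : ∃ O, O = (chartAt (E d) z).source ∩
      chartAt (E d) z ⁻¹' ball (chartAt (E d) z x) r := ⟨_, rfl⟩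
  have hO : IsOpen O := by
    rw [hOd]; exact (chartAt (E d) z).isOpen_inter_preimage isOpen_ball
  have hOs : O ⊆ (chartAt (E d) z).source := by rw [hOd]; exact inter_subset_left
  have hOb : ∀ y ∈ O, chartAt (E d) z y ∈ ball (chartAt (E d) z x) r := by
    intro y hy
    rw [hOd] at hy
    exact hy.2
  have himO : chartAt (E d) z '' O ⊆ ball (chartAt (E d) z x) r := by
    rintro _ ⟨y, hy, rfl⟩
    exact hOb y hy
  have hxO : x ∈ O := by
    rw [hOd]
    exact ⟨hz, mem_ball_self hr⟩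
  have hT : ∀ n, SmoothOff (patch z O (t n) (0 : Form d X 2)) Oᶜ ∧
      IsDOff (patch z O (t n) (0 : Form d X 2)) 0 Oᶜ := fun n =>
    patch_on z hO hOs 0 ((ht.smooth n).mono himO) fun p hp => ht.closed n p (himO hp)
  -- the values of the forms
  have hval : ∀ (n : ℕ), ∀ p ∈ ball (chartAt (E d) z x) r, (chartAt (E d) z).symm p ∈ O →
      ∀ v w : E d, patch z O (t n) (0 : Form d X 2) ((chartAt (E d) z).symm p)
        ![A z p v, A z p w] = t n p ![v, w] := by
    intro n p hp hpO v w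
    have hpt : p ∈ (chartAt (E d) z).target := hbt (hsub hp)
    rw [patch_of_mem z O (t n) 0 hpO, (chartAt (E d) z).right_inv hpt]
    have h1 : (fun i => B z p ((![A z p v, A z p w] : Fin 2 → E d) i)) = ![v, w] := by
      funext i
      fin_cases i
      · exact BA z hpt v
      · exact BA z hpt w
    exact congrArg (t n p) h1
  obtain ⟨N, hNd⟩ : ∃ N : Set X, N = {y | y ∈ O ∧ ¬ Tendsto (fun n => t n (chartAt (E d) z y))
      atTop (𝓝 (pb (chartAt (E d) z).symm σ (chartAt (E d) z y)))} := ⟨_, rfl⟩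
  have hN : CNull (d := d) N := by
    refine cnull_of_chart (x₀ := z) (fun y hy => ?_) ?_
    · rw [hNd] at hy
      exact hOs hy.1
    · refine measure_mono_null ?_ (ae_iff.1 ht.lim)
      rintro _ ⟨y, hy, rfl⟩
      rw [hNd] at hy
      intro h
      exact hy.2 (h (hOb y hy.1))
  refine ⟨O, N, b * c₁⁻¹ * c₁⁻¹, fun n => patch z O (t n) 0, hO, hxO, hN, fun n => (hT n).1,
    fun n => (hT n).2, ?_, ?_⟩
  · intro n y hy v w
    obtain ⟨p, hp⟩ : ∃ p, p = chartAt (E d) z y := ⟨_, rfl⟩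
    have hpb : p ∈ ball (chartAt (E d) z x) r := by rw [hp]; exact hOb y hy
    have hpt : p ∈ (chartAt (E d) z).target := hbt (hsub hpb)
    have hyp : y = (chartAt (E d) z).symm p := by
      rw [hp, (chartAt (E d) z).left_inv (hOs hy)]
    subst hyp
    obtain ⟨v', rfl⟩ := A_surj z hpt v
    obtain ⟨w', rfl⟩ := A_surj z hpt w
    rw [hval n p hpb hy]
    have h1 := le_norm2 (t n p) v' w'
    have h2 : ‖t n p‖ ≤ b := ht.bdd n p hpb
    have h3 : c₁ * ‖v'‖ ≤ nm F ((chartAt (E d) z).symm p) (A z p v') :=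
      (hnm p (hsub hpb) v').1
    have h4 : c₁ * ‖w'‖ ≤ nm F ((chartAt (E d) z).symm p) (A z p w') :=
      (hnm p (hsub hpb) w').1
    have h5 : ‖v'‖ ≤ c₁⁻¹ * nm F ((chartAt (E d) z).symm p) (A z p v') := by
      rw [inv_mul_eq_div, le_div_iff₀ hc₁, mul_comm]
      exact h3
    have h6 : ‖w'‖ ≤ c₁⁻¹ * nm F ((chartAt (E d) z).symm p) (A z p w') := by
      rw [inv_mul_eq_div, le_div_iff₀ hc₁, mul_comm]
      exact h4
    have n1 : 0 ≤ nm F ((chartAt (E d) z).symm p) (A z p v') := norm_nonneg _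
    have n2 : 0 ≤ nm F ((chartAt (E d) z).symm p) (A z p w') := norm_nonneg _
    calc |t n p ![v', w']| ≤ ‖t n p‖ * ‖v'‖ * ‖w'‖ := h1
      _ ≤ b * (c₁⁻¹ * nm F ((chartAt (E d) z).symm p) (A z p v')) *
          (c₁⁻¹ * nm F ((chartAt (E d) z).symm p) (A z p w')) := by gcongr
      _ = _ := by ring
  · intro y hy hyN v w
    obtain ⟨p, hp⟩ : ∃ p, p = chartAt (E d) z y := ⟨_, rfl⟩
    have hpb : p ∈ ball (chartAt (E d) z x) r := by rw [hp]; exact hOb y hy
    have hpt : p ∈ (chartAt (E d) z).target := hbt (hsub hpb)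
    have hyp : y = (chartAt (E d) z).symm p := by
      rw [hp, (chartAt (E d) z).left_inv (hOs hy)]
    have hl : Tendsto (fun n => t n p) atTop (𝓝 (pb (chartAt (E d) z).symm σ p)) := by
      by_contra h
      apply hyN
      rw [hNd, hp] at *
      exact ⟨hy, h⟩
    subst hyp
    obtain ⟨v', rfl⟩ := A_surj z hpt v
    obtain ⟨w', rfl⟩ := A_surj z hpt w
    simp only [hval _ p hpb hy]
    rw [← pb_apply2]
    exact ((ContinuousAlternatingMap.apply ℝ (E d) ℝ ![v', w']).continuous.tendsto _).comp hl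

end

end Pool.Agent.Helper76K9.RF
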