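import Pool.Agent.Helper76K9.RF.Gen

/-!
Uniformly nondegenerate forms: a continuous field of endomorphisms.
-/

set_option autoImplicit false

open Set Filter Topology MeasureTheory Metric
open scoped Manifold ContDiff

noncomputable section

namespace Pool.Agent.Helper76K9.RF

open Pool.Agent.Y501.SY
open Pool.Agent.Y515.SY (Al finAl evL evL_inj bs two_bound)
open Pool.Agent.Y455.SY (A B AB BA A_surj Q Q_eq tames_iff)
open Pool.Agent.Y929.SY (ev_of_chart ev_to_chart near pb_apply2 pos_near)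

section

variable {d : ℕ} {X : Type} [TopologicalSpace X] [ChartedSpace (E d) X]

theorem sum_clm {V : Type} [NormedAddCommGroup V] [NormedSpace ℝ V] {ι : Type} [Fintype ι]
    (a : ι → ℝ) (M : ι → V →L[ℝ] V) (v : V) : (∑ i, a i • M i) v = ∑ i, a i • M i v :=
  map_sum (ContinuousLinearMap.apply ℝ V v) (fun i => a i • M i) Finset.univ

theorem sum_comp_clm {V : Type} [NormedAddCommGroup V] [NormedSpace ℝ V] {ι : Type} [Fintype ι]
    (a : ι → ℝ) (M : ι → V →L[ℝ] V) (P Q : V →L[ℝ] V) :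
    P.comp ((∑ i, a i • M i).comp Q) = ∑ i, a i • P.comp ((M i).comp Q) := by
  ext v
  rw [sum_clm]
  change P ((∑ i, a i • M i) (Q v)) = _
  rw [sum_clm, map_sum]
  refine Finset.sum_congr rfl fun i _ => ?_
  rw [map_smul]
  rfl

/-- the form as a linear map in the second variable -/
theorem lin2 {V : Type} [NormedAddCommGroup V] [NormedSpace ℝ V] (f : V [⋀^Fin 2]→L[ℝ] ℝ) (v : V) :
    ∃ L : V →ₗ[ℝ] ℝ, ∀ w, L w = f ![v, w] := by
  have e : ∀ z : V, Function.update (![v, 0] : Fin 2 → V) 1 z = ![v, z] := by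
    intro z
    funext i
    fin_cases i <;> rfl
  refine ⟨⟨⟨fun w => f ![v, w], fun a b => ?_⟩, fun a b => ?_⟩, fun w => rfl⟩
  · have := f.map_update_add ![v, 0] 1 a b
    rwa [e, e, e] at this
  · have := f.map_update_smul ![v, 0] 1 a b
    rwa [e, e] at this

theorem sum_form {V : Type} [NormedAddCommGroup V] [NormedSpace ℝ V] (f : V [⋀^Fin 2]→L[ℝ] ℝ)
    {ι : Type} [Fintype ι] (a : ι → ℝ) (M : ι → V →L[ℝ] V) (v : V) :
    f ![v, (∑ i, a i • M i) v] = ∑ i, a i * f ![v, M i v] := by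
  obtain ⟨L, hL⟩ := lin2 f v
  rw [← hL, sum_clm, map_sum]
  refine Finset.sum_congr rfl fun i _ => ?_
  rw [map_smul, smul_eq_mul, hL]

/-- almost everywhere near `x`, in the chart at `x` -/
def AEC (x : X) (P : E d → Prop) : Prop :=
  ∃ r : ℝ, 0 < r ∧ ∀ᵐ p : E d, p ∈ ball (chartAt (E d) x x) r → P p

/-- uniformly nondegenerate near `x` -/
def UND (σ : Form d X 2) (x : X) : Prop :=
  ∃ (T : E d →L[ℝ] E d) (c : ℝ), 0 < c ∧ AEC x fun p => ∀ v : E d,
    c * ‖v‖ ^ 2 ≤ pb (chartAt (E d) x).symm σ p ![v, T v]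

/-- the derivative of the chart at `x` at the point `y` -/
def Dc (x y : X) : E d →L[ℝ] E d := mfderiv (𝓡 d) (𝓡 d) (chartAt (E d) x) y

/-- the field given by a constant endomorphism in the chart at `x` -/
def fld (x : X) (T : E d →L[ℝ] E d) (y : X) : E d →L[ℝ] E d :=
  (A x (chartAt (E d) x y)).comp (T.comp (Dc x y))

end

section

variable {d : ℕ} {X : Type} [TopologicalSpace X] [ChartedSpace (E d) X]
  [IsManifold (𝓡 d) ∞ X]

theorem AEC.cnull {x : X} {P : E d → Prop} (h : AEC x P) :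
    ∃ N : Set X, CNull (d := d) N ∧ ∀ᶠ y in 𝓝 x, y ∉ N → P (chartAt (E d) x y) := by
  obtain ⟨r, hr, h⟩ := h
  refine ⟨_, cnull_of_ae x h, ?_⟩
  have h1 : ∀ᶠ y in 𝓝 x, chartAt (E d) x y ∈ ball (chartAt (E d) x x) r :=
    ((chartAt (E d) x).continuousAt (mem_chart_source (E d) x)).eventually (ball_mem_nhds _ hr)
  filter_upwards [h1, (chartAt (E d) x).open_source.mem_nhds (mem_chart_source (E d) x)]
    with y hy hys hyN
  by_contra hP
  exact hyN ⟨hys, hy, hP⟩

theorem fld_cont (x : X) (T : E d →L[ℝ] E d) (x₀ : X) {p₀ : E d}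
    (hp₀ : p₀ ∈ (chartAt (E d) x₀).target)
    (hx : (chartAt (E d) x₀).symm p₀ ∈ (chartAt (E d) x).source) :
    ContinuousAt (fun p => (B x₀ p).comp ((fld x T ((chartAt (E d) x₀).symm p)).comp (A x₀ p)))
      p₀ := by
  have hO : IsOpen ((chartAt (E d) x₀).target ∩
      (chartAt (E d) x₀).symm ⁻¹' (chartAt (E d) x).source) :=
    (chartAt (E d) x₀).isOpen_inter_preimage_symm (chartAt (E d) x).open_source
  obtain ⟨h, hh⟩ : ∃ h : E d → E d, h = chartAt (E d) x ∘ (chartAt (E d) x₀).symm := ⟨_, rfl⟩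
  obtain ⟨g, hg⟩ : ∃ g : E d → E d, g = chartAt (E d) x₀ ∘ (chartAt (E d) x).symm := ⟨_, rfl⟩
  have hc : ∀ (z y : X), y ∈ (chartAt (E d) z).source →
      ContMDiffAt (𝓡 d) (𝓡 d) ∞ (chartAt (E d) z) y := fun z y hy =>
    (contMDiffOn_chart (I := 𝓡 d) _ hy).contMDiffAt ((chartAt (E d) z).open_source.mem_nhds hy)
  have hs : ∀ (z : X) (p : E d), p ∈ (chartAt (E d) z).target →
      ContMDiffAt (𝓡 d) (𝓡 d) ∞ (chartAt (E d) z).symm p := fun z p hp =>
    (contMDiffOn_chart_symm (I := 𝓡 d) _ hp).contMDiffAt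
      ((chartAt (E d) z).open_target.mem_nhds hp)
  have hsymm : ∀ p ∈ (chartAt (E d) x₀).target ∩
      (chartAt (E d) x₀).symm ⁻¹' (chartAt (E d) x).source,
      (chartAt (E d) x).symm (h p) = (chartAt (E d) x₀).symm p := by
    intro p hp
    rw [hh]
    exact (chartAt (E d) x).left_inv hp.2
  have hhp : ContDiffAt ℝ ∞ h p₀ := by
    have h1 := (hc x ((chartAt (E d) x₀).symm p₀) hx).comp p₀ (hs x₀ p₀ hp₀)
    rw [hh]
    exact h1.contDiffAt
  have hhx : h p₀ ∈ (chartAt (E d) x).target := by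
    rw [hh]
    exact (chartAt (E d) x).map_source hx
  have hgp : ContDiffAt ℝ ∞ g (h p₀) := by
    have h2 : (chartAt (E d) x).symm (h p₀) ∈ (chartAt (E d) x₀).source := by
      rw [hsymm p₀ ⟨hp₀, hx⟩]
      exact (chartAt (E d) x₀).map_target hp₀
    have h1 := (hc x₀ ((chartAt (E d) x).symm (h p₀)) h2).comp (h p₀) (hs x (h p₀) hhx)
    rw [hg]
    exact h1.contDiffAt
  have hdh : ContinuousAt (fderiv ℝ h) p₀ :=
    (hhp.fderiv_right (m := ∞) (by simp)).continuousAt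
  have hdg : ContinuousAt (fderiv ℝ g) (h p₀) :=
    (hgp.fderiv_right (m := ∞) (by simp)).continuousAt
  have hdgh : ContinuousAt (fun p => fderiv ℝ g (h p)) p₀ :=
    ContinuousAt.comp (f := h) (g := fderiv ℝ g) hdg hhp.continuousAt
  have hmain : ContinuousAt (fun p => (fderiv ℝ g (h p)).comp (T.comp (fderiv ℝ h p))) p₀ :=
    hdgh.clm_comp (continuousAt_const.clm_comp hdh)
  refine hmain.congr ?_
  filter_upwards [hO.mem_nhds ⟨hp₀, hx⟩] with p hp
  have e1 : (fderiv ℝ h p : E d →L[ℝ] E d) = (Dc x ((chartAt (E d) x₀).symm p)).comp (A x₀ p) := by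
    rw [← mfderiv_eq_fderiv, hh]
    exact mfderiv_comp p ((hc x _ hp.2).mdifferentiableAt (by simp))
      ((hs x₀ p hp.1).mdifferentiableAt (by simp))
  have e2 : (fderiv ℝ g (h p) : E d →L[ℝ] E d) = (B x₀ p).comp (A x (h p)) := by
    have h3 : B x₀ p = Dc x₀ ((chartAt (E d) x).symm (h p)) := by
      rw [hsymm p hp]
      rfl
    have hhpt : h p ∈ (chartAt (E d) x).target := by
      rw [hh]
      exact (chartAt (E d) x).map_source hp.2
    have h4 : (chartAt (E d) x).symm (h p) ∈ (chartAt (E d) x₀).source := by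
      rw [hsymm p hp]
      exact (chartAt (E d) x₀).map_target hp.1
    rw [h3, ← mfderiv_eq_fderiv, hg]
    exact mfderiv_comp (h p) ((hc x₀ _ h4).mdifferentiableAt (by simp))
      ((hs x _ hhpt).mdifferentiableAt (by simp))
  rw [e1, e2]
  unfold fld
  ext v
  have h5 : chartAt (E d) x ((chartAt (E d) x₀).symm p) = h p := by rw [hh]; rfl
  rw [h5]
  rfl

theorem und_field [CompactSpace X] [T2Space X] {m : ℕ} {F : X → E m}
    (hF : ContMDiff (𝓡 d) (𝓡 m) ∞ F)
    (hFi : ∀ x, Function.Injective (mfderiv (𝓡 d) (𝓡 m) F x)) {σ : Form d X 2}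
    (h : ∀ x, UND σ x) :
    ∃ (J : End d X) (c : ℝ) (N : Set X),
      (∀ x₀ : X, ContinuousOn (inChart J x₀) (chartAt (E d) x₀).target) ∧ 0 < c ∧
      CNull (d := d) N ∧ ∀ y, y ∉ N → ∀ v : TangentSpace (𝓡 d) y,
        c * nm F y v ^ 2 ≤ σ y ![v, J y v] := by
  classical
  -- the local statement
  have hloc : ∀ x : X, ∃ (U : Set X) (T : E d →L[ℝ] E d) (c : ℝ) (N : Set X), IsOpen U ∧ x ∈ U ∧
      U ⊆ (chartAt (E d) x).source ∧ 0 < c ∧ CNull (d := d) N ∧ ∀ y ∈ U, y ∉ N →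
        ∀ v : E d, c * nm F y v ^ 2 ≤ σ y ![v, fld x T y v] := by
    intro x
    obtain ⟨T, c, hc, r, hr, hT⟩ := h x
    obtain ⟨r₁, hr₁, hr₁'⟩ := Metric.nhds_basis_closedBall.mem_iff.1
      ((chartAt (E d) x).open_target.mem_nhds (mem_chart_target (E d) x))
    obtain ⟨δ, hδ, hδr, hδr₁⟩ : ∃ δ, 0 < δ ∧ δ ≤ r ∧ δ ≤ r₁ :=
      ⟨min r r₁, lt_min hr hr₁, min_le_left _ _, min_le_right _ _⟩
    have hsub : closedBall (chartAt (E d) x x) δ ⊆ (chartAt (E d) x).target :=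
      (closedBall_subset_closedBall hδr₁).trans hr₁'
    obtain ⟨c₁, C₁, hc₁, hC₁, hnm⟩ := Pool.Agent.Y44.SY.t_IMM d m X F hF hFi x _
      (isCompact_closedBall (chartAt (E d) x x) δ) hsub
    refine ⟨(chartAt (E d) x).source ∩ chartAt (E d) x ⁻¹' ball (chartAt (E d) x x) δ, T,
      c * C₁⁻¹ ^ 2, _, (chartAt (E d) x).isOpen_inter_preimage isOpen_ball,
      ⟨mem_chart_source (E d) x, mem_ball_self hδ⟩, inter_subset_left, by positivity,
      cnull_of_ae x hT, ?_⟩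
    rintro y ⟨hys, hyb⟩ hyN v
    have hp : ∀ v : E d, c * ‖v‖ ^ 2 ≤
        pb (chartAt (E d) x).symm σ (chartAt (E d) x y) ![v, T v] := by
      by_contra hne
      exact hyN ⟨hys, ball_subset_ball hδr hyb, hne⟩
    obtain ⟨p, hpd⟩ : ∃ p, p = chartAt (E d) x y := ⟨_, rfl⟩
    have hpt : p ∈ (chartAt (E d) x).target := by
      rw [hpd]; exact (chartAt (E d) x).map_source hys
    have hyp : y = (chartAt (E d) x).symm p := by
      rw [hpd, (chartAt (E d) x).left_inv hys]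
    have hpc : p ∈ closedBall (chartAt (E d) x x) δ := by
      rw [hpd]; exact ball_subset_closedBall hyb
    rw [← hpd] at hp
    subst hyp
    obtain ⟨v', rfl⟩ := A_surj x hpt v
    have h1 := hp v'
    rw [pb_apply2] at h1
    have h2 : fld x T ((chartAt (E d) x).symm p) (A x p v') = A x p (T v') := by
      unfold fld
      rw [← hpd]
      change A x p (T (B x p (A x p v'))) = _
      rw [BA x hpt]
    rw [h2]
    refine le_trans ?_ h1
    have h4 : nm F ((chartAt (E d) x).symm p) (A x p v') ≤ C₁ * ‖v'‖ := (hnm p hpc v').2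
    have n1 : 0 ≤ nm F ((chartAt (E d) x).symm p) (A x p v') := norm_nonneg _
    have h6 : C₁⁻¹ * nm F ((chartAt (E d) x).symm p) (A x p v') ≤ ‖v'‖ := by
      rw [inv_mul_eq_div, div_le_iff₀ hC₁, mul_comm]
      exact h4
    have h7 : (C₁⁻¹ * nm F ((chartAt (E d) x).symm p) (A x p v')) ^ 2 ≤ ‖v'‖ ^ 2 :=
      pow_le_pow_left₀ (by positivity) h6 2
    calc c * C₁⁻¹ ^ 2 * nm F ((chartAt (E d) x).symm p) (A x p v') ^ 2
        = c * (C₁⁻¹ * nm F ((chartAt (E d) x).symm p) (A x p v')) ^ 2 := by ring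
      _ ≤ c * ‖v'‖ ^ 2 := by gcongr
  choose U T c N hU hxU hUs hc hN hpos using hloc
  obtain ⟨t, -, htc⟩ := (isCompact_univ (X := X)).elim_nhds_subcover U
    (fun x _ => (hU x).mem_nhds (hxU x))
  obtain ⟨ρ, hρ⟩ := PartitionOfUnity.exists_isSubordinate (isClosed_univ (X := X))
    (fun x : ↥t => U x) (fun x => hU x) (fun y hy => by
      obtain ⟨x, hx, hxy⟩ := mem_iUnion₂.1 (htc hy)
      exact mem_iUnion.2 ⟨⟨x, hx⟩, hxy⟩)
  obtain ⟨ε, hε, hεt⟩ := exists_low t c hc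
  obtain ⟨J, hJ⟩ : ∃ J : End d X, J = fun y => (∑ x : ↥t, ρ x y • fld (x : X) (T x) y :
    E d →L[ℝ] E d) := ⟨_, rfl⟩
  refine ⟨J, ε, ⋃ x ∈ t, N x, ?_, hε, cnull_biUnion t N fun i _ => hN i, ?_⟩
  · intro x₀ p₀ hp₀
    refine ContinuousAt.continuousWithinAt ?_
    have h1 : ∀ p, inChart J x₀ p = ∑ x : ↥t, ρ x ((chartAt (E d) x₀).symm p) •
        (B x₀ p).comp ((fld (x : X) (T x) ((chartAt (E d) x₀).symm p)).comp (A x₀ p)) := by
      intro p
      rw [hJ]
      exact sum_comp_clm (fun x : ↥t => ρ x ((chartAt (E d) x₀).symm p))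
        (fun x : ↥t => fld (x : X) (T x) ((chartAt (E d) x₀).symm p)) (B x₀ p) (A x₀ p)
    have h3 : inChart J x₀ = fun p => ∑ x : ↥t, ρ x ((chartAt (E d) x₀).symm p) •
        (B x₀ p).comp ((fld (x : X) (T x) ((chartAt (E d) x₀).symm p)).comp (A x₀ p)) :=
      funext h1
    rw [h3]
    refine tendsto_finsetSum _ fun x _ => ?_
    have hcs : ContinuousAt (chartAt (E d) x₀).symm p₀ := (chartAt (E d) x₀).continuousAt_symm hp₀
    by_cases hx : (chartAt (E d) x₀).symm p₀ ∈ tsupport (ρ x)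
    · have hxs : (chartAt (E d) x₀).symm p₀ ∈ (chartAt (E d) (x : X)).source := hUs _ (hρ x hx)
      have h4 : ContinuousAt (fun p => ρ x ((chartAt (E d) x₀).symm p)) p₀ :=
        (ρ x).continuous.continuousAt.comp hcs
      exact h4.smul (fld_cont (x : X) (T x) x₀ hp₀ hxs)
    · have h5 : ∀ᶠ p in 𝓝 p₀, (chartAt (E d) x₀).symm p ∉ tsupport (ρ x) :=
        hcs.eventually ((isClosed_tsupport (ρ x)).isOpen_compl.mem_nhds hx)
      have h6 : (fun p => ρ x ((chartAt (E d) x₀).symm p) •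
        (B x₀ p).comp ((fld (x : X) (T x) ((chartAt (E d) x₀).symm p)).comp (A x₀ p)))
          =ᶠ[𝓝 p₀] fun _ => 0 := by
        filter_upwards [h5] with p hp
        rw [image_eq_zero_of_notMem_tsupport hp]
        exact zero_smul ℝ ((B x₀ p).comp ((fld (x : X) (T x)
          ((chartAt (E d) x₀).symm p)).comp (A x₀ p)) : E d →L[ℝ] E d)
      exact continuousAt_const.congr h6.symm
  · intro y hy v
    have h1 : σ y ![v, J y v] = ∑ x : ↥t, ρ x y * σ y ![v, fld (x : X) (T x) y v] := by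
      rw [hJ]
      exact sum_form (V := E d) (σ y) (fun x : ↥t => ρ x y)
        (fun x : ↥t => fld (x : X) (T x) y) v
    have h3 : ∑ x : ↥t, ρ x y = 1 := by
      have := ρ.sum_eq_one (mem_univ y)
      rwa [finsum_eq_sum_of_fintype] at this
    have n1 : 0 ≤ nm F y v ^ 2 := sq_nonneg _
    rw [h1]
    calc ε * nm F y v ^ 2 = ∑ x : ↥t, ρ x y * (ε * nm F y v ^ 2) := by
          rw [← Finset.sum_mul, h3, one_mul]
      _ ≤ _ := by
        refine Finset.sum_le_sum fun x _ => ?_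
        by_cases hx : ρ x y = 0
        · rw [hx, zero_mul, zero_mul]
        · refine mul_le_mul_of_nonneg_left ?_ (ρ.nonneg x y)
          have hyU : y ∈ U x := hρ x (subset_tsupport _ hx)
          have hyN : y ∉ N x := fun h => hy (mem_iUnion₂.2 ⟨x, x.2, h⟩)
          refine le_trans ?_ (hpos x y hyU hyN v)
          exact mul_le_mul_of_nonneg_right (hεt x x.2) n1

/-- Rough closed forms which are uniformly nondegenerate give symplectic forms. -/
theorem nondeg_main [CompactSpace X] [T2Space X] {m : ℕ} {F : X → E m}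
    (hF : ContMDiff (𝓡 d) (𝓡 m) ∞ F)
    (hFi : ∀ x, Function.Injective (mfderiv (𝓡 d) (𝓡 m) F x)) {σ : Form d X 2}
    (hlc : ∀ x, LCM F σ x) (h : ∀ x, UND σ x) :
    ∃ w : Form d X 2, IsSmooth w ∧ IsClosedForm w ∧
      ∀ (x : X) (v : TangentSpace (𝓡 d) x), (∀ u, w x ![v, u] = 0) → v = 0 := by
  obtain ⟨J, c, N, hJ, hc, hN, hpos⟩ := und_field hF hFi h
  obtain ⟨w, h1, h2, h3⟩ := core hF hFi hJ (σ := σ) ⟨smoothOff_univ σ, isDOff_univ σ, hlc,
    lc_bdd hlc, c, N, hc, hN, hpos⟩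
  refine ⟨w, h1, h2, fun x v hv => ?_⟩
  by_contra hne
  have h4 := h3 x v hne
  rw [hv] at h4
  exact lt_irrefl _ h4

end

end Pool.Agent.Helper76K9.RF
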