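import Pool.Agent.Helper76K9.RF.Man

/-!
One step of the regularization of rough closed forms which are positive for a continuous field of
endomorphisms.
-/

set_option autoImplicit false

open Set Filter Topology MeasureTheory Metric
open scoped Manifold ContDiff

noncomputable section

namespace Pool.Agent.Helper76K9.RF

open Pool.Agent.Y501.SY
open Pool.Agent.Y515.SY (Al finAl evL evL_inj bs two_bound)
open Pool.Agent.Y455.SY (A B AB BA A_surj Q Q_eq)
open Pool.Agent.Y929.SY (ev_of_chart ev_to_chart near pb_apply2)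
open Pool.Agent.Y487.SY (patch_of_mem patch_of_notMem comp_chain)

variable {d : ℕ} {X : Type} [TopologicalSpace X] [ChartedSpace (E d) X]

/-- rough closed forms, smooth off `K`, bounded and uniformly positive for `J` almost
everywhere -/
structure RT {m : ℕ} (F : X → E m) (J : End d X) (σ : Form d X 2) (K : Set X) : Prop where
  smooth : SmoothOff σ K
  closed : IsDOff σ 0 K
  lc : ∀ x, LCM F σ x
  bdd : ∃ (b : ℝ) (N : Set X), 0 < b ∧ CNull (d := d) N ∧ ∀ x, x ∉ N →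
    ∀ v w : TangentSpace (𝓡 d) x, |σ x ![v, w]| ≤ b * nm F x v * nm F x w
  pos : ∃ (c : ℝ) (N : Set X), 0 < c ∧ CNull (d := d) N ∧ ∀ x, x ∉ N →
    ∀ v : TangentSpace (𝓡 d) x, c * nm F x v ^ 2 ≤ σ x ![v, J x v]

theorem LCM.congr {m : ℕ} {F : X → E m} {σ σ' : Form d X 2} {x : X} (h : LCM F σ x)
    (hs : ∀ᶠ y in 𝓝 x, σ' y = σ y) : LCM F σ' x := by
  obtain ⟨O, N, b, t, hO, hxO, hN, ht1, ht2, ht3, ht4⟩ := h
  obtain ⟨O', hO', hO'o, hxO'⟩ := eventually_nhds_iff.1 hs
  have hsub : ∀ (U : Set (E d)) (φ : E d → X), (∀ p ∈ U, φ p ∉ (O ∩ O')ᶜ) →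
      ∀ p ∈ U, φ p ∉ Oᶜ := fun U φ h p hp hpO => h p hp fun h' => hpO h'.1
  refine ⟨O ∩ O', N, b, t, hO.inter hO'o, ⟨hxO, hxO'⟩, hN,
    fun n U φ hU hφ hφO => ht1 n U φ hU hφ (hsub U φ hφO),
    fun n U φ hU hφ hφO => ht2 n U φ hU hφ (hsub U φ hφO),
    fun n y hy v w => ht3 n y hy.1 v w, fun y hy hyN v w => ?_⟩
  rw [hO' y hy.2]
  exact ht4 y hy.1 hyN v w

section

variable [IsManifold (𝓡 d) ∞ X]

theorem cnull_of_ae (z : X) {V : Set (E d)} {P : E d → Prop} (h : ∀ᵐ q, q ∈ V → P q) :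
    CNull (d := d) {x | x ∈ (chartAt (E d) z).source ∧ chartAt (E d) z x ∈ V ∧
      ¬ P (chartAt (E d) z x)} := by
  refine cnull_of_chart (x₀ := z) (fun y hy => hy.1) ?_
  refine measure_mono_null ?_ (ae_iff.1 h)
  rintro _ ⟨y, hy, rfl⟩ h'
  exact hy.2.2 (h' hy.2.1)

theorem rstep [T2Space X] {m : ℕ} {F : X → E m} (hF : ContMDiff (𝓡 d) (𝓡 m) ∞ F)
    (hFi : ∀ x, Function.Injective (mfderiv (𝓡 d) (𝓡 m) F x)) {J : End d X}
    (hJc : ∀ x₀ : X, ContinuousOn (inChart J x₀) (chartAt (E d) x₀).target) (z : X) :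
    ∃ W : Set X, IsOpen W ∧ z ∈ W ∧ ∀ (K : Set X) (w : Form d X 2), IsClosed K →
      RT F J w K → ∃ w' : Form d X 2, RT F J w' (K \ W) := by
  -- the ball
  obtain ⟨p₀, hp₀⟩ : ∃ p₀, p₀ = chartAt (E d) z z := ⟨_, rfl⟩
  obtain ⟨e, he⟩ : ∃ e, e = chartAt (E d) z := ⟨_, rfl⟩
  obtain ⟨r, hr, hVt⟩ : ∃ r : ℝ, 0 < r ∧ closedBall p₀ r ⊆ e.target := by
    rw [hp₀, he]
    exact Metric.nhds_basis_closedBall.mem_iff.1
      ((chartAt (E d) z).open_target.mem_nhds (mem_chart_target (E d) z))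
  have hzs : z ∈ e.source := by rw [he]; exact mem_chart_source (E d) z
  have hez : e z = p₀ := by rw [he, hp₀]
  have hV : Metric.ball p₀ r ⊆ e.target := Metric.ball_subset_closedBall.trans hVt
  have hN : IsCompact (Metric.closedBall p₀ r) := isCompact_closedBall p₀ r
  obtain ⟨ci, Ci, hci, hCi, hnm⟩ := Pool.Agent.Y44.SY.t_IMM d m X F hF hFi z
    (Metric.closedBall p₀ r) hN (by rw [← he]; exact hVt)
  have hW : IsOpen (e.source ∩ e ⁻¹' Metric.ball p₀ (r / 2)) :=
    e.isOpen_inter_preimage Metric.isOpen_ball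
  have hO : IsOpen (e.source ∩ e ⁻¹' Metric.ball p₀ r) :=
    e.isOpen_inter_preimage Metric.isOpen_ball
  obtain ⟨W, hWd⟩ : ∃ W, W = e.source ∩ e ⁻¹' Metric.ball p₀ (r / 2) := ⟨_, rfl⟩
  obtain ⟨O, hOd⟩ : ∃ O, O = e.source ∩ e ⁻¹' Metric.ball p₀ r := ⟨_, rfl⟩
  rw [← hWd] at hW
  rw [← hOd] at hO
  have heO : e '' O = Metric.ball p₀ r := by
    apply Subset.antisymm
    · rintro _ ⟨x, hx, rfl⟩
      rw [hOd] at hx
      exact hx.2
    · intro p hp
      refine ⟨e.symm p, ?_, e.right_inv (hV hp)⟩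
      rw [hOd]
      refine ⟨e.map_target (hV hp), ?_⟩
      rw [mem_preimage, e.right_inv (hV hp)]
      exact hp
  have hOs : O ⊆ e.source := by rw [hOd]; exact inter_subset_left
  have hWO : W ⊆ O := by
    rw [hWd, hOd]
    exact inter_subset_inter_right _ (preimage_mono (Metric.ball_subset_ball (by linarith)))
  have hWs : ∀ p ∈ Metric.ball p₀ r, e.symm p ∈ W ↔ p ∈ Metric.ball p₀ (r / 2) := by
    intro p hp
    rw [hWd]
    constructor
    · rintro ⟨_, h⟩
      rwa [mem_preimage, e.right_inv (hV hp)] at h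
    · intro h
      refine ⟨e.map_target (hV hp), ?_⟩
      rwa [mem_preimage, e.right_inv (hV hp)]
  -- the cut-off function
  obtain ⟨χ, hχ⟩ : ∃ χ : ContDiffBump p₀, χ.rOut = r / 2 :=
    ⟨⟨r / 4, r / 2, by positivity, by linarith⟩, rfl⟩
  have hχt : tsupport χ = Metric.closedBall p₀ (r / 2) := by rw [χ.tsupport_eq, hχ]
  have hχ0 : ∀ p, χ p = 0 ↔ p ∉ Metric.ball p₀ (r / 2) := by
    intro p
    rw [← hχ, ← χ.support_eq, Function.notMem_support]
  have htV : Metric.closedBall p₀ (r / 2) ⊆ Metric.ball p₀ r :=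
    Metric.closedBall_subset_ball (by linarith)
  refine ⟨W, hW, ?_, ?_⟩
  · rw [hWd]
    refine ⟨hzs, ?_⟩
    rw [mem_preimage, hez]
    exact Metric.mem_ball_self (by linarith)
  intro K w hK hRT
  obtain ⟨B₁, N₁, hB₁, hN₁, hwB⟩ := hRT.bdd
  obtain ⟨c₁, N₂, hc₁, hN₂, hwc⟩ := hRT.pos
  obtain ⟨k, hk⟩ : ∃ k, k = Metric.ball p₀ r ∩ e.symm ⁻¹' K := ⟨_, rfl⟩
  have hVk : Metric.ball p₀ r \ k = Metric.ball p₀ r ∩ e.symm ⁻¹' Kᶜ := by
    rw [hk]
    ext p
    simp only [Set.mem_sdiff, mem_inter_iff, mem_preimage, mem_compl_iff]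
    tauto
  have hVko : IsOpen (Metric.ball p₀ r \ k) := by
    rw [hVk]
    have h1 : IsOpen (e.target ∩ e.symm ⁻¹' Kᶜ) := e.isOpen_inter_preimage_symm hK.isOpen_compl
    have h2 : Metric.ball p₀ r ∩ e.symm ⁻¹' Kᶜ = Metric.ball p₀ r ∩ (e.target ∩ e.symm ⁻¹' Kᶜ) := by
      rw [← inter_assoc, inter_eq_left.2 hV]
    rw [h2]
    exact Metric.isOpen_ball.inter h1
  have hsK : ∀ p ∈ Metric.ball p₀ r \ k, e.symm p ∉ K := by
    intro p hp
    rw [hVk] at hp
    exact hp.2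
  have hsymm : ContMDiffOn (𝓡 d) (𝓡 d) ∞ (chartAt (E d) z).symm (Metric.ball p₀ r) :=
    contMDiffOn_chart_symm.mono (by rw [← he]; exact hV)
  have hs1 : ContDiffOn ℝ ∞ (pb (chartAt (E d) z).symm w) (Metric.ball p₀ r \ k) :=
    hRT.smooth _ _ hVko (hsymm.mono sdiff_subset) (by rw [← he]; exact hsK)
  have hs2 : ∀ p ∈ Metric.ball p₀ r \ k, extDeriv (pb (chartAt (E d) z).symm w) p = 0 := by
    intro p hp
    have h1 := hRT.closed _ _ hVko (hsymm.mono sdiff_subset) (by rw [← he]; exact hsK) p hp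
    rw [h1, pb_zero]
    rfl
  have hlc : ∀ p ∈ Metric.ball p₀ r, LCE (pb (chartAt (E d) z).symm w) p := by
    intro p hp
    have h1 : p ∈ (chartAt (E d) z).target := by rw [← he]; exact hV hp
    have h2 := (hRT.lc ((chartAt (E d) z).symm p)).toE hF hFi z ((chartAt (E d) z).map_target h1)
    rwa [(chartAt (E d) z).right_inv h1] at h2
  have hs3 : ∀ᵐ p : E d, p ∈ Metric.ball p₀ r →
      ‖pb (chartAt (E d) z).symm w p‖ ≤ B₁ * Ci * Ci := by
    filter_upwards [hN₁.ae z] with p hpN hp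
    refine norm_le2 _ (by positivity) fun v u => ?_
    rw [pb_app2]
    have hpc : p ∈ Metric.closedBall p₀ r := Metric.ball_subset_closedBall hp
    have h1 := hwB _ (hpN (by rw [← he]; exact hV hp))
      (mfderiv (𝓡 d) (𝓡 d) (chartAt (E d) z).symm p v)
      (mfderiv (𝓡 d) (𝓡 d) (chartAt (E d) z).symm p u)
    refine h1.trans ?_
    have h2 := (hnm p hpc v).2
    have h3 := (hnm p hpc u).2
    have h4 : 0 ≤ nm F ((chartAt (E d) z).symm p)
      (mfderiv (𝓡 d) (𝓡 d) (chartAt (E d) z).symm p u) := norm_nonneg _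
    calc _ ≤ B₁ * (Ci * ‖v‖) * (Ci * ‖u‖) := by gcongr
      _ = B₁ * Ci * Ci * ‖v‖ * ‖u‖ := by ring
  have hs4 : ∀ᵐ p : E d, p ∈ Metric.ball p₀ r → ∀ v : E d, c₁ * ci ^ 2 * ‖v‖ ^ 2 ≤
      pb (chartAt (E d) z).symm w p ![v, inChart J z p v] := by
    filter_upwards [hN₂.ae z] with p hpN hp v
    have hpc : p ∈ Metric.closedBall p₀ r := Metric.ball_subset_closedBall hp
    have h0 := Q_eq w J z (p := p) (by rw [← he]; exact hV hp) v
    unfold Q at h0
    rw [h0]
    have h1 := hwc ((chartAt (E d) z).symm p) (hpN (by rw [← he]; exact hV hp))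
      (Pool.Agent.Y455.SY.A z p v)
    refine le_trans ?_ h1
    have h2 := (hnm p hpc v).1
    have h3 : (ci * ‖v‖) ^ 2 ≤ nm F ((chartAt (E d) z).symm p)
        (Pool.Agent.Y455.SY.A z p v) ^ 2 := by
      have : 0 ≤ ci * ‖v‖ := by positivity
      exact pow_le_pow_left₀ this h2 2
    calc _ = c₁ * (ci * ‖v‖) ^ 2 := by ring
      _ ≤ _ := by gcongr
  have hJV : ContinuousOn (inChart J z) (Metric.ball p₀ r) := (hJc z).mono (by
    rw [← he]; exact hV)
  obtain ⟨s', b', hb', g1, g2, g3, g4, g5, g6⟩ := regE Pool.Agent.Y932.SY.Ker.t_KER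
    Pool.Agent.Y394.SY.t_SM (V := Metric.ball p₀ r) (k := k) (χ := χ)
    (s := pb (chartAt (E d) z).symm w) (Js := inChart J z) (b := B₁ * Ci * Ci)
    (c := c₁ * ci ^ 2) (by positivity) (by positivity) Metric.isOpen_ball hVko χ.contDiff
    (fun p => χ.nonneg) χ.hasCompactSupport (by rw [hχt]; exact htV) hs1 hs2 hlc hs3 hJV hs4
  -- the new rough set
  have hKW : IsClosed (K \ W) := by
    rw [sdiff_eq]
    exact hK.inter hW.isClosed_compl
  have hset : (chartAt (E d) z '' O) \ (chartAt (E d) z '' ((K \ W) ∩ O)) =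
      Metric.ball p₀ r \ (k ∩ {p | χ p = 0}) := by
    rw [← he, heO]
    ext p
    constructor
    · rintro ⟨hp, hn⟩
      refine ⟨hp, ?_⟩
      rintro ⟨h1, h2⟩
      apply hn
      rw [hk] at h1
      refine ⟨e.symm p, ⟨⟨h1.2, ?_⟩, ?_⟩, e.right_inv (hV hp)⟩
      · rw [hWs p hp]
        exact (hχ0 p).1 h2
      · rw [hOd]
        refine ⟨e.map_target (hV hp), ?_⟩
        rwa [mem_preimage, e.right_inv (hV hp)]
    · rintro ⟨hp, hn⟩
      refine ⟨hp, ?_⟩
      rintro ⟨x, ⟨⟨hxK, hxW⟩, hxO⟩, rfl⟩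
      apply hn
      have hxs := hOs hxO
      refine ⟨?_, ?_⟩
      · rw [hk]
        refine ⟨hp, ?_⟩
        change e.symm (e x) ∈ K
        rwa [e.left_inv hxs]
      · change χ (e x) = 0
        rw [hχ0, ← hWs _ hp, e.left_inv hxs]
        exact hxW
  obtain ⟨f1, f2, f3, f4⟩ := Pool.Agent.Y949.SY.t_PATCH2 d X z O K (K \ W)
    (Metric.closedBall p₀ (r / 2)) s' w hO
    (by rw [← he]; exact hOs) hKW sdiff_subset (isCompact_closedBall _ _)
    (by rw [← he, heO]; exact htV)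
    (by
      intro x hx hx2
      have hxW : x ∈ W := by
        by_contra h
        exact hx2 ⟨hx, h⟩
      refine ⟨hWO hxW, ?_⟩
      rw [← he]
      rw [hWd] at hxW
      exact Metric.ball_subset_closedBall hxW.2)
    (by rw [hset]; exact g1) (by rw [hset]; exact g2)
    (by
      intro p hp
      apply g5
      rw [hχ0]
      exact fun h => hp.2 (Metric.ball_subset_closedBall h))
    hRT.smooth hRT.closed
  have hout : ∀ x, x ∉ O → patch z O s' w x = w x := fun x hx => f3 x (Or.inl hx)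
  have hin : ∀ x ∈ O, ∃ p ∈ Metric.ball p₀ r, e.symm p = x ∧ e x = p := by
    intro x hx
    rw [hOd] at hx
    exact ⟨e x, hx.2, e.left_inv hx.1, rfl⟩
  refine ⟨patch z O s' w, ⟨f1, f2, ?_, ?_, ?_⟩⟩
  · -- rough closedness
    intro x
    by_cases hxO : x ∈ O
    · refine LCE.toM hF hFi z (by rw [← he]; exact hOs hxO) ?_
      have hxb : chartAt (E d) z x ∈ Metric.ball p₀ r := by
        rw [hOd, he] at hxO
        exact hxO.2
      refine (g3 _ hxb).congr ?_
      filter_upwards [Metric.isOpen_ball.mem_nhds hxb] with q hq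
      exact f4 q (by rw [← he, heO]; exact hq)
    · refine (hRT.lc x).congr ?_
      have hMc : IsClosed (e.symm '' Metric.closedBall p₀ (r / 2)) :=
        ((isCompact_closedBall _ _).image_of_continuousOn
          (e.continuousOn_symm.mono (htV.trans hV))).isClosed
      have hxM : x ∉ e.symm '' Metric.closedBall p₀ (r / 2) := by
        rintro ⟨p, hp, rfl⟩
        apply hxO
        rw [hOd]
        refine ⟨e.map_target (hV (htV hp)), ?_⟩
        rw [mem_preimage, e.right_inv (hV (htV hp))]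
        exact htV hp
      filter_upwards [hMc.isOpen_compl.mem_nhds hxM] with y hy
      by_cases hyO : y ∈ O
      · refine f3 y (Or.inr fun h => hy ?_)
        rw [← he] at h
        exact ⟨e y, h, e.left_inv (hOs hyO)⟩
      · exact hout y hyO
  · have hnull := cnull_of_ae z g4
    refine ⟨max B₁ (b' * ci⁻¹ * ci⁻¹), N₁ ∪ _, lt_max_of_lt_left hB₁, hN₁.union hnull, ?_⟩
    intro x hx v u
    have hx1 : x ∉ N₁ := fun h => hx (Or.inl h)
    have n1 : 0 ≤ nm F x v := norm_nonneg _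
    have n2 : 0 ≤ nm F x u := norm_nonneg _
    by_cases hxO : x ∈ O
    · obtain ⟨p, hp, hpx, hxp⟩ := hin x hxO
      have hs'p : ‖s' p‖ ≤ b' := by
        by_contra hne
        apply hx
        right
        rw [he] at hxp hOs
        refine ⟨hOs hxO, ?_, ?_⟩
        · rw [hxp]; exact hp
        · rw [hxp]; exact hne
      have hpc : p ∈ Metric.closedBall p₀ r := Metric.ball_subset_closedBall hp
      have hpt : p ∈ (chartAt (E d) z).target := by rw [← he]; exact hV hp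
      subst hpx
      subst he
      have hv := AB z hpt v
      have hu := AB z hpt u
      obtain ⟨v', hv'⟩ : ∃ v', v' = Pool.Agent.Y455.SY.B z p v := ⟨_, rfl⟩
      obtain ⟨u', hu'⟩ : ∃ u', u' = Pool.Agent.Y455.SY.B z p u := ⟨_, rfl⟩
      rw [← hv'] at hv
      rw [← hu'] at hu
      have h1 : patch z O s' w ((chartAt (E d) z).symm p) ![v, u] = s' p ![v', u'] := by
        have h2 := f4 p (by rw [heO]; exact hp)
        rw [← h2, pb_app2]
        change _ = patch z O s' w ((chartAt (E d) z).symm p) ![Pool.Agent.Y455.SY.A z p v',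
          Pool.Agent.Y455.SY.A z p u']
        rw [hv, hu]
      rw [h1]
      have h3 := le_norm2 (s' p) v' u'
      have h4 := (hnm p hpc v').1
      have h5 := (hnm p hpc u').1
      change ci * ‖v'‖ ≤ nm F ((chartAt (E d) z).symm p) (Pool.Agent.Y455.SY.A z p v') at h4
      change ci * ‖u'‖ ≤ nm F ((chartAt (E d) z).symm p) (Pool.Agent.Y455.SY.A z p u') at h5
      rw [hv] at h4
      rw [hu] at h5
      have h6 : ‖v'‖ ≤ ci⁻¹ * nm F ((chartAt (E d) z).symm p) v := by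
        rw [inv_mul_eq_div, le_div_iff₀ hci, mul_comm]
        exact h4
      have h7 : ‖u'‖ ≤ ci⁻¹ * nm F ((chartAt (E d) z).symm p) u := by
        rw [inv_mul_eq_div, le_div_iff₀ hci, mul_comm]
        exact h5
      calc |s' p ![v', u']| ≤ ‖s' p‖ * ‖v'‖ * ‖u'‖ := h3
        _ ≤ b' * (ci⁻¹ * nm F ((chartAt (E d) z).symm p) v) *
            (ci⁻¹ * nm F ((chartAt (E d) z).symm p) u) := by gcongr
        _ = (b' * ci⁻¹ * ci⁻¹) * nm F ((chartAt (E d) z).symm p) v *
            nm F ((chartAt (E d) z).symm p) u := by ring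
        _ ≤ _ := by
          have := le_max_right B₁ (b' * ci⁻¹ * ci⁻¹)
          gcongr
    · rw [hout x hxO]
      refine (hwB x hx1 v u).trans ?_
      have := le_max_left B₁ (b' * ci⁻¹ * ci⁻¹)
      gcongr
  · have hnull := cnull_of_ae z g6
    refine ⟨min c₁ (c₁ * ci ^ 2 / 2 * (Ci⁻¹) ^ 2), N₂ ∪ _, lt_min hc₁ (by positivity),
      hN₂.union hnull, ?_⟩
    intro x hx v
    have hx1 : x ∉ N₂ := fun h => hx (Or.inl h)
    by_cases hxO : x ∈ O
    · obtain ⟨p, hp, hpx, hxp⟩ := hin x hxO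
      have hs'p : ∀ v : E d, c₁ * ci ^ 2 / 2 * ‖v‖ ^ 2 ≤ s' p ![v, inChart J z p v] := by
        by_contra hne
        apply hx
        right
        rw [he] at hxp hOs
        refine ⟨hOs hxO, ?_, ?_⟩
        · rw [hxp]; exact hp
        · rw [hxp]; exact hne
      have hpc : p ∈ Metric.closedBall p₀ r := Metric.ball_subset_closedBall hp
      have hpt : p ∈ (chartAt (E d) z).target := by rw [← he]; exact hV hp
      subst hpx
      subst he
      have hv := AB z hpt v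
      obtain ⟨v', hv'⟩ : ∃ v', v' = Pool.Agent.Y455.SY.B z p v := ⟨_, rfl⟩
      rw [← hv'] at hv
      have h0 := Q_eq (patch z O s' w) J z hpt v'
      unfold Q at h0
      rw [hv, f4 p (by rw [heO]; exact hp)] at h0
      rw [← h0]
      refine le_trans ?_ (hs'p v')
      have h4 := (hnm p hpc v').2
      change nm F ((chartAt (E d) z).symm p) (Pool.Agent.Y455.SY.A z p v') ≤ Ci * ‖v'‖ at h4
      rw [hv] at h4
      have n1 : 0 ≤ nm F ((chartAt (E d) z).symm p) v := norm_nonneg _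
      have h6 : Ci⁻¹ * nm F ((chartAt (E d) z).symm p) v ≤ ‖v'‖ := by
        rw [inv_mul_eq_div, div_le_iff₀ hCi, mul_comm]
        exact h4
      have h7 : (Ci⁻¹ * nm F ((chartAt (E d) z).symm p) v) ^ 2 ≤ ‖v'‖ ^ 2 :=
        pow_le_pow_left₀ (by positivity) h6 2
      have h8 : 0 ≤ c₁ * ci ^ 2 / 2 := by positivity
      calc min c₁ (c₁ * ci ^ 2 / 2 * (Ci⁻¹) ^ 2) * nm F ((chartAt (E d) z).symm p) v ^ 2
          ≤ (c₁ * ci ^ 2 / 2 * (Ci⁻¹) ^ 2) * nm F ((chartAt (E d) z).symm p) v ^ 2 := by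
            have := min_le_right c₁ (c₁ * ci ^ 2 / 2 * (Ci⁻¹) ^ 2)
            gcongr
        _ = c₁ * ci ^ 2 / 2 * (Ci⁻¹ * nm F ((chartAt (E d) z).symm p) v) ^ 2 := by ring
        _ ≤ _ := by gcongr
    · rw [hout x hxO]
      refine le_trans ?_ (hwc x hx1 v)
      have := min_le_left c₁ (c₁ * ci ^ 2 / 2 * (Ci⁻¹) ^ 2)
      gcongr

end

end Pool.Agent.Helper76K9.RF
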