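import Pool.Agent.Helper76K9.RF.Nd
import Pool.Agent.Q186.FL.Triv

/-!
Rough closed forms with values in a flat line bundle.
-/

set_option autoImplicit false

open Set Filter Topology MeasureTheory Metric
open scoped Manifold ContDiff

noncomputable section

namespace Pool.Agent.Helper76K9.RF

open Pool.Agent.Y501.SY
open Pool.Agent.Y515.SY (Al finAl evL evL_inj bs two_bound)
open Pool.Agent.Y455.SY (A B AB BA A_surj Q Q_eq tames_iff)
open Pool.Agent.Y929.SY (ev_of_chart ev_to_chart near pb_apply2 pos_near)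

section

variable {d : ℕ} {X : Type} [TopologicalSpace X] [ChartedSpace (E d) X]

theorem cnull_iUnion {ι : Type*} [Countable ι] (N : ι → Set X)
    (h : ∀ i, CNull (d := d) (N i)) : CNull (d := d) (⋃ i, N i) := by
  intro x₀
  rw [iUnion_inter, image_iUnion]
  exact measure_iUnion_null fun i => h i x₀

theorem cnull_of_local [SecondCountableTopology X] {S : Set X}
    (h : ∀ x ∈ S, ∃ O ∈ 𝓝 x, CNull (d := d) (S ∩ O)) : CNull (d := d) S := by
  choose! O hO hS using h
  obtain ⟨t, htS, htc, hcov⟩ := TopologicalSpace.countable_cover_nhdsWithin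
    (fun x hx => mem_nhdsWithin_of_mem_nhds (hO x hx))
  have : Countable ↥t := htc.to_subtype
  refine (cnull_iUnion (d := d) (fun x : ↥t => S ∩ O x) fun x => hS x (htS x.2)).mono ?_
  intro y hy
  obtain ⟨x, hx, hyx⟩ := mem_iUnion₂.1 (hcov hy)
  exact mem_iUnion.2 ⟨⟨x, hx⟩, hy, hyx⟩

end

section

variable {d : ℕ} {X : Type} [TopologicalSpace X] [ChartedSpace (E d) X]
  [IsManifold (𝓡 d) ∞ X]

theorem exists_glob [CompactSpace X] [T2Space X] [SimplyConnectedSpace X] {ι : Type}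
    {U : ι → Set X} {c : ι → ι → X → ℝ} {σ : ι → Form d X 2}
    (hU : ∀ i, IsOpen (U i)) (hcov : ∀ x, ∃ i, x ∈ U i)
    (hpos : ∀ i j, ∀ x ∈ U i ∩ U j, 0 < c i j x)
    (hconst : ∀ i j, ∀ x ∈ U i ∩ U j, ∀ᶠ y in 𝓝 x, c i j y = c i j x)
    (hcoc : ∀ i j k, ∀ x ∈ U i ∩ U j ∩ U k, c i j x * c j k x = c i k x)
    (htrans : ∀ i j, ∀ x ∈ U i ∩ U j, AEC x fun p =>
      pb (chartAt (E d) x).symm (σ i) p = c i j x • pb (chartAt (E d) x).symm (σ j) p) :
    ∃ (τ : Form d X 2) (g : ι → X → ℝ), (∀ i, ∀ x ∈ U i, 0 < g i x) ∧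
      ∀ i, ∀ x ∈ U i, ∃ N : Set X, CNull (d := d) N ∧ ∀ᶠ y in 𝓝 x, y ∉ N →
        τ y = g i x • σ i y := by
  classical
  have : LocallyPathConnectedSpace X := ChartedSpace.locallyPathConnectedSpace (E d) X
  have : SecondCountableTopology X := ChartedSpace.secondCountable_of_sigmaCompact (E d) X
  -- the functions
  obtain ⟨g', hg1', hg2'⟩ := Pool.Agent.Q186.FL.triv U hU hcov
    (fun i j x => Real.log (c i j x))
    (fun i j x hx => (hconst i j x hx).mono fun y hy => by rw [hy])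
    (fun i j k x hx => by
      rw [← Real.log_mul (hpos i j x hx.1).ne' (hpos j k x ⟨hx.1.2, hx.2⟩).ne',
        hcoc i j k x hx])
  obtain ⟨g, hg0, hg1, hg2⟩ : ∃ g : ι → X → ℝ, (∀ i x, 0 < g i x) ∧
      (∀ i, ∀ x ∈ U i, ∀ᶠ y in 𝓝 x, g i y = g i x) ∧
      ∀ i j, ∀ x ∈ U i ∩ U j, g i x * c i j x = g j x := by
    refine ⟨fun i x => Real.exp (g' i x), fun i x => Real.exp_pos _,
      fun i x hx => (hg1' i x hx).mono fun y hy => by simp only [hy], ?_⟩
    intro i j x hx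
    show Real.exp (g' i x) * c i j x = Real.exp (g' j x)
    rw [hg2' i j x hx, Real.exp_add, Real.exp_log (hpos i j x hx)]
  -- the null sets
  have hnull : ∀ i j, CNull (d := d) {y | y ∈ U i ∩ U j ∧ σ i y ≠ c i j y • σ j y} := by
    intro i j
    refine cnull_of_local fun x hx => ?_
    obtain ⟨N, hN, h1⟩ := (htrans i j x hx.1).cnull
    have h2 := (h1.and ((hconst i j x hx.1).and
      ((chartAt (E d) x).open_source.mem_nhds (mem_chart_source (E d) x))))
    refine ⟨_, h2, hN.mono ?_⟩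
    rintro y ⟨⟨-, hy1⟩, hy2, hy3, hy4⟩
    by_contra hyN
    apply hy1
    have h3 := hy2 hyN
    obtain ⟨p, hp⟩ : ∃ p, p = chartAt (E d) x y := ⟨_, rfl⟩
    have hpt : p ∈ (chartAt (E d) x).target := by rw [hp]; exact (chartAt (E d) x).map_source hy4
    have hyp : y = (chartAt (E d) x).symm p := by rw [hp, (chartAt (E d) x).left_inv hy4]
    rw [← hp] at h3
    rw [hy3]
    subst hyp
    ext m
    obtain ⟨v, hv⟩ := A_surj x hpt (m 0)
    obtain ⟨w, hw⟩ := A_surj x hpt (m 1)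
    have h4 : m = ![A x p v, A x p w] := by
      funext k
      fin_cases k
      · exact hv.symm
      · exact hw.symm
    rw [h4]
    have h5 := DFunLike.congr_fun h3 ![v, w]
    rw [pb_apply2] at h5
    refine h5.trans ?_
    have h6 : (c i j x • pb (chartAt (E d) x).symm (σ j) p) ![v, w] =
      c i j x * pb (chartAt (E d) x).symm (σ j) p ![v, w] := rfl
    rw [h6, pb_apply2]
    rfl
  -- a finite set of indices
  choose idx hidx using hcov
  obtain ⟨t, -, htc⟩ := (isCompact_univ (X := X)).elim_nhds_subcover (fun x => U (idx x))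
    (fun x _ => (hU _).mem_nhds (hidx x))
  have hi : ∀ y : X, ∃ x ∈ t, y ∈ U (idx x) := fun y => by
    obtain ⟨x, hx, hxy⟩ := mem_iUnion₂.1 (htc (mem_univ y))
    exact ⟨x, hx, hxy⟩
  choose q hqt hqU using hi
  refine ⟨fun y => g (idx (q y)) y • σ (idx (q y)) y, g, fun i x _ => hg0 i x, ?_⟩
  intro j x hx
  refine ⟨⋃ z ∈ t, {y | y ∈ U (idx z) ∩ U j ∧ σ (idx z) y ≠ c (idx z) j y • σ j y},
    cnull_biUnion t _ fun z _ => hnull (idx z) j, ?_⟩
  filter_upwards [hg1 j x hx, (hU j).mem_nhds hx] with y hy1 hy2 hyN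
  have h1 : σ (idx (q y)) y = c (idx (q y)) j y • σ j y := by
    by_contra hne
    exact hyN (mem_iUnion₂.2 ⟨q y, hqt y, ⟨hqU y, hy2⟩, hne⟩)
  show g (idx (q y)) y • σ (idx (q y)) y = g j x • σ j y
  rw [h1, smul_smul, hg2 _ j y ⟨hqU y, hy2⟩, hy1]

end

end Pool.Agent.Helper76K9.RF
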