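import Pool.Agent.Helper76K9.RF.Tw
import Pool.Agent.Helper76K9.RF.Dist

/-!
Rough closed forms with values in a flat line bundle: the main theorems.
-/

set_option autoImplicit false

open Set Filter Topology MeasureTheory Metric
open scoped Manifold ContDiff

noncomputable section

namespace Pool.Agent.Helper76K9.RF

open Pool.Agent.Y501.SY
open Pool.Agent.Y515.SY (Al finAl evL evL_inj bs two_bound)
open Pool.Agent.Y455.SY (A B AB BA A_surj Q Q_eq tames_iff)
open Pool.Agent.Y929.SY (ev_of_chart ev_to_chart near pb_apply2 pos_near)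

section

variable {d : ℕ} {X : Type} [TopologicalSpace X] [ChartedSpace (E d) X]

theorem AEC.and {x : X} {P P' : E d → Prop} (h : AEC x P) (h' : AEC x P') :
    AEC x fun p => P p ∧ P' p := by
  obtain ⟨r, hr, h⟩ := h
  obtain ⟨r', hr', h'⟩ := h'
  refine ⟨min r r', lt_min hr hr', ?_⟩
  filter_upwards [h, h'] with p h1 h2 hp
  exact ⟨h1 (ball_subset_ball (min_le_left _ _) hp), h2 (ball_subset_ball (min_le_right _ _) hp)⟩

theorem AEC.mono {x : X} {P P' : E d → Prop} (h : AEC x P) (h' : ∀ p, P p → P' p) : AEC x P' := by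
  obtain ⟨r, hr, h⟩ := h
  exact ⟨r, hr, h.mono fun p hp hpb => h' p (hp hpb)⟩

theorem AEC.of_cnull {x : X} {P : X → Prop} {N : Set X} (hN : CNull (d := d) N)
    (h : ∀ᶠ y in 𝓝 x, y ∉ N → P y) :
    AEC (d := d) x fun p => P ((chartAt (E d) x).symm p) := by
  have h1 := (ev_to_chart (d := d) h).and
    ((chartAt (E d) x).open_target.mem_nhds (mem_chart_target (E d) x))
  obtain ⟨r, hr, h2⟩ := Metric.eventually_nhds_iff_ball.1 h1
  refine ⟨r, hr, ?_⟩
  filter_upwards [hN.ae x] with p hp hpb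
  exact (h2 p hpb).1 (hp (h2 p hpb).2)

theorem AEC.target (x : X) : AEC (d := d) x fun p => p ∈ (chartAt (E d) x).target := by
  obtain ⟨r, hr, h⟩ := Metric.nhds_basis_ball.mem_iff.1
    ((chartAt (E d) x).open_target.mem_nhds (mem_chart_target (E d) x))
  exact ⟨r, hr, Eventually.of_forall fun p hp => h hp⟩

theorem pb_of_smul {φ : E d → X} {σ σ' : Form d X 2} {a : ℝ}
    {p : E d} (h : σ' (φ p) = a • σ (φ p)) : pb φ σ' p = a • pb φ σ p := by
  unfold pb
  rw [h]
  rfl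

end

section

variable {d : ℕ} {X : Type} [TopologicalSpace X] [ChartedSpace (E d) X]
  [IsManifold (𝓡 d) ∞ X]

omit [IsManifold (𝓡 d) ∞ X] in
theorem UND.scale {σ τ : Form d X 2} {x : X} {g : ℝ} (hg : 0 < g) {N : Set X}
    (hN : CNull (d := d) N) (h : ∀ᶠ y in 𝓝 x, y ∉ N → τ y = g • σ y) (hσ : UND σ x) :
    UND τ x := by
  obtain ⟨T, c, hc, hT⟩ := hσ
  refine ⟨T, g * c, by positivity, (hT.and (AEC.of_cnull hN h)).mono ?_⟩
  rintro p ⟨h1, h2⟩ v
  rw [pb_of_smul h2]
  have h3 : (g • pb (chartAt (E d) x).symm σ p) ![v, T v] =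
    g * pb (chartAt (E d) x).symm σ p ![v, T v] := rfl
  rw [h3, mul_assoc]
  exact mul_le_mul_of_nonneg_left (h1 v) hg.le

theorem UP.scale {m : ℕ} {F : X → E m} (hF : ContMDiff (𝓡 d) (𝓡 m) ∞ F)
    (hFi : ∀ x, Function.Injective (mfderiv (𝓡 d) (𝓡 m) F x)) {J : End d X}
    {σ τ : Form d X 2} {x : X} {g : ℝ} (hg : 0 < g) {N : Set X}
    (hN : CNull (d := d) N) (h : ∀ᶠ y in 𝓝 x, y ∉ N → τ y = g • σ y) (hσ : UP σ J x) :
    UP τ J x := by
  obtain ⟨c, N', hc, hN', h'⟩ := (UP_iff hF hFi σ J x).1 hσ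
  refine (UP_iff hF hFi τ J x).2 ⟨g * c, N ∪ N', by positivity, hN.union hN', ?_⟩
  filter_upwards [h, h'] with y h1 h2 hy v
  rw [h1 fun h => hy (Or.inl h)]
  have h3 : (g • σ y) ![v, J y v] = g * σ y ![v, J y v] := rfl
  rw [h3, mul_assoc]
  exact mul_le_mul_of_nonneg_left (h2 (fun h => hy (Or.inr h)) v) hg.le

theorem UP.scale_iff {m : ℕ} {F : X → E m} (hF : ContMDiff (𝓡 d) (𝓡 m) ∞ F)
    (hFi : ∀ x, Function.Injective (mfderiv (𝓡 d) (𝓡 m) F x)) {J : End d X}
    {σ τ : Form d X 2} {x : X} {g : ℝ} (hg : 0 < g) {N : Set X}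
    (hN : CNull (d := d) N) (h : ∀ᶠ y in 𝓝 x, y ∉ N → τ y = g • σ y) :
    UP τ J x ↔ UP σ J x := by
  refine ⟨UP.scale hF hFi (inv_pos.2 hg) hN ?_, UP.scale hF hFi hg hN h⟩
  filter_upwards [h] with y hy hyN
  rw [hy hyN, smul_smul, inv_mul_cancel₀ hg.ne', one_smul]

/-- uniform positivity almost everywhere -/
theorem UP_iff_AEC {σ : Form d X 2} {J : End d X} {x : X} :
    UP σ J x ↔ ∃ c : ℝ, 0 < c ∧ AEC x fun p => ∀ v : E d,
      c * ‖v‖ ^ 2 ≤ pb (chartAt (E d) x).symm σ p ![v, inChart J x p v] := by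
  constructor
  · rintro ⟨N, hN, c, hc, h⟩
    obtain ⟨r, hr, h2⟩ := Metric.eventually_nhds_iff_ball.1 h
    obtain ⟨r', hr', h3⟩ := Metric.nhds_basis_ball.mem_iff.1
      ((chartAt (E d) x).open_target.mem_nhds (mem_chart_target (E d) x))
    refine ⟨c, hc, min r r', lt_min hr hr', ?_⟩
    filter_upwards [hN.ae x] with p hp hpb v
    exact h2 p (ball_subset_ball (min_le_left _ _) hpb)
      (hp (h3 (ball_subset_ball (min_le_right _ _) hpb))) v
  · rintro ⟨c, hc, r, hr, h⟩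
    refine ⟨_, cnull_of_ae (d := d) x h, c, hc, ?_⟩
    filter_upwards [ball_mem_nhds (chartAt (E d) x x) hr,
      (chartAt (E d) x).open_target.mem_nhds (mem_chart_target (E d) x)] with p hp hpt hpN
    by_contra hne
    refine hpN ⟨(chartAt (E d) x).map_target hpt, ?_, ?_⟩
    · rw [(chartAt (E d) x).right_inv hpt]
      exact hp
    · rw [(chartAt (E d) x).right_inv hpt]
      exact hne

/-- twisted data -/
structure TwD {ι : Type} (U : ι → Set X) (c : ι → ι → X → ℝ) (σ : ι → Form d X 2) : Prop where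
  isOpen : ∀ i, IsOpen (U i)
  cover : ∀ x, ∃ i, x ∈ U i
  pos : ∀ i j, ∀ x ∈ U i ∩ U j, 0 < c i j x
  const : ∀ i j, ∀ x ∈ U i ∩ U j, ∀ᶠ y in 𝓝 x, c i j y = c i j x
  coc : ∀ i j k, ∀ x ∈ U i ∩ U j ∩ U k, c i j x * c j k x = c i k x
  trans : ∀ i j, ∀ x ∈ U i ∩ U j, AEC x fun p =>
      pb (chartAt (E d) x).symm (σ i) p = c i j x • pb (chartAt (E d) x).symm (σ j) p

theorem tw_nondeg [CompactSpace X] [T2Space X] [SimplyConnectedSpace X] {ι : Type}
    {U : ι → Set X} {c : ι → ι → X → ℝ} {σ : ι → Form d X 2} (h : TwD U c σ)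
    {m : ℕ} {F : X → E m} (hF : ContMDiff (𝓡 d) (𝓡 m) ∞ F)
    (hFi : ∀ x, Function.Injective (mfderiv (𝓡 d) (𝓡 m) F x))
    (hLC : ∀ i, ∀ x ∈ U i, LCM F (σ i) x) (hND : ∀ i, ∀ x ∈ U i, UND (σ i) x) :
    ∃ w : Form d X 2, IsSmooth w ∧ IsClosedForm w ∧
      ∀ (x : X) (v : TangentSpace (𝓡 d) x), (∀ u, w x ![v, u] = 0) → v = 0 := by
  obtain ⟨τ, g, hg, hτ⟩ := exists_glob h.isOpen h.cover h.pos h.const h.coc h.trans
  refine nondeg_main hF hFi (σ := τ) (fun x => ?_) (fun x => ?_)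
  · obtain ⟨i, hi⟩ := h.cover x
    obtain ⟨N, hN, h1⟩ := hτ i x hi
    exact ((hLC i x hi).smul (g i x)).congr_ae hN h1
  · obtain ⟨i, hi⟩ := h.cover x
    obtain ⟨N, hN, h1⟩ := hτ i x hi
    exact UND.scale (hg i x hi) hN h1 (hND i x hi)

/-- the critical set -/
def twCrit {ι : Type} (U : ι → Set X) (σ : ι → Form d X 2) (J : End d X) : Set X :=
  {x | ∃ i, x ∈ U i ∧ ¬ UP (σ i) J x}

theorem tw_weak [CompactSpace X] [T2Space X] [SimplyConnectedSpace X] (hd : 1 ≤ d) {ι : Type}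
    {U : ι → Set X} {c : ι → ι → X → ℝ} {σ : ι → Form d X 2} (h : TwD U c σ)
    {m : ℕ} {F : X → E m} (hF : ContMDiff (𝓡 d) (𝓡 m) ∞ F)
    (hFi : ∀ x, Function.Injective (mfderiv (𝓡 d) (𝓡 m) F x))
    {J : End d X} (hJ : IsAlmostComplex J)
    (hLC : ∀ i, ∀ x ∈ U i, LCM F (σ i) x)
    (hnn : ∀ i, ∀ x ∈ U i, AEC x fun p => ∀ v : E d,
      0 ≤ pb (chartAt (E d) x).symm (σ i) p ![v, inChart J x p v])
    (hthin : ∀ z ∈ twCrit U σ J, ThinAt2 0 0 J (connectedComponentIn (twCrit U σ J) z) z) :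
    ∃ w : Form d X 2, IsSmooth w ∧ IsClosedForm w ∧ ∀ x, TamesAt w J x := by
  obtain ⟨τ, g, hg, hτ⟩ := exists_glob h.isOpen h.cover h.pos h.const h.coc h.trans
  have hcrit : twCrit U σ J = {x | ¬ UP τ J x} := by
    ext x
    constructor
    · rintro ⟨i, hi, h1⟩ h2
      obtain ⟨N, hN, h3⟩ := hτ i x hi
      exact h1 ((UP.scale_iff hF hFi (hg i x hi) hN h3).1 h2)
    · intro h1
      obtain ⟨i, hi⟩ := h.cover x
      obtain ⟨N, hN, h3⟩ := hτ i x hi
      exact ⟨i, hi, fun h2 => h1 ((UP.scale_iff hF hFi (hg i x hi) hN h3).2 h2)⟩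
  have hlc : ∀ x, LCM F τ x := fun x => by
    obtain ⟨i, hi⟩ := h.cover x
    obtain ⟨N, hN, h1⟩ := hτ i x hi
    exact ((hLC i x hi).smul (g i x)).congr_ae hN h1
  obtain ⟨N, hN, hpos⟩ := glob_ae' (d := d) (X := X)
    (fun y => ∀ v : TangentSpace (𝓡 d) y, 0 ≤ τ y ![v, J y v]) (fun x => by
      obtain ⟨i, hi⟩ := h.cover x
      obtain ⟨N, hN, h1⟩ := hτ i x hi
      obtain ⟨N', hN', h2⟩ := (hnn i x hi).cnull
      refine ⟨N ∪ N', hN.union hN', ?_⟩
      filter_upwards [h1, h2, (chartAt (E d) x).open_source.mem_nhds (mem_chart_source (E d) x)]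
        with y h3 h4 hys hyN v
      rw [h3 fun h => hyN (Or.inl h)]
      have h5 := h4 fun h => hyN (Or.inr h)
      have h6 : (g i x • σ i y) ![v, J y v] = g i x * σ i y ![v, J y v] := rfl
      rw [h6]
      refine mul_nonneg (hg i x hi).le ?_
      obtain ⟨p, hp⟩ : ∃ p, p = chartAt (E d) x y := ⟨_, rfl⟩
      have hpt : p ∈ (chartAt (E d) x).target := by rw [hp]; exact (chartAt (E d) x).map_source hys
      have hyp : y = (chartAt (E d) x).symm p := by rw [hp, (chartAt (E d) x).left_inv hys]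
      rw [← hp] at h5
      subst hyp
      obtain ⟨v', rfl⟩ := A_surj x hpt v
      have h7 := h5 v'
      have h8 := Q_eq (σ i) J x hpt v'
      unfold Q at h8
      rwa [h8] at h7)
  refine weak hd hF hFi hJ hJ.cont hlc hN hpos ?_
  rw [hcrit] at hthin
  exact hthin

/-- smooth closed forms are rough closed forms -/
theorem pb_closed {w : Form d X 2} (hw : IsSmooth w) (hwc : IsClosedForm w) (x : X) :
    ContDiffOn ℝ ∞ (pb (chartAt (E d) x).symm w) (chartAt (E d) x).target ∧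
      ∀ p ∈ (chartAt (E d) x).target, extDeriv (pb (chartAt (E d) x).symm w) p = 0 :=
  ⟨hw _ _ (chartAt (E d) x).open_target (contMDiffOn_chart_symm (I := 𝓡 d)),
    fun p hp => hwc _ _ (chartAt (E d) x).open_target (contMDiffOn_chart_symm (I := 𝓡 d)) p hp⟩

/-- a smooth closed form in the chart -/
theorem rough_of_smooth {w : Form d X 2} (hw : IsSmooth w) (hwc : IsClosedForm w) (x : X) :
    ∃ r b : ℝ, 0 < r ∧ ball (chartAt (E d) x x) r ⊆ (chartAt (E d) x).target ∧
      AEStronglyMeasurable (pb (chartAt (E d) x).symm w)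
        (volume.restrict (ball (chartAt (E d) x x) r)) ∧
      (∀ᵐ p, p ∈ ball (chartAt (E d) x x) r → ‖pb (chartAt (E d) x).symm w p‖ ≤ b) ∧
      WCl (pb (chartAt (E d) x).symm w) (ball (chartAt (E d) x x) r) := by
  obtain ⟨h1, h2⟩ := pb_closed hw hwc x
  obtain ⟨r, hr, hrt⟩ := Metric.nhds_basis_closedBall.mem_iff.1
    ((chartAt (E d) x).open_target.mem_nhds (mem_chart_target (E d) x))
  have hsub : ball (chartAt (E d) x x) r ⊆ (chartAt (E d) x).target :=
    ball_subset_closedBall.trans hrt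
  obtain ⟨b, hb⟩ := (isCompact_closedBall (chartAt (E d) x x) r).exists_bound_of_continuousOn
    (h1.continuousOn.mono hrt)
  exact ⟨r, b, hr, hsub, (h1.continuousOn.mono hsub).aestronglyMeasurable measurableSet_ball,
    Eventually.of_forall fun p hp => hb p (ball_subset_closedBall hp),
    WCl_of_smooth isOpen_ball (h1.mono hsub) fun p hp => h2 p (hsub hp)⟩

/-- nondegenerate continuous forms are uniformly nondegenerate -/
theorem und_of_smooth {w : Form d X 2} (hw : IsSmooth w) (hwc : IsClosedForm w)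
    (hnd : ∀ (x : X) (v : TangentSpace (𝓡 d) x), (∀ u, w x ![v, u] = 0) → v = 0) (x : X) :
    UND w x := by
  obtain ⟨h1, h2⟩ := pb_closed hw hwc x
  have hxt := mem_chart_target (E d) x
  obtain ⟨p₀, hp₀⟩ : ∃ p₀, p₀ = chartAt (E d) x x := ⟨_, rfl⟩
  obtain ⟨s, hs⟩ : ∃ s, s = pb (chartAt (E d) x).symm w := ⟨_, rfl⟩
  have hnd0 : ∀ v : E d, (∀ u : E d, s p₀ ![v, u] = 0) → v = 0 := by
    intro v hv
    have h3 : A x p₀ v = 0 := by
      refine hnd ((chartAt (E d) x).symm p₀) (A x p₀ v) fun u => ?_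
      obtain ⟨u', rfl⟩ := A_surj x (hp₀ ▸ hxt) u
      rw [← pb_apply2, ← hs]
      exact hv u'
    have h4 := BA x (hp₀ ▸ hxt) v
    rw [h3, map_zero] at h4
    exact h4.symm
  -- the inverse endomorphism
  obtain ⟨S, hS⟩ : ∃ S : E d →ₗ[ℝ] E d, ∀ v u, inner ℝ (S v) u = s p₀ ![v, u] := by
    choose L hL using lin2 (s p₀)
    have key : ∀ v : E d, ∃ z : E d, ∀ u, inner ℝ z u = s p₀ ![v, u] := by
      intro v
      refine ⟨(InnerProductSpace.toDual ℝ (E d)).symm (LinearMap.toContinuousLinearMap (L v)),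
        fun u => ?_⟩
      rw [InnerProductSpace.toDual_symm_apply]
      exact hL v u
    choose z hz using key
    refine ⟨⟨⟨z, fun a b => ?_⟩, fun a b => ?_⟩, hz⟩
    · refine ext_inner_right ℝ fun u => ?_
      rw [inner_add_left, hz, hz, hz]
      have := (s p₀).map_update_add ![0, u] 0 a b
      have e : ∀ z : E d, Function.update (![0, u] : Fin 2 → E d) 0 z = ![z, u] := by
        intro z
        funext i
        fin_cases i <;> rfl
      rwa [e, e, e] at this
    · refine ext_inner_right ℝ fun u => ?_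
      rw [RingHom.id_apply, inner_smul_left, hz, hz]
      have := (s p₀).map_update_smul ![0, u] 0 a b
      have e : ∀ z : E d, Function.update (![0, u] : Fin 2 → E d) 0 z = ![z, u] := by
        intro z
        funext i
        fin_cases i <;> rfl
      rw [e, e] at this
      exact this
  have hSinj : Function.Injective S := by
    rw [← LinearMap.ker_eq_bot, LinearMap.ker_eq_bot']
    intro v hv
    refine hnd0 v fun u => ?_
    rw [← hS, hv, inner_zero_left]
  obtain ⟨T, hT⟩ : ∃ T : E d →L[ℝ] E d, T = LinearMap.toContinuousLinearMap S := ⟨_, rfl⟩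
  have hTS : ∀ v, T v = S v := by
    intro v
    rw [hT]
    rfl
  have hpos : ∀ v : E d, v ≠ 0 → 0 < s p₀ ![v, T v] := by
    intro v hv
    rw [hTS, ← hS, real_inner_self_eq_norm_sq]
    have h3 : S v ≠ 0 := fun h => hv (hSinj (by rw [h, map_zero]))
    have := norm_pos_iff.2 h3
    positivity
  -- continuity
  have hcont : ContinuousOn (fun q : E d × E d => s q.1 ![q.2, T q.2])
      ((chartAt (E d) x).target ×ˢ univ) := by
    have h7 : Continuous (fun q : Al d 2 × (Fin 2 → E d) => q.1 q.2) := by fun_prop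
    refine h7.comp_continuousOn (ContinuousOn.prodMk ?_ ?_)
    · rw [hs]
      exact h1.continuousOn.comp continuousOn_fst fun q hq => hq.1
    · refine Continuous.continuousOn ?_
      rw [continuous_pi_iff]
      intro i
      fin_cases i
      · exact continuous_snd
      · exact T.continuous.comp continuous_snd
  obtain ⟨c, hc, hcb⟩ : ∃ c : ℝ, 0 < c ∧ ∀ v ∈ sphere (0 : E d) 1, c < s p₀ ![v, T v] := by
    by_cases hne : (sphere (0 : E d) 1).Nonempty
    · have hcs : ContinuousOn (fun v : E d => s p₀ ![v, T v]) (sphere 0 1) := by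
        have : ContinuousOn (fun v : E d => ((p₀, v) : E d × E d)) (sphere 0 1) := by fun_prop
        exact hcont.comp this fun v hv => ⟨by rw [hp₀]; exact hxt, mem_univ _⟩
      obtain ⟨v₀, hv₀, hmin⟩ := (isCompact_sphere (0 : E d) 1).exists_isMinOn hne hcs
      have hv₀' : v₀ ≠ 0 := by
        rintro rfl
        simp at hv₀
      refine ⟨s p₀ ![v₀, T v₀] / 2, half_pos (hpos v₀ hv₀'), fun v hv => ?_⟩
      have := hmin hv
      have h8 := hpos v₀ hv₀'
      have h9 : s p₀ ![v₀, T v₀] ≤ s p₀ ![v, T v] := this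
      linarith
    · rw [not_nonempty_iff_eq_empty] at hne
      exact ⟨1, one_pos, fun v hv => by rw [hne] at hv; exact absurd hv (notMem_empty v)⟩
  have hev : ∀ᶠ p in 𝓝 p₀, ∀ v ∈ sphere (0 : E d) 1, c < s p ![v, T v] := by
    refine IsCompact.eventually_forall_of_forall_eventually (isCompact_sphere (0 : E d) 1) ?_
    intro v hv
    have h8 : ContinuousAt (fun q : E d × E d => s q.1 ![q.2, T q.2]) (p₀, v) := by
      refine hcont.continuousAt (prod_mem_nhds ?_ univ_mem)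
      rw [hp₀]
      exact (chartAt (E d) x).open_target.mem_nhds hxt
    have h9 := h8.eventually_const_lt (hcb v hv)
    exact h9
  obtain ⟨r, hr, hball⟩ := Metric.eventually_nhds_iff_ball.1 hev
  refine ⟨T, c, hc, r, hr, Eventually.of_forall fun p hp v => ?_⟩
  rw [← hp₀] at hp
  rw [← hs]
  by_cases hv : v = 0
  · subst hv
    have h8 : s p ![0, T 0] = 0 := (s p).map_coord_zero 0 rfl
    rw [h8, norm_zero]
    simp
  · have hn : 0 < ‖v‖ := norm_pos_iff.2 hv
    have h8 := hball p hp (‖v‖⁻¹ • v) (by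
      rw [mem_sphere_zero_iff_norm, norm_smul, norm_inv, norm_norm, inv_mul_cancel₀ hn.ne'])
    have h9 : s p ![‖v‖⁻¹ • v, T (‖v‖⁻¹ • v)] = ‖v‖⁻¹ ^ 2 * s p ![v, T v] := by
      rw [map_smul]
      have h10 := (s p).map_smul_univ (fun _ => ‖v‖⁻¹) ![v, T v]
      have h11 : (fun i => ‖v‖⁻¹ • (![v, T v] : Fin 2 → E d) i) = ![‖v‖⁻¹ • v, ‖v‖⁻¹ • T v] := by
        funext i
        fin_cases i <;> rfl
      rw [h11] at h10
      rw [h10]
      simp
    rw [h9] at h8
    have h12 : c * ‖v‖ ^ 2 < ‖v‖⁻¹ ^ 2 * s p ![v, T v] * ‖v‖ ^ 2 := by gcongr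
    refine h12.le.trans (le_of_eq ?_)
    field_simp

end

end Pool.Agent.Helper76K9.RF
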